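import Mathlib
import Pool.Agent.Work.MP_992d6e_an.SM.Defs

/-!
MP_992d6e_an, random strengths at arbitrary positions: common definitions.

`SM992.g u = u/|u|^3`, `SM992.Dg` is its derivative, `SM992.F q a x = Σ q_l g (x - a_l)` is the
field (minus the gradient of the potential) and `SM992.DF q a x = Σ q_l Dg (x - a_l)` its
derivative; `SM992.IsEq q a x` says that `x` is an equilibrium.
-/

set_option autoImplicit false

namespace ST992

open MeasureTheory
open SM992 (E F DF g Dg IsEq)

variable {n : ℕ}

/-- The strengths `q` with the signs of the charges in `s` changed. -/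
def flip (s : Finset (Fin n)) (q : Fin n → ℝ) : Fin n → ℝ := fun j => if j ∈ s then -q j else q j

/-- The strengths `μ_j p_j`. -/
def sc (μ p : Fin n → ℝ) : Fin n → ℝ := fun j => μ j * p j

/-- The box `[1 - σ, 1 + σ]^n`. -/
def bx (n : ℕ) (σ : ℝ) : Set (Fin n → ℝ) := Set.pi Set.univ fun _ => Set.Icc (1 - σ) (1 + σ)

/-- The box with side `[-4n, 4n]` for the charges in `S` and `[1 - σ, 1 + σ]` for the others. -/
def qx (n : ℕ) (σ : ℝ) (S : Finset (Fin n)) : Set (Fin n → ℝ) :=
  Set.pi Set.univ fun j => if j ∈ S then Set.Icc (-(4 * n : ℝ)) (4 * n) else Set.Icc (1 - σ) (1 + σ)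

/-- The sets of at most three charges. -/
def small (n : ℕ) : Finset (Finset (Fin n)) := Finset.univ.filter fun A => A.card ≤ 3

/-- The integrand `1(|F| < η) |det DF|`. -/
noncomputable def hh (η : ℝ) (q : Fin n → ℝ) (a : Fin n → E) (x : E) : ENNReal :=
  (Metric.ball (0 : E) η).indicator 1 (F q a x) * ENNReal.ofReal |(DF q a x).det|

/-- The points outside the charges. -/
def off (a : Fin n → E) : Set E := {x | ∀ l, x ≠ a l}

/-- `∫ 1(|F| < η) |det DF| dx`. -/
noncomputable def GG (η : ℝ) (q : Fin n → ℝ) (a : Fin n → E) : ENNReal :=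
  ∫⁻ x in off a, hh η q a x

end ST992
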