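import Pool.Prelude.Def_F_d420a142
import Pool.Agent.Work.MP_992d6e_an.ST.Defs
import Pool.Agent.Work.MP_992d6e_an.SM.Grad
import Pool.Agent.Work.MP_992d6e_an.SM.Der

/-!
MODULE Link (S-M): the nondegenerate equilibria of the frozen statement in terms of the field.

`SM992.mem_equilibria_iff` gives `x ∈ equilibria q a ↔ IsEq q a x`. Near `x ∈ off a`,
`fderiv ℝ (potential q a) y = -(innerSL ℝ (F q a y))` (private `t1` in SM/Grad, copy it), so
`iteratedFDeriv ℝ 2 V x ![v, w] = fderiv ℝ (fderiv ℝ V) x v w = -⟪DF q a x v, w⟫`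
(`iteratedFDeriv_two_apply`, `SM992.hasStrictFDerivAt_F`); a linear map is injective iff
`DF v = 0 → v = 0`, and `⟪DF v, w⟫ = 0` for all `w` iff `DF v = 0`.
-/

set_option autoImplicit false

namespace ST992

open N62f3cee0
open SM992 (E F DF g Dg IsEq)

private theorem t1 {n : ℕ} (q : Fin n → ℝ) (a : Fin n → E) {x : E} (hx : ∀ l, x ≠ a l) :
    HasFDerivAt (potential q a) (-(innerSL ℝ (F q a x))) x := by
  have h1 : ∀ l ∈ (Finset.univ : Finset (Fin n)),
      HasFDerivAt (fun y : E => q l / dist y (a l))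
        (-(q l * (‖x - a l‖ ^ 3)⁻¹) • innerSL ℝ (x - a l)) x :=
    fun l _ => PC992.Sard.hasFDerivAt_inv_dist (q l) (hx l)
  have h2 := HasFDerivAt.fun_sum h1
  have h3 : ∑ l, -(q l * (‖x - a l‖ ^ 3)⁻¹) • innerSL ℝ (x - a l) = -(innerSL ℝ (F q a x)) := by
    rw [F, map_sum, ← Finset.sum_neg_distrib]
    refine Finset.sum_congr rfl fun l _ => ?_
    rw [map_smul, g, map_smul, smul_smul, neg_smul]
  rw [h3] at h2
  exact h2

private theorem t2 {n : ℕ} (a : Fin n → E) {x : E} (hx : x ∈ off a) :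
    ∀ᶠ y in nhds x, ∀ l, y ≠ a l := by
  rw [Filter.eventually_all]
  intro l
  exact isOpen_ne.mem_nhds (hx l)

private theorem t3 {n : ℕ} (q : Fin n → ℝ) (a : Fin n → E) {x : E} (hx : x ∈ off a) (v w : E) :
    iteratedFDeriv ℝ 2 (potential q a) x ![v, w] = -(inner ℝ (DF q a x v) w) := by
  have h1 : fderiv ℝ (potential q a) =ᶠ[nhds x] fun y => -(innerSL ℝ (F q a y)) := by
    filter_upwards [t2 a hx] with y hy
    exact (t1 q a hy).fderiv
  have h2 : HasFDerivAt (fun y => -(innerSL ℝ (F q a y)))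
      (-((innerSL ℝ : E →L[ℝ] E →L[ℝ] ℝ).comp (DF q a x))) x := by
    have h3 : HasFDerivAt (F q a) (DF q a x) x :=
      (SM992.hasStrictFDerivAt_F q a hx).hasFDerivAt
    have h4 : HasFDerivAt (fun y => (innerSL ℝ : E →L[ℝ] E →L[ℝ] ℝ) (F q a y))
        ((innerSL ℝ : E →L[ℝ] E →L[ℝ] ℝ).comp (DF q a x)) x :=
      (innerSL ℝ : E →L[ℝ] E →L[ℝ] ℝ).hasFDerivAt.comp x h3
    exact h4.neg
  rw [iteratedFDeriv_two_apply, h1.fderiv_eq, h2.fderiv]
  simp [innerSL_apply_apply]

theorem nondeg_iff {n : ℕ} (q : Fin n → ℝ) (a : Fin n → E) (x : E) (hx : x ∈ off a) :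
    HasNondegenerateHessianAt (potential q a) x ↔ Function.Injective (DF q a x) := by
  rw [injective_iff_map_eq_zero]
  unfold HasNondegenerateHessianAt
  constructor
  · intro h v hv
    by_contra hne
    obtain ⟨w, hw⟩ := h v hne
    apply hw
    rw [t3 q a hx v w, hv, inner_zero_left, neg_zero]
  · intro h v hv
    refine ⟨DF q a x v, ?_⟩
    rw [t3 q a hx v (DF q a x v)]
    intro h0
    rw [neg_eq_zero, inner_self_eq_zero] at h0
    exact hv (h v h0)

end ST992
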