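import Mathlib

/-!
MODULE LinSard (M-L): parametric Sard theorem for a family of linear maps.

`W x : ℝ^n → K` surjective, differentiable in `x`: for almost every `q` every solution `x ∈ U` of
`W x q = 0` is nondegenerate.
PROOF. Fix `x0 ∈ U`, `N = ker (W x0)` and a complement `H` of `N`, so `W x0 ∘ ι : H → K` is a linear
equivalence (`ι : H → ℝ^n` the inclusion); choose a linear equivalence `θ : K ≃ H` (e.g. the inverse of
`W x0 ∘ ι`). The `x ∈ U` near `x0` for which `W x ∘ ι ∘ θ : K → K` is invertible form a neighbourhood of `x0`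
within `U` (`W` is continuous at `x0`; invertible maps are open). By Lindelof (`K` is
second countable) countably many of these neighbourhoods cover `U`, so it is enough to treat one of them,
`U0`. Solutions: `q = k + ι θ h` with `k ∈ N`, `h ∈ K`; `W x q = 0` iff
`h = h(x, k) := -(W x ∘ ι ∘ θ)⁻¹ (W x k)`. Let `Φ : K × N → K × N`, `Φ (x, k) = (h(x, k), k)`: it is
differentiable at `(x, k)`, `x ∈ U0` (`contDiffAt_map_inverse` or `hasFDerivAt_ringInverse` for the
inverse), and if `W x q = 0` with `q = k + ι θ h(x,k)` and `v ≠ 0`, `W' x v q = 0`, then differentiating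
`W y (k + ι θ h(y, k)) = 0` (true for `y` near `x`) at `x` in the direction `v` gives
`W x (ι θ (D_x h v)) = 0`, so `D_x h v = 0` and `D Φ (x, k) (v, 0) = 0`: the determinant of `DΦ (x, k)` is `0`. By
`MeasureTheory.addHaar_image_eq_zero_of_det_fderiv_eq_zero` the image under `Φ` of these `(x, k)` is null
(put a Haar measure on `K × N`), and the linear equivalence `K × N ≃ ℝ^n`, `(h, k) ↦ k + ι θ h`, maps
null sets to null sets (`MeasureTheory.Measure.addHaar_image_linearMap` for maps of one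
space; or transport the measure: `LinearEquiv`/`ContinuousLinearEquiv` and
`MeasureTheory.Measure.isAddHaarMeasure_map` + uniqueness up to a factor).
-/

set_option autoImplicit false

namespace ST992

open MeasureTheory

private theorem ls_local {n : ℕ} {K : Type} [NormedAddCommGroup K] [NormedSpace ℝ K]
    [FiniteDimensional ℝ K] (W : K → ((Fin n → ℝ) →L[ℝ] K))
    (W' : K → (K →L[ℝ] ((Fin n → ℝ) →L[ℝ] K))) (V : Set K)
    (hW : ∀ x ∈ V, HasFDerivAt W (W' x) x) (A : (Fin n → ℝ) →L[ℝ] K) (R : K →L[ℝ] (Fin n → ℝ))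
    (hAR : ∀ k, A (R k) = k) (hT : ∀ x ∈ V, ∃ e : K ≃L[ℝ] K, (e : K →L[ℝ] K) = (W x).comp R) :
    volume {q : Fin n → ℝ | ∃ x ∈ V, W x q = 0 ∧ ∃ v, W' x v q = 0 ∧ v ≠ 0} = 0 := by
  classical
  have hcK : CompleteSpace K := FiniteDimensional.complete ℝ K
  set T : K → (K →L[ℝ] K) := fun x => (W x).comp R with hTdef
  set P : (Fin n → ℝ) →L[ℝ] (Fin n → ℝ) :=
    ContinuousLinearMap.id ℝ (Fin n → ℝ) - R.comp A with hP
  have hPa : ∀ q, P q = q - R (A q) := fun q => rfl
  have hPR : ∀ k, P (R k) = 0 := by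
    intro k
    rw [hPa, hAR, sub_self]
  have hAP : ∀ q, A (P q) = 0 := by
    intro q
    rw [hPa, map_sub, hAR, sub_self]
  set Φ : (Fin n → ℝ) → (Fin n → ℝ) := fun p =>
    P p - R ((T (A p)).inverse (W (A p) (P p))) with hΦ
  have hPΦ : ∀ p, P (Φ p) = P p := by
    intro p
    have h1 : P (Φ p) = P (P p) - P (R ((T (A p)).inverse (W (A p) (P p)))) := map_sub _ _ _
    rw [h1, hPR, sub_zero, hPa (P p), hAP, map_zero, sub_zero]
  set s : Set (Fin n → ℝ) := {p | A p ∈ V ∧ ∃ v, W' (A p) v (Φ p) = 0 ∧ v ≠ 0} with hs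
  have hinv : ∀ x ∈ V, DifferentiableAt ℝ (fun y => (T y).inverse) x := by
    intro x hx
    obtain ⟨e, he⟩ := hT x hx
    have h1 : DifferentiableAt ℝ (fun y => T y) x := by
      have h2 : DifferentiableAt ℝ W x := (hW x hx).differentiableAt
      exact h2.clm_comp (differentiableAt_const R)
    have h3 : DifferentiableAt ℝ (ContinuousLinearMap.inverse : (K →L[ℝ] K) → (K →L[ℝ] K))
        (T x) := by
      have h4 := (contDiffAt_map_inverse (𝕜 := ℝ) (n := 1) e).differentiableAt (by norm_num)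
      rw [he] at h4
      exact h4
    exact DifferentiableAt.comp x h3 h1
  have hdiff : ∀ p, A p ∈ V → DifferentiableAt ℝ Φ p := by
    intro p hp
    have h1 : DifferentiableAt ℝ (fun q => (T (A q)).inverse) p :=
      DifferentiableAt.comp (𝕜 := ℝ) (g := fun y => (T y).inverse) (f := fun q => A q) p
        (hinv (A p) hp) A.differentiableAt
    have h2 : DifferentiableAt ℝ (fun q => W (A q)) p :=
      DifferentiableAt.comp (𝕜 := ℝ) (g := W) (f := fun q => A q) p
        (hW (A p) hp).differentiableAt A.differentiableAt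
    have h3 : DifferentiableAt ℝ (fun q => W (A q) (P q)) p :=
      h2.clm_apply P.differentiableAt
    have h4 : DifferentiableAt ℝ (fun q => (T (A q)).inverse (W (A q) (P q))) p :=
      h1.clm_apply h3
    have h5 : DifferentiableAt ℝ (fun q => R ((T (A q)).inverse (W (A q) (P q)))) p :=
      R.differentiableAt.comp p h4
    exact P.differentiableAt.sub h5
  have hdet : ∀ p ∈ s, (fderiv ℝ Φ p).det = 0 := by
    rintro p ⟨hpV, v, hv, hv0⟩
    have hTx := hT (A p) hpV
    have hΦp : HasFDerivAt Φ (fderiv ℝ Φ p) p := (hdiff p hpV).hasFDerivAt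
    set D : (Fin n → ℝ) →L[ℝ] (Fin n → ℝ) := fderiv ℝ Φ p with hD
    -- the curve `y ↦ Φ (P p + R y)`
    have hpp : P p + R (A p) = p := by
      rw [hPa]
      abel
    have hlin : HasFDerivAt (fun y : K => P p + R y) R (A p) := by
      have h1 := R.hasFDerivAt (x := A p)
      exact h1.const_add (P p)
    have hg : HasFDerivAt (fun y : K => Φ (P p + R y)) (D.comp R) (A p) := by
      have h1 : HasFDerivAt Φ D (P p + R (A p)) := by
        rw [hpp]
        exact hΦp
      exact HasFDerivAt.comp (A p) h1 hlin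
    have hWg := (hW (A p) hpV).clm_apply hg
    have hev : (fun y : K => W y (Φ (P p + R y))) =ᶠ[nhds (A p)] fun _ => (0 : K) := by
      obtain ⟨e, he⟩ := hTx
      have h1 : ContinuousAt T (A p) := by
        have h2 : DifferentiableAt ℝ W (A p) := (hW (A p) hpV).differentiableAt
        have h3 : DifferentiableAt ℝ (fun y => T y) (A p) :=
          h2.clm_comp (differentiableAt_const R)
        exact h3.continuousAt
      have h4 : Set.range ((↑) : (K ≃L[ℝ] K) → K →L[ℝ] K) ∈ nhds (T (A p)) :=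
        IsOpen.mem_nhds ContinuousLinearEquiv.isOpen ⟨e, he⟩
      filter_upwards [h1.preimage_mem_nhds h4] with y hy
      obtain ⟨e', he'⟩ := hy
      have hA1 : A (P p + R y) = y := by
        rw [map_add, hAP, hAR, zero_add]
      have hP1 : P (P p + R y) = P p := by
        rw [map_add, hPR, add_zero, hPa (P p), hAP, map_zero, sub_zero]
      have h5 : Φ (P p + R y) = P p - R ((T y).inverse (W y (P p))) := by
        simp only [hΦ]
        rw [hA1, hP1]
      rw [h5, map_sub]
      have h6 : W y (R ((T y).inverse (W y (P p)))) = T y ((T y).inverse (W y (P p))) := rfl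
      rw [h6, ← he', ContinuousLinearMap.inverse_equiv]
      simp
    have h0 : HasFDerivAt (fun y : K => W y (Φ (P p + R y))) (0 : K →L[ℝ] K) (A p) :=
      (hasFDerivAt_const (0 : K) (A p)).congr_of_eventuallyEq hev
    have huniq := hWg.unique h0
    have h7 := congrArg (fun L : K →L[ℝ] K => L v) huniq
    have h8 : W (A p) (D (R v)) = 0 := by
      have h9 : W (A p) (D (R v)) + W' (A p) v (Φ (P p + R (A p))) = 0 := by
        simpa using h7
      rw [hpp, hv, add_zero] at h9
      exact h9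
    -- `P (D (R v)) = 0`
    have h10 : P (D (R v)) = 0 := by
      have h11 : HasFDerivAt (fun q => P (Φ q)) (P.comp D) p :=
        HasFDerivAt.comp p (P.hasFDerivAt (x := Φ p)) hΦp
      have h12 : HasFDerivAt (fun q => P (Φ q)) P p := by
        have h13 : (fun q => P (Φ q)) = fun q => P q := funext hPΦ
        rw [h13]
        exact P.hasFDerivAt
      have h14 := congrArg (fun L : (Fin n → ℝ) →L[ℝ] (Fin n → ℝ) => L (R v)) (h11.unique h12)
      have h15 : P (D (R v)) = P (R v) := h14
      rw [h15, hPR]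
    have h16 : D (R v) = R (A (D (R v))) := by
      have h17 := hPa (D (R v))
      rw [h10] at h17
      exact (sub_eq_zero.1 h17.symm)
    obtain ⟨e, he⟩ := hTx
    have h18 : A (D (R v)) = 0 := by
      have h19 : e (A (D (R v))) = 0 := by
        have h20 : e (A (D (R v))) = (e : K →L[ℝ] K) (A (D (R v))) := rfl
        rw [h20, he]
        change W (A p) (R (A (D (R v)))) = 0
        rw [← h16]
        exact h8
      exact (map_eq_zero_iff e e.injective).1 h19
    have h21 : D (R v) = 0 := by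
      rw [h16, h18, map_zero]
    have hRv : R v ≠ 0 := by
      intro h
      apply hv0
      rw [← hAR v, h, map_zero]
    change LinearMap.det (D : (Fin n → ℝ) →ₗ[ℝ] (Fin n → ℝ)) = 0
    rw [LinearMap.det_eq_zero_iff_ker_ne_bot]
    intro hbot
    apply hRv
    have h22 : R v ∈ LinearMap.ker (D : (Fin n → ℝ) →ₗ[ℝ] (Fin n → ℝ)) := h21
    rw [hbot] at h22
    exact (Submodule.mem_bot ℝ).1 h22
  have hnull : volume (Φ '' s) = 0 :=
    addHaar_image_eq_zero_of_det_fderivWithin_eq_zero (f' := fun p => fderiv ℝ Φ p) volume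
      (fun p hp => (hdiff p hp.1).hasFDerivAt.hasFDerivWithinAt) hdet
  refine measure_mono_null ?_ hnull
  rintro q ⟨x, hx, hq, v, hv, hv0⟩
  have hAp : A (P q + R x) = x := by
    rw [map_add, hAP, hAR, zero_add]
  have hPp : P (P q + R x) = P q := by
    rw [map_add, hPR, add_zero, hPa (P q), hAP, map_zero, sub_zero]
  have hΦq : Φ (P q + R x) = q := by
    have h5 : Φ (P q + R x) = P q - R ((T x).inverse (W x (P q))) := by
      simp only [hΦ]
      rw [hAp, hPp]
    obtain ⟨e, he⟩ := hT x hx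
    have h6 : W x (P q) = -T x (A q) := by
      have h7 : T x (A q) = W x (R (A q)) := rfl
      rw [h7, hPa, map_sub, hq, zero_sub]
    have h8 : (T x).inverse (W x (P q)) = -A q := by
      have h9 : T x = (e : K →L[ℝ] K) := he.symm
      rw [h6, map_neg, h9, ContinuousLinearMap.inverse_equiv]
      simp
    rw [h5, h8, map_neg, hPa]
    abel
  refine ⟨P q + R x, ⟨?_, v, ?_, hv0⟩, hΦq⟩
  · rw [hAp]
    exact hx
  · rw [hAp, hΦq]
    exact hv

theorem lin_sard {n : ℕ} {K : Type} [NormedAddCommGroup K] [NormedSpace ℝ K]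
    [FiniteDimensional ℝ K] (W : K → ((Fin n → ℝ) →L[ℝ] K))
    (W' : K → (K →L[ℝ] ((Fin n → ℝ) →L[ℝ] K))) (U : Set K)
    (hW : ∀ x ∈ U, HasFDerivAt W (W' x) x) (hs : ∀ x ∈ U, Function.Surjective (W x)) :
    ∀ᵐ q : Fin n → ℝ, ∀ x ∈ U, W x q = 0 → ∀ v, W' x v q = 0 → v = 0 := by
  classical
  have hcK : CompleteSpace K := FiniteDimensional.complete ℝ K
  have hR : ∀ x0 ∈ U, ∃ R : K →L[ℝ] (Fin n → ℝ), ∀ k, W x0 (R k) = k := by
    intro x0 hx0
    obtain ⟨g, hg⟩ := (W x0 : (Fin n → ℝ) →ₗ[ℝ] K).exists_rightInverse_of_surjective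
      (LinearMap.range_eq_top.2 (hs x0 hx0))
    refine ⟨LinearMap.toContinuousLinearMap g, fun k => ?_⟩
    exact congrArg (fun L : K →ₗ[ℝ] K => L k) hg
  choose! R hR using hR
  set V : K → Set K := fun x0 => {x | ∃ e : K ≃L[ℝ] K, (e : K →L[ℝ] K) = (W x).comp (R x0)}
    with hV
  have hVn : ∀ x0 ∈ U, V x0 ∈ nhdsWithin x0 U := by
    intro x0 hx0
    apply mem_nhdsWithin_of_mem_nhds
    have h1 : ContinuousAt (fun y => (W y).comp (R x0)) x0 := by
      have h2 : DifferentiableAt ℝ W x0 := (hW x0 hx0).differentiableAt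
      have h3 : DifferentiableAt ℝ (fun y => (W y).comp (R x0)) x0 :=
        h2.clm_comp (differentiableAt_const (R x0))
      exact h3.continuousAt
    have h4 : Set.range ((↑) : (K ≃L[ℝ] K) → K →L[ℝ] K) ∈ nhds ((W x0).comp (R x0)) := by
      refine IsOpen.mem_nhds ContinuousLinearEquiv.isOpen ⟨ContinuousLinearEquiv.refl ℝ K, ?_⟩
      ext k
      exact (hR x0 hx0 k).symm
    exact h1.preimage_mem_nhds h4
  obtain ⟨t, htU, htc, hcov⟩ := TopologicalSpace.countable_cover_nhdsWithin hVn
  have hall : ∀ᵐ q : Fin n → ℝ, ∀ x0 ∈ t, ∀ x ∈ U ∩ V x0, W x q = 0 →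
      ∀ v, W' x v q = 0 → v = 0 := by
    rw [ae_ball_iff htc]
    intro x0 hx0
    have h1 := ls_local W W' (U ∩ V x0) (fun x hx => hW x hx.1) (W x0) (R x0)
      (hR x0 (htU hx0)) (fun x hx => hx.2)
    rw [ae_iff]
    refine measure_mono_null ?_ h1
    intro q hq
    have hq' : ¬ ∀ x ∈ U ∩ V x0, W x q = 0 → ∀ v, W' x v q = 0 → v = 0 := hq
    push Not at hq'
    obtain ⟨x, hx, hxq, v, hv, hv0⟩ := hq'
    exact ⟨x, hx, hxq, v, hv, hv0⟩
  filter_upwards [hall] with q hq x hx hxq v hv
  obtain ⟨x0, hx0, hxV⟩ := Set.mem_iUnion₂.1 (hcov hx)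
  exact hq x0 hx0 x ⟨hx, hxV⟩ hxq v hv

end ST992
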