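import Pool.Agent.Work.MP_992d6e_an.ST.Defs
import Pool.Agent.Work.MP_992d6e_an.ST.LinSard
import Pool.Agent.Work.MP_992d6e_an.SM.Der

/-!
MODULE SardA (S-M): at the points where the unit fields of the charges span `E`, almost all
strengths have only nondegenerate equilibria.

`lin_sard` with `K = E`, `W x q = F q a x = Σ q_l • g (x - a_l)`
(`W x = Σ_l (ContinuousLinearMap.proj l).smulRight (g (x - a_l))`), `W' x v q = DF q a x v`,
`U = {x ∈ off a | the map q ↦ F q a x is surjective}`; derivative of `g`: `SM992.hasStrictFDerivAt_g`.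
-/

set_option autoImplicit false

namespace ST992

open MeasureTheory
open SM992 (E F DF g Dg IsEq)

/-- the linear map `q ↦ Σ q_l • v_l` -/
private noncomputable def lcA {n : ℕ} (v : Fin n → E) : (Fin n → ℝ) →L[ℝ] E :=
  ∑ l, ContinuousLinearMap.smulRightL ℝ (Fin n → ℝ) E (ContinuousLinearMap.proj l) (v l)

private theorem lcA_apply {n : ℕ} (v : Fin n → E) (q : Fin n → ℝ) :
    lcA v q = ∑ l, q l • v l := by
  rw [lcA, sum_apply]
  rfl

theorem sard_a {n : ℕ} (a : Fin n → E) :
    ∀ᵐ q : Fin n → ℝ, ∀ x ∈ off a, Function.Surjective (fun q' : Fin n → ℝ => F q' a x) →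
      F q a x = 0 → Function.Injective (DF q a x) := by
  have hW : ∀ x ∈ {x : E | x ∈ off a ∧ Function.Surjective (fun q' : Fin n → ℝ => F q' a x)},
      HasFDerivAt (fun x : E => lcA fun l => g (x - a l))
        (∑ l, (ContinuousLinearMap.smulRightL ℝ (Fin n → ℝ) E
          (ContinuousLinearMap.proj l)).comp (Dg (x - a l))) x := by
    intro x hx
    have h1 : ∀ l ∈ (Finset.univ : Finset (Fin n)),
        HasFDerivAt (fun x : E => ContinuousLinearMap.smulRightL ℝ (Fin n → ℝ) E
          (ContinuousLinearMap.proj l) (g (x - a l)))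
          ((ContinuousLinearMap.smulRightL ℝ (Fin n → ℝ) E
          (ContinuousLinearMap.proj l)).comp (Dg (x - a l))) x := by
      intro l _
      have h2 : HasFDerivAt (fun y : E => y - a l) (ContinuousLinearMap.id ℝ E) x :=
        (hasFDerivAt_id x).sub_const (a l)
      have h3 : HasFDerivAt (fun y : E => g (y - a l))
          ((Dg (x - a l)).comp (ContinuousLinearMap.id ℝ E)) x :=
        HasFDerivAt.comp (g := g) x
          (SM992.hasStrictFDerivAt_g (sub_ne_zero.2 (hx.1 l))).hasFDerivAt h2
      rw [ContinuousLinearMap.comp_id] at h3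
      exact (ContinuousLinearMap.hasFDerivAt _).comp x h3
    exact HasFDerivAt.fun_sum h1
  have hmain := lin_sard (K := E) (fun x => lcA fun l => g (x - a l))
    (fun x => ∑ l, (ContinuousLinearMap.smulRightL ℝ (Fin n → ℝ) E
      (ContinuousLinearMap.proj l)).comp (Dg (x - a l)))
    {x : E | x ∈ off a ∧ Function.Surjective (fun q' : Fin n → ℝ => F q' a x)} hW (by
      intro x hx y
      obtain ⟨q', hq'⟩ := hx.2 y
      refine ⟨q', ?_⟩
      rw [lcA_apply]
      exact hq')
  filter_upwards [hmain] with q hq x hx hs hF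
  rw [injective_iff_map_eq_zero]
  intro v hv
  refine hq x ⟨hx, hs⟩ ?_ v ?_
  · rw [lcA_apply]
    exact hF
  · rw [sum_apply, sum_apply]
    rw [DF, sum_apply] at hv
    exact hv

end ST992
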