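import Pool.Agent.Work.MP_992d6e_an.ST.Defs
import Pool.Agent.Work.MP_992d6e_an.ST.LinSard
import Pool.Agent.Work.MP_992d6e_an.SM.Der

/-!
MODULE SardB (M-L): the points in the plane of the charges (coplanar, not collinear charges).

If `q' ↦ F q' a x` is not surjective, some `ν ≠ 0` (take `|ν| = 1`) is orthogonal to all `x - a_l`. If this
happens for no `x ∈ off a` there is nothing to prove. Otherwise fix one such `x1`, `ν`; the charges lie in
the plane `{y : ⟪y - a_0, ν⟫ = 0}`, and every other such `x` lies in this plane too: its normal `ν'` is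
orthogonal to all `a_l - a_0`, which span `ν^⊥` because the charges are not collinear, so `ν'` is
parallel to `ν`. Let `e1, e2, ν` be an orthonormal basis, `x(y) = a_0 + y_1 e1 + y_2 e2`.
(b1) `lin_sard` with `K = ℝ^3`, `W (y, z) q = (⟪F q a x(y), e1⟫, ⟪F q a x(y), e2⟫, Σ_l q_l |x(y) - a_l|^(-3))`,
independent of `z`: surjective for all `y` with `x(y) ∈ off a` (if `α ⟪g(x-a_l),e1⟫ + β ⟪g(x-a_l),e2⟫ + γ |x-a_l|^(-3) = 0`
for all `l` then `α ⟪x-a_l,e1⟫ + β ⟪x-a_l,e2⟫ + γ = 0` for all `l`, and the charges would be collinear unless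
`α = β = γ = 0`), and `W' (v = (0, 1)) = 0`: so for a.e. `q` there is no `y` with `F q a x(y) = 0` and
`Σ_l q_l |x(y) - a_l|^(-3) = 0`.
(b2) `lin_sard` with `K = ℝ^2`, `W y q = (⟪F q a x(y), e1⟫, ⟪F q a x(y), e2⟫)`, surjective by the same argument: for
a.e. `q`, if `F q a x(y) = 0` then the plane derivative is injective.
Since `Dg u ν = |u|^(-3) ν` for `u ⊥ ν` and `Dg u` maps `ν^⊥` to itself, `DF q a x (α e1 + β e2 + γ ν) = 0` gives
`γ Σ q_l |x-a_l|^(-3) = 0`, so `γ = 0`, and then `α = β = 0`.
(`Collinear`: `collinear_iff_of_mem`, `collinear_iff_exists_forall_eq_smul_vadd`. For `n = 0` the range is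
empty, hence collinear.)
-/

set_option autoImplicit false

namespace ST992

open MeasureTheory
open SM992 (E F DF g Dg IsEq)

/-- the linear map `q ↦ Σ q_l • v_l` -/
private noncomputable def lcB {n : ℕ} {K : Type} [NormedAddCommGroup K] [NormedSpace ℝ K]
    (v : Fin n → K) : (Fin n → ℝ) →L[ℝ] K :=
  ∑ l, ContinuousLinearMap.smulRightL ℝ (Fin n → ℝ) K (ContinuousLinearMap.proj l) (v l)

private theorem lcB_apply {n : ℕ} {K : Type} [NormedAddCommGroup K] [NormedSpace ℝ K]
    (v : Fin n → K) (q : Fin n → ℝ) : lcB v q = ∑ l, q l • v l := by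
  rw [lcB, sum_apply]
  rfl

private theorem lcB_deriv {n : ℕ} {K K' : Type} [NormedAddCommGroup K] [NormedSpace ℝ K]
    [NormedAddCommGroup K'] [NormedSpace ℝ K'] {f : Fin n → K' → K} {f' : Fin n → K' →L[ℝ] K}
    {x : K'} (h : ∀ l, HasFDerivAt (f l) (f' l) x) :
    HasFDerivAt (fun x => lcB fun l => f l x)
      (∑ l, (ContinuousLinearMap.smulRightL ℝ (Fin n → ℝ) K
        (ContinuousLinearMap.proj l)).comp (f' l)) x :=
  HasFDerivAt.fun_sum fun l _ => (ContinuousLinearMap.hasFDerivAt _).comp x (h l)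

private theorem lcB_deriv_apply {n : ℕ} {K K' : Type} [NormedAddCommGroup K] [NormedSpace ℝ K]
    [NormedAddCommGroup K'] [NormedSpace ℝ K'] (f' : Fin n → K' →L[ℝ] K) (v : K')
    (q : Fin n → ℝ) :
    (∑ l, (ContinuousLinearMap.smulRightL ℝ (Fin n → ℝ) K
        (ContinuousLinearMap.proj l)).comp (f' l)) v q = ∑ l, q l • f' l v := by
  rw [sum_apply, sum_apply]
  rfl

private theorem surjB {n : ℕ} {K : Type} [NormedAddCommGroup K] [InnerProductSpace ℝ K]
    [FiniteDimensional ℝ K] (w : Fin n → K) (h : ∀ ξ : K, (∀ l, inner ℝ (w l) ξ = 0) → ξ = 0) :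
    Function.Surjective fun q : Fin n → ℝ => ∑ l, q l • w l := by
  classical
  let L : (Fin n → ℝ) →ₗ[ℝ] K := (lcB w : (Fin n → ℝ) →L[ℝ] K)
  have hL : ∀ q, L q = ∑ l, q l • w l := fun q => lcB_apply w q
  have h1 : (LinearMap.range L)ᗮ = ⊥ := by
    rw [Submodule.eq_bot_iff]
    intro ξ hξ
    refine h ξ fun l => ?_
    have h2 : w l ∈ LinearMap.range L := by
      refine ⟨Pi.single l 1, ?_⟩
      rw [hL, Finset.sum_eq_single l]
      · rw [Pi.single_eq_same, one_smul]
      · intro j _ hj
        rw [Pi.single_eq_of_ne hj, zero_smul]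
      · intro hl
        exact absurd (Finset.mem_univ l) hl
    exact (Submodule.mem_orthogonal _ _).1 hξ _ h2
  have h2 : LinearMap.range L = ⊤ := (Submodule.orthogonal_eq_bot_iff).1 h1
  intro y
  obtain ⟨q, hq⟩ := LinearMap.range_eq_top.1 h2 y
  exact ⟨q, (hL q).symm.trans hq⟩

private theorem collB {n : ℕ} {a : Fin n → E} {l0 : Fin n} {ν ξ : E} (hν : ν ≠ 0)
    (hξ : ∀ c : ℝ, ξ ≠ c • ν) (h1 : ∀ l, inner ℝ (a l - a l0) ν = 0)
    (h2 : ∀ l, inner ℝ (a l - a l0) ξ = 0) : Collinear ℝ (Set.range a) := by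
  rw [collinear_iff_finrank_le_one]
  have hli : LinearIndependent ℝ ![ν, ξ] := by
    rw [LinearIndependent.pair_iff' hν]
    intro c hc
    exact hξ c hc.symm
  have hr : Module.finrank ℝ (Submodule.span ℝ (Set.range ![ν, ξ])) = 2 := by
    have := finrank_span_eq_card hli
    simpa using this
  have hsum := Submodule.finrank_add_finrank_orthogonal (𝕜 := ℝ)
    (Submodule.span ℝ (Set.range ![ν, ξ]))
  have hE : Module.finrank ℝ E = 3 := by simp [E]
  rw [hr, hE] at hsum
  have hle : vectorSpan ℝ (Set.range a) ≤ (Submodule.span ℝ (Set.range ![ν, ξ]))ᗮ := by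
    rw [vectorSpan_range_eq_span_range_vsub_right ℝ a l0, Submodule.span_le]
    rintro _ ⟨l, rfl⟩
    rw [SetLike.mem_coe, Submodule.mem_orthogonal]
    intro u hu
    refine Submodule.span_induction (p := fun u _ => inner ℝ u (a l -ᵥ a l0) = 0) ?_ ?_ ?_ ?_ hu
    · rintro _ ⟨i, rfl⟩
      rw [vsub_eq_sub, real_inner_comm]
      fin_cases i
      · exact h1 l
      · exact h2 l
    · exact inner_zero_left _
    · intro x y _ _ hx hy
      rw [inner_add_left, hx, hy, add_zero]
    · intro c x _ hx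
      rw [inner_smul_left, hx, mul_zero]
  have := Submodule.finrank_mono hle
  omega

private theorem inner_gB {u ξ : E} (hu : u ≠ 0) (h : inner ℝ (g u) ξ = 0) :
    inner ℝ u ξ = 0 := by
  rw [g, inner_smul_left] at h
  rcases mul_eq_zero.1 h with h | h
  · exfalso
    have h0 : 0 < ‖u‖ := norm_pos_iff.2 hu
    have h1 : (0 : ℝ) < (‖u‖ ^ 3)⁻¹ := by positivity
    simp only [conj_trivial] at h
    exact h1.ne' h
  · exact h

private theorem planeB {n : ℕ} {a : Fin n → E} {x : E} (hx : x ∈ off a)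
    (hs : ¬ Function.Surjective (fun q' : Fin n → ℝ => F q' a x)) :
    ∃ ξ : E, ξ ≠ 0 ∧ ∀ l, inner ℝ (x - a l) ξ = 0 := by
  by_contra hcon
  push Not at hcon
  apply hs
  refine surjB (fun l => g (x - a l)) fun ξ hξ => ?_
  by_contra hne
  obtain ⟨l, hl⟩ := hcon ξ hne
  exact hl (inner_gB (sub_ne_zero.2 (hx l)) (hξ l))

theorem sard_b {n : ℕ} (a : Fin n → E) (ha : ¬ Collinear ℝ (Set.range a)) :
    ∀ᵐ q : Fin n → ℝ, ∀ x ∈ off a, ¬ Function.Surjective (fun q' : Fin n → ℝ => F q' a x) →
      F q a x = 0 → Function.Injective (DF q a x) := by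
  classical
  by_cases hex : ∃ x ∈ off a, ¬ Function.Surjective (fun q' : Fin n → ℝ => F q' a x)
  swap
  · refine Filter.Eventually.of_forall fun q x hx hs _ => ?_
    exact absurd ⟨x, hx, hs⟩ hex
  obtain ⟨x1, hx1, hs1⟩ := hex
  obtain ⟨ν, hν0, hν⟩ := planeB hx1 hs1
  obtain ⟨l0⟩ : Nonempty (Fin n) := by
    by_contra hne
    rw [not_nonempty_iff] at hne
    apply ha
    rw [Set.range_eq_empty a]
    exact collinear_empty ℝ E
  have hνa : ∀ l, inner ℝ (a l - a l0) ν = 0 := by
    intro l
    have h1 : a l - a l0 = (x1 - a l0) - (x1 - a l) := by abel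
    rw [h1, inner_sub_left, hν, hν, sub_zero]
  -- every such point is in the plane
  have hplane : ∀ x ∈ off a, ¬ Function.Surjective (fun q' : Fin n → ℝ => F q' a x) →
      ∀ l, inner ℝ (x - a l) ν = 0 := by
    intro x hx hs
    obtain ⟨ξ, hξ0, hξ⟩ := planeB hx hs
    have hξa : ∀ l, inner ℝ (a l - a l0) ξ = 0 := by
      intro l
      have h1 : a l - a l0 = (x - a l0) - (x - a l) := by abel
      rw [h1, inner_sub_left, hξ, hξ, sub_zero]
    by_cases hc : ∃ c : ℝ, ξ = c • ν
    · obtain ⟨c, rfl⟩ := hc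
      have hc0 : c ≠ 0 := by
        rintro rfl
        exact hξ0 (zero_smul ℝ ν)
      intro l
      have h1 := hξ l
      rw [inner_smul_right] at h1
      exact (mul_eq_zero.1 h1).resolve_left hc0
    · exact absurd (collB hν0 (fun c hc' => hc ⟨c, hc'⟩) hνa hξa) ha
  have hνν : inner ℝ ν ν ≠ 0 := inner_self_ne_zero.2 hν0
  -- (b1)
  let π : E →L[ℝ] E := ContinuousLinearMap.id ℝ E -
    ((inner ℝ ν ν)⁻¹ • innerSL ℝ ν).smulRight ν
  have hπ : ∀ x, π x = x - ((inner ℝ ν ν)⁻¹ * inner ℝ ν x) • ν := by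
    intro x
    simp [π]
  have hππ : ∀ x, inner ℝ (π x) ν = 0 := by
    intro x
    rw [hπ, inner_sub_left, inner_smul_left, real_inner_comm ν x]
    simp only [conj_trivial]
    field_simp
    ring
  have hπν : π ν = 0 := by
    rw [hπ, inv_mul_cancel₀ hνν, one_smul, sub_self]
  have hπfix : ∀ x, inner ℝ x ν = 0 → π x = x := by
    intro x hx
    have hx' : inner ℝ ν x = 0 := by rw [real_inner_comm]; exact hx
    rw [hπ, hx', mul_zero, zero_smul, sub_zero]
  have hua : ∀ y l, inner ℝ y ν = 0 → inner ℝ (a l0 + y - a l) ν = 0 := by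
    intro y l hy
    have h1 : a l0 + y - a l = y - (a l - a l0) := by abel
    rw [h1, inner_sub_left, hy, hνa, sub_zero]
  have hb1 : ∀ᵐ q : Fin n → ℝ, ∀ x ∈ off a, inner ℝ (x - a l0) ν = 0 → F q a x = 0 →
      ∑ l, q l * (‖x - a l‖ ^ 3)⁻¹ ≠ 0 := by
    let f : Fin n → E → E := fun l y =>
      g (a l0 + π y - a l) + (‖a l0 + π y - a l‖ ^ 3)⁻¹ • ν
    have hdiff : ∀ y ∈ {y : E | a l0 + π y ∈ off a}, ∀ l, DifferentiableAt ℝ (f l) y := by
      intro y hy l
      have hne : a l0 + π y - a l ≠ 0 := sub_ne_zero.2 (hy l)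
      have h0 : DifferentiableAt ℝ (fun y => a l0 + π y - a l) y :=
        (π.differentiableAt.const_add (a l0)).sub_const (a l)
      have h1 : DifferentiableAt ℝ (fun y => g (a l0 + π y - a l)) y :=
        DifferentiableAt.comp (g := g) y (SM992.hasStrictFDerivAt_g hne).hasFDerivAt.differentiableAt
          h0
      have h2 : DifferentiableAt ℝ (fun y => ‖a l0 + π y - a l‖) y := h0.norm ℝ hne
      have h3 : DifferentiableAt ℝ (fun y => (‖a l0 + π y - a l‖ ^ 3)⁻¹) y :=
        (h2.pow 3).inv (pow_ne_zero 3 (norm_ne_zero_iff.2 hne))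
      exact h1.add (h3.smul_const ν)
    have hfν : ∀ y ∈ {y : E | a l0 + π y ∈ off a}, ∀ l, fderiv ℝ (f l) y ν = 0 := by
      intro y hy l
      have h1 : HasFDerivAt (f l) (fderiv ℝ (f l) (y + (0 : ℝ) • ν)) (y + (0 : ℝ) • ν) := by
        rw [zero_smul, add_zero]
        exact (hdiff y hy l).hasFDerivAt
      have h2 : HasDerivAt (fun t : ℝ => y + t • ν) ν 0 := by
        have := ((hasDerivAt_id (0 : ℝ)).smul_const ν).const_add y
        simpa using this
      have h3 : HasDerivAt (fun t : ℝ => f l (y + t • ν)) (fderiv ℝ (f l) (y + (0 : ℝ) • ν) ν) 0 :=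
        HasFDerivAt.comp_hasDerivAt (f := fun t : ℝ => y + t • ν) (l := f l) (0 : ℝ) h1 h2
      have h4 : (fun t : ℝ => f l (y + t • ν)) = fun _ => f l y := by
        funext t
        simp only [f]
        rw [map_add, map_smul, hπν, smul_zero, add_zero]
      rw [h4, zero_smul, add_zero] at h3
      exact (h3.unique (hasDerivAt_const (0 : ℝ) (f l y)))
    have hmain := lin_sard (K := E) (fun y => lcB fun l => f l y)
      (fun y => ∑ l, (ContinuousLinearMap.smulRightL ℝ (Fin n → ℝ) E
        (ContinuousLinearMap.proj l)).comp (fderiv ℝ (f l) y))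
      {y : E | a l0 + π y ∈ off a}
      (fun y hy => lcB_deriv fun l => (hdiff y hy l).hasFDerivAt) (by
        intro y hy
        have h1 := surjB (fun l => f l y) (fun ξ hξ => by
          have hne : ∀ l, a l0 + π y - a l ≠ 0 := fun l => sub_ne_zero.2 (hy l)
          have h2 : ∀ l, inner ℝ (a l0 + π y - a l) ξ + inner ℝ ν ξ = 0 := by
            intro l
            have h3 := hξ l
            simp only [f, g] at h3
            rw [← smul_add, inner_smul_left, inner_add_left] at h3
            have h0 : 0 < ‖a l0 + π y - a l‖ := norm_pos_iff.2 (hne l)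
            have h4 : (0 : ℝ) < (‖a l0 + π y - a l‖ ^ 3)⁻¹ := by positivity
            simp only [conj_trivial] at h3
            exact (mul_eq_zero.1 h3).resolve_left h4.ne'
          have h3 : ∀ l, inner ℝ (a l - a l0) ξ = 0 := by
            intro l
            have h4 : a l - a l0 = (a l0 + π y - a l0) - (a l0 + π y - a l) := by abel
            have h5 := h2 l
            have h6 := h2 l0
            rw [h4, inner_sub_left]
            linarith
          by_cases hc : ∃ c : ℝ, ξ = c • ν
          · obtain ⟨c, rfl⟩ := hc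
            have h4 := h2 l0
            rw [inner_smul_right, inner_smul_right, hua _ _ (hππ y), mul_zero, zero_add] at h4
            rw [(mul_eq_zero.1 h4).resolve_right hνν, zero_smul]
          · exact absurd (collB hν0 (fun c hc' => hc ⟨c, hc'⟩) hνa h3) ha)
        intro z
        obtain ⟨q, hq⟩ := h1 z
        exact ⟨q, by rw [lcB_apply]; exact hq⟩)
    filter_upwards [hmain] with q hq x hx hxν hF hsum
    have hπx : a l0 + π (x - a l0) = x := by
      rw [hπfix _ hxν]
      abel
    refine hν0 (hq (x - a l0) ?_ ?_ ν ?_)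
    · change a l0 + π (x - a l0) ∈ off a
      rw [hπx]
      exact hx
    · rw [lcB_apply]
      simp only [f]
      rw [hπx]
      simp only [smul_add]
      rw [Finset.sum_add_distrib]
      have h1 : ∑ l, q l • g (x - a l) = 0 := hF
      rw [h1, zero_add]
      simp only [smul_smul]
      rw [← Finset.sum_smul, hsum, zero_smul]
    · rw [lcB_deriv_apply]
      refine Finset.sum_eq_zero fun l _ => ?_
      rw [hfν (x - a l0) (by
        change a l0 + π (x - a l0) ∈ off a
        rw [hπx]
        exact hx) l, smul_zero]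
  -- (b2)
  have hb2 : ∀ᵐ q : Fin n → ℝ, ∀ x ∈ off a, inner ℝ (x - a l0) ν = 0 → F q a x = 0 →
      ∀ w : E, inner ℝ w ν = 0 → DF q a x w = 0 → w = 0 := by
    let V : Submodule ℝ E := (Submodule.span ℝ {ν})ᗮ
    have hV : ∀ w : E, w ∈ V ↔ inner ℝ w ν = 0 := by
      intro w
      simp only [V]
      rw [Submodule.mem_orthogonal_singleton_iff_inner_right, real_inner_comm]
    let ρ : E →L[ℝ] V := π.codRestrict V fun x => (hV _).2 (hππ x)
    have hρ : ∀ x, ((ρ x : V) : E) = π x := fun x => rfl
    let f : Fin n → V → V := fun l y => ρ (g (a l0 + (y : E) - a l))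
    have hder : ∀ y ∈ {y : V | a l0 + (y : E) ∈ off a}, ∀ l,
        HasFDerivAt (f l) ((ρ.comp (Dg (a l0 + (y : E) - a l))).comp V.subtypeL) y := by
      intro y hy l
      have hne : a l0 + (y : E) - a l ≠ 0 := sub_ne_zero.2 (hy l)
      have h0 : HasFDerivAt (fun y : V => a l0 + (y : E) - a l) V.subtypeL y :=
        ((V.subtypeL.hasFDerivAt (x := y)).const_add (a l0)).sub_const (a l)
      have h1 : HasFDerivAt (fun y : V => g (a l0 + (y : E) - a l))
          ((Dg (a l0 + (y : E) - a l)).comp V.subtypeL) y :=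
        HasFDerivAt.comp (g := g) y (SM992.hasStrictFDerivAt_g hne).hasFDerivAt h0
      exact (ρ.hasFDerivAt).comp y h1
    have hmain := lin_sard (K := V) (fun y => lcB fun l => f l y)
      (fun y => ∑ l, (ContinuousLinearMap.smulRightL ℝ (Fin n → ℝ) V
        (ContinuousLinearMap.proj l)).comp
          ((ρ.comp (Dg (a l0 + (y : E) - a l))).comp V.subtypeL))
      {y : V | a l0 + (y : E) ∈ off a}
      (fun y hy => lcB_deriv fun l => hder y hy l) (by
        intro y hy
        have h1 := surjB (fun l => f l y) (fun ξ hξ => by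
          have hne : ∀ l, a l0 + (y : E) - a l ≠ 0 := fun l => sub_ne_zero.2 (hy l)
          have hyν : inner ℝ (y : E) ν = 0 := (hV _).1 y.2
          have h2 : ∀ l, inner ℝ (a l0 + (y : E) - a l) (ξ : E) = 0 := by
            intro l
            refine inner_gB (hne l) ?_
            have h3 := hξ l
            rw [Submodule.coe_inner] at h3
            simp only [f] at h3
            rw [hρ, hπfix _ (by
              rw [g, inner_smul_left, hua _ _ hyν, mul_zero])] at h3
            exact h3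
          have h3 : ∀ l, inner ℝ (a l - a l0) (ξ : E) = 0 := by
            intro l
            have h4 : a l - a l0 = (a l0 + (y : E) - a l0) - (a l0 + (y : E) - a l) := by abel
            rw [h4, inner_sub_left, h2, h2, sub_zero]
          by_cases hc : ∃ c : ℝ, (ξ : E) = c • ν
          · obtain ⟨c, hc⟩ := hc
            have h4 : inner ℝ (ξ : E) ν = 0 := (hV _).1 ξ.2
            rw [hc, inner_smul_left] at h4
            simp only [conj_trivial] at h4
            have h5 : c = 0 := (mul_eq_zero.1 h4).resolve_right hνν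
            rw [h5, zero_smul] at hc
            exact Subtype.ext hc
          · exact absurd (collB hν0 (fun c hc' => hc ⟨c, hc'⟩) hνa h3) ha)
        intro z
        obtain ⟨q, hq⟩ := h1 z
        exact ⟨q, by rw [lcB_apply]; exact hq⟩)
    filter_upwards [hmain] with q hq x hx hxν hF w hw hDw
    have hxV : x - a l0 ∈ V := (hV _).2 hxν
    have hxe : a l0 + (x - a l0) = x := by abel
    have hmem : (⟨x - a l0, hxV⟩ : V) ∈ {y : V | a l0 + (y : E) ∈ off a} := by
      change a l0 + (x - a l0) ∈ off a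
      rw [hxe]
      exact hx
    have h1 := hq ⟨x - a l0, hxV⟩ hmem (by
      rw [lcB_apply]
      simp only [f]
      rw [hxe]
      have h2 : ∑ l, q l • ρ (g (x - a l)) = ρ (F q a x) := by
        rw [F, map_sum]
        exact Finset.sum_congr rfl fun l _ => (map_smul ρ _ _).symm
      rw [h2, hF, map_zero]) ⟨w, (hV w).2 hw⟩ (by
      rw [lcB_deriv_apply]
      have h2 : ∑ l, q l • ((ρ.comp (Dg (a l0 + (x - a l0) - a l))).comp V.subtypeL)
          (⟨w, (hV w).2 hw⟩ : V) = ρ (DF q a x w) := by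
        rw [DF, sum_apply, map_sum]
        refine Finset.sum_congr rfl fun l _ => ?_
        rw [hxe, smul_apply, map_smul]
        rfl
      refine Eq.trans h2 ?_
      rw [hDw, map_zero])
    exact congrArg Subtype.val h1
  filter_upwards [hb1, hb2] with q h1 h2 x hx hs hF
  have hxν := hplane x hx hs
  rw [injective_iff_map_eq_zero]
  intro v hv
  have hvd : v = π v + ((inner ℝ ν ν)⁻¹ * inner ℝ ν v) • ν := by
    rw [hπ]
    abel
  have hDν : DF q a x ν = (∑ l, q l * (‖x - a l‖ ^ 3)⁻¹) • ν := by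
    rw [DF, sum_apply, Finset.sum_smul]
    refine Finset.sum_congr rfl fun l _ => ?_
    rw [smul_apply, SM992.Dg_apply, hxν l, mul_zero, zero_smul, sub_zero,
      smul_smul]
  have hDw : inner ℝ (DF q a x (π v)) ν = 0 := by
    rw [DF, sum_apply, sum_inner]
    refine Finset.sum_eq_zero fun l _ => ?_
    rw [smul_apply, SM992.Dg_apply, inner_smul_left, inner_sub_left,
      inner_smul_left, inner_smul_left, hππ, hxν l, mul_zero, mul_zero, sub_zero, mul_zero]
  have hγ : (inner ℝ ν ν)⁻¹ * inner ℝ ν v = 0 := by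
    have h3 : inner ℝ (DF q a x v) ν = 0 := by rw [hv, inner_zero_left]
    rw [hvd, map_add, map_smul, inner_add_left, hDw, zero_add, hDν, inner_smul_left,
      inner_smul_left] at h3
    simp only [conj_trivial] at h3
    rcases mul_eq_zero.1 h3 with h4 | h4
    · exact h4
    · rcases mul_eq_zero.1 h4 with h5 | h5
      · exact absurd h5 (h1 x hx (hxν l0) hF)
      · exact absurd h5 hνν
  rw [hγ, zero_smul, add_zero] at hvd
  rw [hvd]
  rw [hvd] at hv
  exact h2 x hx (hxν l0) hF _ (hππ v) hv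

end ST992
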