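import Pool.Agent.Work.MP_992d6e_an.ST.Defs

/-!
MODULE ScaleM (S-M): change of variables `q_j = μ_j p_j`.

`sc μ` is the linear map with matrix `diagonal μ`; `q ∈ qbox μ σ ↔ p ∈ bx n σ` for `q = sc μ p`
(`|μ_j p_j - μ_j| ≤ σ |μ_j| ↔ |p_j - 1| ≤ σ`), `MeasureTheory.Measure.addHaar_image_linearMap` (or
`addHaar_preimage_linearMap`, `Real.map_matrix_volume_pi_eq_smul_volume_pi`) for both sets: the
factor `∏ |μ_j|` is the same. `V` is an arbitrary set (outer measure).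
-/

set_option autoImplicit false

namespace ST992

open MeasureTheory

/-- The box of the strengths `q` with `|q_j - μ_j| ≤ σ |μ_j|`. -/
def qbox {n : ℕ} (μ : Fin n → ℝ) (σ : ℝ) : Set (Fin n → ℝ) := {q | ∀ j, |q j - μ j| ≤ σ * |μ j|}

private noncomputable def lm {n : ℕ} (μ : Fin n → ℝ) : (Fin n → ℝ) →ₗ[ℝ] (Fin n → ℝ) :=
  Matrix.toLin' (Matrix.diagonal μ)

private theorem lm_apply {n : ℕ} (μ p : Fin n → ℝ) : lm μ p = sc μ p := by
  funext j
  simp [lm, sc, Matrix.mulVec_diagonal]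

private theorem mem_iff {n : ℕ} (μ : Fin n → ℝ) (hμ : ∀ j, μ j ≠ 0) (σ : ℝ) (p : Fin n → ℝ) :
    sc μ p ∈ qbox μ σ ↔ p ∈ bx n σ := by
  unfold qbox bx sc
  simp only [Set.mem_ofPred_eq, Set.mem_univ_pi, Set.mem_Icc]
  refine forall_congr' fun j => ?_
  have h1 : μ j * p j - μ j = μ j * (p j - 1) := by ring
  have h2 : 0 < |μ j| := abs_pos.2 (hμ j)
  rw [h1, abs_mul, mul_comm |μ j|, mul_le_mul_iff_left₀ h2, abs_le]
  constructor
  · rintro ⟨h3, h4⟩
    constructor <;> linarith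
  · rintro ⟨h3, h4⟩
    constructor <;> linarith

private theorem img {n : ℕ} (μ : Fin n → ℝ) (hμ : ∀ j, μ j ≠ 0) (σ : ℝ) (V : Set (Fin n → ℝ)) :
    qbox μ σ ∩ V = lm μ '' (bx n σ ∩ {p | sc μ p ∈ V}) := by
  ext q
  constructor
  · rintro ⟨h1, h2⟩
    have h3 : sc μ (fun j => q j / μ j) = q := by
      funext j
      exact mul_div_cancel₀ (q j) (hμ j)
    refine ⟨fun j => q j / μ j, ⟨?_, ?_⟩, ?_⟩
    · rw [← mem_iff μ hμ, h3]
      exact h1
    · rw [Set.mem_ofPred_eq, h3]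
      exact h2
    · rw [lm_apply, h3]
  · rintro ⟨p, ⟨h1, h2⟩, rfl⟩
    rw [lm_apply]
    exact ⟨(mem_iff μ hμ σ p).2 h1, h2⟩

theorem scale {n : ℕ} (μ : Fin n → ℝ) (hμ : ∀ j, μ j ≠ 0) (σ : ℝ) (V : Set (Fin n → ℝ))
    (T K : ENNReal)
    (h : T * volume (bx n σ ∩ {p | sc μ p ∈ V}) ≤ K * volume (bx n σ)) :
    T * volume (qbox μ σ ∩ V) ≤ K * volume (qbox μ σ) := by
  have h1 := img μ hμ σ V
  have h2 := img μ hμ σ Set.univ
  rw [Set.inter_univ] at h2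
  have h3 : bx n σ ∩ {p | sc μ p ∈ (Set.univ : Set (Fin n → ℝ))} = bx n σ := by
    simp
  rw [h3] at h2
  rw [h1, h2, Measure.addHaar_image_linearMap, Measure.addHaar_image_linearMap]
  calc T * (ENNReal.ofReal |LinearMap.det (lm μ)| * volume (bx n σ ∩ {p | sc μ p ∈ V}))
      = ENNReal.ofReal |LinearMap.det (lm μ)| *
        (T * volume (bx n σ ∩ {p | sc μ p ∈ V})) := by
        rw [← mul_assoc, ← mul_assoc, mul_comm T]
    _ ≤ ENNReal.ofReal |LinearMap.det (lm μ)| * (K * volume (bx n σ)) := mul_le_mul_right h _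
    _ = K * (ENNReal.ofReal |LinearMap.det (lm μ)| * volume (bx n σ)) := by
        rw [← mul_assoc, ← mul_assoc, mul_comm K]

end ST992
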