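import Pool.Agent.Work.MP_992d6e_an.ST.Asm
import Pool.Agent.Work.MP_992d6e_an.ST.Link
import Pool.Agent.Work.MP_992d6e_an.ST.SardA
import Pool.Agent.Work.MP_992d6e_an.ST.SardB
import Pool.Agent.Work.MP_992d6e_an.ST.ScaleM

/-!
Assembly (helper64): the mean over a box of strengths, in terms of the frozen definitions.
-/

set_option autoImplicit false

namespace ST992

open MeasureTheory N62f3cee0
open SM992 (E F DF g Dg IsEq)

variable {n : ℕ}

private noncomputable def lm (μ : Fin n → ℝ) : (Fin n → ℝ) →ₗ[ℝ] (Fin n → ℝ) :=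
  Matrix.toLin' (Matrix.diagonal μ)

private theorem lm_apply (μ p : Fin n → ℝ) : lm μ p = sc μ p := by
  funext j
  simp [lm, sc, Matrix.mulVec_diagonal]

private theorem lm_det (μ : Fin n → ℝ) : LinearMap.det (lm μ) = ∏ j, μ j := by
  rw [lm, LinearMap.det_toLin', Matrix.det_diagonal]

private theorem mem_iff (μ : Fin n → ℝ) (hμ : ∀ j, μ j ≠ 0) (σ : ℝ) (p : Fin n → ℝ) :
    sc μ p ∈ qbox μ σ ↔ p ∈ bx n σ := by
  unfold qbox bx sc
  simp only [Set.mem_ofPred_eq, Set.mem_univ_pi, Set.mem_Icc]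
  refine forall_congr' fun j => ?_
  have h1 : μ j * p j - μ j = μ j * (p j - 1) := by ring
  have h2 : 0 < |μ j| := abs_pos.2 (hμ j)
  rw [h1, abs_mul, mul_comm |μ j|, mul_le_mul_iff_left₀ h2, abs_le]
  constructor
  · rintro ⟨h3, h4⟩
    constructor <;> linarith
  · rintro ⟨h3, h4⟩
    constructor <;> linarith

private theorem qbox_image (μ : Fin n → ℝ) (hμ : ∀ j, μ j ≠ 0) (σ : ℝ) :
    qbox μ σ = lm μ '' bx n σ := by
  ext q
  constructor
  · intro h1
    have h3 : sc μ (fun j => q j / μ j) = q := by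
      funext j
      exact mul_div_cancel₀ (q j) (hμ j)
    refine ⟨fun j => q j / μ j, ?_, ?_⟩
    · rw [← mem_iff μ hμ, h3]
      exact h1
    · rw [lm_apply, h3]
  · rintro ⟨p, h1, rfl⟩
    rw [lm_apply]
    exact (mem_iff μ hμ σ p).2 h1

private theorem lint_qbox (μ : Fin n → ℝ) (hμ : ∀ j, μ j ≠ 0) (σ : ℝ)
    (G : (Fin n → ℝ) → ENNReal) :
    ∫⁻ q in qbox μ σ, G q =
      ENNReal.ofReal |∏ j, μ j| * ∫⁻ p in bx n σ, G (sc μ p) := by
  have hb : MeasurableSet (bx n σ) := MeasurableSet.univ_pi fun _ => measurableSet_Icc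
  have hinj : Set.InjOn (lm μ) (bx n σ) := by
    intro p _ p' _ h
    rw [lm_apply, lm_apply] at h
    funext j
    exact mul_left_cancel₀ (hμ j) (congrFun h j)
  have hd : ∀ x ∈ bx n σ, HasFDerivWithinAt (fun p => lm μ p)
      (LinearMap.toContinuousLinearMap (lm μ)) (bx n σ) x := fun x _ =>
    (LinearMap.toContinuousLinearMap (lm μ)).hasFDerivAt.hasFDerivWithinAt
  have h1 := lintegral_image_eq_lintegral_abs_det_fderiv_mul volume hb hd hinj G
  rw [← qbox_image μ hμ σ] at h1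
  rw [h1]
  have hdet : (LinearMap.toContinuousLinearMap (lm μ)).det = ∏ j, μ j := by
    rw [ContinuousLinearMap.det, LinearMap.coe_toContinuousLinearMap, lm_det]
  simp only [hdet, lm_apply]
  rw [lintegral_const_mul' _ _ ENNReal.ofReal_ne_top]

private theorem vol_qbox (μ : Fin n → ℝ) (hμ : ∀ j, μ j ≠ 0) (σ : ℝ) :
    volume (qbox μ σ) = ENNReal.ofReal |∏ j, μ j| * volume (bx n σ) := by
  have h1 := lint_qbox μ hμ σ (fun _ => 1)
  simpa using h1

/-- The nondegenerate equilibria (frozen definitions) are those of `Nd`. -/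
private theorem nd_eq (q : Fin n → ℝ) (a : Fin n → E) :
    {x | x ∈ equilibria q a ∧ HasNondegenerateHessianAt (potential q a) x} = Nd q a := by
  ext x
  constructor
  · rintro ⟨h1, h2⟩
    have h3 := (SM992.mem_equilibria_iff q a x).1 h1
    exact ⟨h3, (nondeg_iff q a x h3.1).1 h2⟩
  · rintro ⟨h1, h2⟩
    exact ⟨(SM992.mem_equilibria_iff q a x).2 h1, (nondeg_iff q a x h1.1).2 h2⟩

theorem mean_qbox (hn : 1 ≤ n) (a : Fin n → E) :
    ∃ G : (Fin n → ℝ) → ENNReal, Measurable G ∧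
      (∀ q, (({x | x ∈ equilibria q a ∧
        HasNondegenerateHessianAt (potential q a) x}.encard : ℕ∞) : ENNReal) ≤ G q) ∧
      ∀ μ : Fin n → ℝ, (∀ j, μ j ≠ 0) → ∀ σ : ℝ, 0 < σ → σ ≤ 1 →
        ∫⁻ q in qbox μ σ, G q ≤
          ENNReal.ofReal (6912 * n ^ 12 / σ ^ 3) * volume (qbox μ σ) := by
  obtain ⟨G, hG1, hG2, hG3⟩ := majorant hn a
  refine ⟨G, hG1, fun q => ?_, fun μ hμ σ hσ hσ1 => ?_⟩
  · rw [nd_eq]
    exact hG2 q
  · rw [lint_qbox μ hμ, vol_qbox μ hμ]
    calc ENNReal.ofReal |∏ j, μ j| * ∫⁻ p in bx n σ, G (sc μ p)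
        ≤ ENNReal.ofReal |∏ j, μ j| *
          (ENNReal.ofReal (6912 * n ^ 12 / σ ^ 3) * volume (bx n σ)) := by
          gcongr
          exact hG3 μ σ hσ hσ1
      _ = _ := by ring

theorem ae_nondeg (a : Fin n → E) (ha : ¬ Collinear ℝ (Set.range a)) :
    ∀ᵐ q : Fin n → ℝ, ∀ x ∈ equilibria q a, HasNondegenerateHessianAt (potential q a) x := by
  filter_upwards [sard_a a, sard_b a ha] with q h1 h2 x hx
  have h3 := (SM992.mem_equilibria_iff q a x).1 hx
  rw [nondeg_iff q a x h3.1]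
  by_cases h : Function.Surjective (fun q' : Fin n → ℝ => F q' a x)
  · exact h1 x h3.1 h h3.2
  · exact h2 x h3.1 h h3.2

theorem vol_qbox_eq (μ : Fin n → ℝ) (hμ : ∀ j, μ j ≠ 0) (σ : ℝ) (hσ : 0 < σ) :
    volume (qbox μ σ) = ENNReal.ofReal (∏ j, (2 * σ * |μ j|)) := by
  rw [vol_qbox μ hμ, bx, volume_pi_pi]
  simp only [Real.volume_Icc]
  rw [Finset.prod_const, Finset.card_univ, Fintype.card_fin]
  have h1 : 1 + σ - (1 - σ) = 2 * σ := by ring
  rw [h1, ← ENNReal.ofReal_pow (by positivity), ← ENNReal.ofReal_mul (abs_nonneg _),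
    Finset.abs_prod, Finset.prod_mul_distrib, Finset.prod_const, Finset.card_univ,
    Fintype.card_fin]
  congr 1
  ring

end ST992
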