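import Pool.Agent.Work.MP_992d6e_an.ST.Defs

/-!
MODULE InjP (S-M): countable partition into pieces of injectivity.

Each `x ∈ U` has an open neighbourhood on which `f` is injective
(`HasStrictFDerivAt` with invertible derivative; an injective linear map of the finite-dimensional
space `E` is a continuous linear equivalence), `TopologicalSpace.countable_cover_nhds` or
`isOpen_iUnion_countable` / Lindelof gives countably many of them covering `U`; intersect with `U`
and use `disjointed`.
-/

set_option autoImplicit false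

namespace ST992

open MeasureTheory
open SM992 (E F DF g Dg IsEq)

private theorem loc_inj (f : E → E) (f' : E →L[ℝ] E) (x : E)
    (hf : HasStrictFDerivAt f f' x) (hinj : Function.Injective f') :
    ∃ V : Set E, IsOpen V ∧ x ∈ V ∧ Set.InjOn f V := by
  have hi : Function.Injective (f' : E →ₗ[ℝ] E) := hinj
  let e : E ≃L[ℝ] E := (LinearEquiv.ofInjectiveEndo (f' : E →ₗ[ℝ] E) hi).toContinuousLinearEquiv
  have he : (e : E →L[ℝ] E) = f' := by
    ext1 v
    rfl
  have h : HasStrictFDerivAt f (e : E →L[ℝ] E) x := by rw [he]; exact hf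
  exact ⟨(h.toOpenPartialHomeomorph f).source, (h.toOpenPartialHomeomorph f).open_source,
    h.mem_toOpenPartialHomeomorph_source, (h.toOpenPartialHomeomorph f).injOn⟩

theorem exists_partition (f : E → E) (f' : E → E →L[ℝ] E) (U : Set E) (hU : MeasurableSet U)
    (hf : ∀ x ∈ U, HasStrictFDerivAt f (f' x) x) (hinj : ∀ x ∈ U, Function.Injective (f' x)) :
    ∃ D : ℕ → Set E, (∀ i, MeasurableSet (D i)) ∧ Pairwise (Function.onFun Disjoint D) ∧
      (⋃ i, D i) = U ∧ ∀ i, Set.InjOn f (D i) := by
  classical
  have h1 : ∀ x : E, ∃ V : Set E, x ∈ U → IsOpen V ∧ x ∈ V ∧ Set.InjOn f V := by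
    intro x
    by_cases hx : x ∈ U
    · obtain ⟨V, hV⟩ := loc_inj f (f' x) x (hf x hx) (hinj x hx)
      exact ⟨V, fun _ => hV⟩
    · exact ⟨∅, fun h => absurd h hx⟩
  choose V hV using h1
  obtain ⟨t, htU, htc, hcov⟩ := TopologicalSpace.countable_cover_nhdsWithin (f := V) (s := U)
    (fun x hx => mem_nhdsWithin_of_mem_nhds ((hV x hx).1.mem_nhds (hV x hx).2.1))
  rcases t.eq_empty_or_nonempty with ht | ht
  · refine ⟨fun _ => ∅, fun _ => MeasurableSet.empty, fun i j _ => by
      simp [Function.onFun], ?_, fun _ => by simp⟩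
    rw [ht] at hcov
    have h2 : U = ∅ := by
      apply Set.eq_empty_of_subset_empty
      simpa using hcov
    rw [h2]
    simp
  · obtain ⟨u, hu⟩ := htc.exists_eq_range ht
    have hmem : ∀ i, u i ∈ U := fun i => htU (by rw [hu]; exact ⟨i, rfl⟩)
    let W : ℕ → Set E := fun i => V (u i) ∩ U
    have hW : ∀ i, MeasurableSet (W i) := fun i => (hV (u i) (hmem i)).1.measurableSet.inter hU
    refine ⟨disjointed W, fun i => MeasurableSet.disjointed hW i, disjoint_disjointed W, ?_, ?_⟩
    · rw [iUnion_disjointed]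
      apply Set.Subset.antisymm
      · exact Set.iUnion_subset fun i => Set.inter_subset_right
      · intro x hx
        obtain ⟨y, hy⟩ := Set.mem_iUnion.1 (hcov hx)
        obtain ⟨hyt, hxy⟩ := Set.mem_iUnion.1 hy
        rw [hu] at hyt
        obtain ⟨i, rfl⟩ := hyt
        exact Set.mem_iUnion.2 ⟨i, hxy, hx⟩
    · intro i
      exact ((hV (u i) (hmem i)).2.2).mono
        (((disjointed_subset W i)).trans Set.inter_subset_left)

end ST992
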