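import Pool.Agent.Work.MP_992d6e_an.ST.Sheets
import Pool.Agent.Work.MP_992d6e_an.ST.InjP

/-!
MODULE Area (M): the area inequality, summed over the sign patterns.

For each `s` let `U_s` be the set of the `x ∈ off a` with `|F (flip s q) a x| < η` and
`det (DF (flip s q) a x) ≠ 0` (equivalently `DF` injective); it is measurable (`F`, `DF` are measurable
in `x`, `ContinuousLinearMap.continuous_det`), and the integrand of `GG` vanishes off `U_s`. Take the partition
`D_{s,i}` of `exists_partition` for `U_s` (`SM992.hasStrictFDerivAt_F` in SM/Der). Then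
`GG η (flip s q) a = Σ_i vol (F_s '' D_{s,i})` (`lintegral_abs_det_fderiv_eq_addHaar_image`,
`lintegral_iUnion`), the images are measurable (`measurable_image_of_fderivWithin`) and contained
in the ball, so `Σ_s GG = ∫⁻ e in ball, Σ_s Σ_i 1(e ∈ F_s '' D_{s,i})`, and for each `e` the sum is at most
`2^n (3n)^3` by `sheets` (a finite set of pairs `(s, i)` with `e ∈ F_s '' D_{s,i}` gives as many
points `(s, x)` because the `D_{s,i}` are disjoint for fixed `s`; `ENNReal.tsum_eq_iSup_sum`).
-/

set_option autoImplicit false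

namespace ST992

open MeasureTheory
open SM992 (E F DF g Dg IsEq)

private theorem isOpen_off {n : ℕ} (a : Fin n → E) : IsOpen (off a) := by
  have h : off a = ⋂ l, {a l}ᶜ := by
    ext x
    simp [off]
  rw [h]
  exact isOpen_iInter_of_finite (fun l => isOpen_compl_singleton)

private theorem continuousAt_Dg {u : E} (hu : u ≠ 0) : ContinuousAt Dg u := by
  have h0 : ‖u‖ ≠ 0 := norm_ne_zero_iff.2 hu
  have h1 : ContinuousAt (fun v : E => (‖v‖ ^ 3)⁻¹) u :=
    (continuous_norm.pow 3).continuousAt.inv₀ (pow_ne_zero 3 h0)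
  have h2 : ContinuousAt (fun v : E => 3 * (‖v‖ ^ 5)⁻¹) u :=
    continuousAt_const.mul ((continuous_norm.pow 5).continuousAt.inv₀ (pow_ne_zero 5 h0))
  have h3 : Continuous (fun v : E => ((innerSL ℝ v).smulRight v : E →L[ℝ] E)) := by
    exact ((ContinuousLinearMap.smulRightL ℝ E E).continuous.comp
      (innerSL ℝ).continuous).clm_apply continuous_id
  exact (h1.smul continuousAt_const).sub (h2.smul h3.continuousAt)

private theorem continuousAt_DF {n : ℕ} (q : Fin n → ℝ) (a : Fin n → E) {x : E} (hx : x ∈ off a) :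
    ContinuousAt (DF q a) x := by
  have h : ∀ l, ContinuousAt (fun y : E => q l • Dg (y - a l)) x := by
    intro l
    have h1 : ContinuousAt (fun y : E => Dg (y - a l)) x :=
      ContinuousAt.comp (g := Dg) (f := fun y : E => y - a l)
        (continuousAt_Dg (sub_ne_zero.2 (hx l)))
        (continuousAt_id.sub continuousAt_const)
    exact h1.const_smul (q l)
  exact tendsto_finsetSum Finset.univ (fun l _ => h l)

private theorem continuousAt_F {n : ℕ} (q : Fin n → ℝ) (a : Fin n → E) {x : E} (hx : x ∈ off a) :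
    ContinuousAt (F q a) x :=
  (SM992.hasStrictFDerivAt_F q a hx).hasFDerivAt.continuousAt

/-- the good set -/
private def UU {n : ℕ} (η : ℝ) (q : Fin n → ℝ) (a : Fin n → E) : Set E :=
  off a ∩ (fun x => (F q a x, (DF q a x).det)) ⁻¹' (Metric.ball (0 : E) η ×ˢ {0}ᶜ)

private theorem isOpen_UU {n : ℕ} (η : ℝ) (q : Fin n → ℝ) (a : Fin n → E) : IsOpen (UU η q a) := by
  refine ContinuousOn.isOpen_inter_preimage ?_ (isOpen_off a)
    (Metric.isOpen_ball.prod isOpen_compl_singleton)
  intro x hx
  apply ContinuousAt.continuousWithinAt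
  refine (continuousAt_F q a hx).prodMk ?_
  exact ContinuousAt.comp (g := fun A : E →L[ℝ] E => A.det)
    (ContinuousLinearMap.continuous_det.continuousAt) (continuousAt_DF q a hx)

private theorem GG_eq {n : ℕ} (η : ℝ) (q : Fin n → ℝ) (a : Fin n → E) :
    GG η q a = ∫⁻ x in UU η q a, ENNReal.ofReal |(DF q a x).det| := by
  unfold GG
  rw [← lintegral_indicator (isOpen_off a).measurableSet,
    ← lintegral_indicator (isOpen_UU η q a).measurableSet]
  congr 1
  funext x
  by_cases hx : x ∈ off a
  · by_cases hF : F q a x ∈ Metric.ball (0 : E) η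
    · by_cases hd : (DF q a x).det = 0
      · have h1 : x ∉ UU η q a := fun h => h.2.2 hd
        rw [Set.indicator_of_notMem h1, Set.indicator_of_mem hx, hh, hd]
        simp
      · have h1 : x ∈ UU η q a := ⟨hx, hF, hd⟩
        rw [Set.indicator_of_mem h1, Set.indicator_of_mem hx, hh, Set.indicator_of_mem hF]
        simp
    · have h1 : x ∉ UU η q a := fun h => hF h.2.1
      rw [Set.indicator_of_notMem h1, Set.indicator_of_mem hx, hh, Set.indicator_of_notMem hF]
      simp
  · have h1 : x ∉ UU η q a := fun h => hx h.1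
    rw [Set.indicator_of_notMem h1, Set.indicator_of_notMem hx]

private theorem inj_of_det {A : E →L[ℝ] E} (h : A.det ≠ 0) : Function.Injective A := by
  have h1 : LinearMap.det (A : E →ₗ[ℝ] E) ≠ 0 := h
  have h4 : LinearMap.ker (A : E →ₗ[ℝ] E) = ⊥ := by
    by_contra hne
    exact h1 (LinearMap.det_eq_zero_iff_ker_ne_bot.2 hne)
  exact LinearMap.ker_eq_bot.1 h4

theorem sum_GG_le {n : ℕ} (hn : 1 ≤ n) (q : Fin n → ℝ) (a : Fin n → E) (η : ℝ) :
    ∑ s : Finset (Fin n), GG η (flip s q) a ≤
      ((2 ^ n * (3 * n) ^ 3 : ℕ) : ENNReal) * volume (Metric.ball (0 : E) η) := by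
  classical
  have hstr : ∀ s : Finset (Fin n), ∀ x ∈ UU η (flip s q) a,
      HasStrictFDerivAt (F (flip s q) a) (DF (flip s q) a x) x :=
    fun s x hx => SM992.hasStrictFDerivAt_F _ _ hx.1
  have hinj : ∀ s : Finset (Fin n), ∀ x ∈ UU η (flip s q) a,
      Function.Injective (DF (flip s q) a x) := fun s x hx => inj_of_det hx.2.2
  choose D hDm hDd hDU hDi using fun s : Finset (Fin n) =>
    exists_partition (F (flip s q) a) (DF (flip s q) a) (UU η (flip s q) a)
      (isOpen_UU η (flip s q) a).measurableSet (hstr s) (hinj s)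
  have hDsub : ∀ s i, D s i ⊆ UU η (flip s q) a := fun s i => by
    rw [← hDU s]; exact Set.subset_iUnion (D s) i
  have hwithin : ∀ s i, ∀ x ∈ D s i,
      HasFDerivWithinAt (F (flip s q) a) (DF (flip s q) a x) (D s i) x :=
    fun s i x hx => ((hstr s x (hDsub s i hx)).hasFDerivAt).hasFDerivWithinAt
  have hmeas : ∀ s i, MeasurableSet (F (flip s q) a '' D s i) := fun s i =>
    measurable_image_of_fderivWithin (hDm s i) (hwithin s i) (hDi s i)
  have hGG : ∀ s : Finset (Fin n), GG η (flip s q) a =
      ∫⁻ e, ∑' i, (F (flip s q) a '' D s i).indicator 1 e := by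
    intro s
    rw [GG_eq, ← hDU s, lintegral_iUnion (hDm s) (hDd s), lintegral_tsum]
    · refine tsum_congr (fun i => ?_)
      rw [lintegral_abs_det_fderiv_eq_addHaar_image volume (hDm s i) (hwithin s i) (hDi s i),
        lintegral_indicator_one (hmeas s i)]
    · intro i
      exact (measurable_one.indicator (hmeas s i)).aemeasurable
  have hsum : ∑ s : Finset (Fin n), GG η (flip s q) a =
      ∫⁻ e, ∑ s : Finset (Fin n), ∑' i, (F (flip s q) a '' D s i).indicator 1 e := by
    rw [lintegral_finsetSum]
    · exact Finset.sum_congr rfl (fun s _ => hGG s)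
    · intro s _
      exact Measurable.tsum (fun i => measurable_one.indicator (hmeas s i))
  rw [hsum]
  have hpt : ∀ e : E, ∑ s : Finset (Fin n), ∑' i, (F (flip s q) a '' D s i).indicator 1 e ≤
      (Metric.ball (0 : E) η).indicator
        (fun _ => ((2 ^ n * (3 * n) ^ 3 : ℕ) : ENNReal)) e := by
    intro e
    by_cases he : e ∈ Metric.ball (0 : E) η
    · rw [Set.indicator_of_mem he]
      have h1 : ∑ s : Finset (Fin n), ∑' i, (F (flip s q) a '' D s i).indicator (1 : E → ENNReal) e =
          ∑' p : Finset (Fin n) × ℕ,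
            (F (flip p.1 q) a '' D p.1 p.2).indicator (1 : E → ENNReal) e := by
        rw [ENNReal.tsum_prod', tsum_fintype]
      rw [h1, ENNReal.tsum_eq_iSup_sum]
      refine iSup_le (fun T => ?_)
      have h2 : ∑ p ∈ T, (F (flip p.1 q) a '' D p.1 p.2).indicator (1 : E → ENNReal) e =
          ((T.filter (fun p => e ∈ F (flip p.1 q) a '' D p.1 p.2)).card : ENNReal) := by
        rw [Finset.card_filter]
        push_cast
        refine Finset.sum_congr rfl (fun p _ => ?_)
        rw [Set.indicator_apply]
        simp only [Pi.one_apply]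
      rw [h2]
      have h3 : ∀ p : Finset (Fin n) × ℕ, ∃ x : E,
          e ∈ F (flip p.1 q) a '' D p.1 p.2 → x ∈ D p.1 p.2 ∧ F (flip p.1 q) a x = e := by
        intro p
        by_cases hp : e ∈ F (flip p.1 q) a '' D p.1 p.2
        · obtain ⟨x, hx, hxe⟩ := hp
          exact ⟨x, fun _ => ⟨hx, hxe⟩⟩
        · exact ⟨0, fun h => absurd h hp⟩
      choose xx hxx using h3
      have h4 : ((T.filter (fun p => e ∈ F (flip p.1 q) a '' D p.1 p.2)).image
          (fun p => (p.1, xx p))).card =
          (T.filter (fun p => e ∈ F (flip p.1 q) a '' D p.1 p.2)).card := by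
        apply Finset.card_image_of_injOn
        intro p hp p' hp' hpp
        have hp1 := (Finset.mem_filter.1 (Finset.mem_coe.1 hp)).2
        have hp1' := (Finset.mem_filter.1 (Finset.mem_coe.1 hp')).2
        have e1 : p.1 = p'.1 := (Prod.mk.inj hpp).1
        have e2 : xx p = xx p' := (Prod.mk.inj hpp).2
        have m1 := (hxx p hp1).1
        have m2 := (hxx p' hp1').1
        rw [← e2, ← e1] at m2
        have e3 : p.2 = p'.2 := by
          by_contra hne
          exact (Set.disjoint_left.1 (hDd p.1 hne)) m1 m2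
        exact Prod.ext e1 e3
      rw [← h4]
      have h5 := sheets hn q a e ((T.filter (fun p => e ∈ F (flip p.1 q) a '' D p.1 p.2)).image
          (fun p => (p.1, xx p))) (by
        intro z hz
        obtain ⟨p, hp, rfl⟩ := Finset.mem_image.1 hz
        have hp1 := (Finset.mem_filter.1 hp).2
        have m1 := hDsub p.1 p.2 (hxx p hp1).1
        exact ⟨m1.1, (hxx p hp1).2, hinj p.1 _ m1⟩)
      exact_mod_cast h5
    · rw [Set.indicator_of_notMem he]
      apply le_of_eq
      refine Finset.sum_eq_zero (fun s _ => ?_)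
      rw [ENNReal.tsum_eq_zero]
      intro i
      apply Set.indicator_of_notMem
      rintro ⟨x, hx, rfl⟩
      exact he (hDsub s i hx).2.1
  refine (lintegral_mono hpt).trans ?_
  rw [lintegral_indicator Metric.isOpen_ball.measurableSet, setLIntegral_const]

end ST992
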