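import Pool.Agent.Work.MP_992d6e_an.ST.Four

/-!
MODULE CompA (M-L): comparison of the box `[1-σ, 1+σ]^n` with the sign-symmetric box, for a given
spanner `S`, `c`.

With the shear `T p = (p_s + Σ_{l ∉ S} c l s p_l)_{s ∈ S}, (p_l)_{l ∉ S}` the integrand is `H (T p)`,
`H(q) = w(Σ q_s v_s) |det (Σ q_s B_s + Σ q_l M_l)|`, `M_l = B_l - Σ_{s ∈ S} c l s B_s`.
-/

set_option autoImplicit false

namespace ST992

open MeasureTheory
open SM992 (E)

private noncomputable def shear {n : ℕ} (S : Finset (Fin n)) (c : Fin n → Fin n → ℝ)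
    (p : Fin n → ℝ) : Fin n → ℝ := fun i => p i + if i ∈ S then ∑ l ∈ Sᶜ, c l i * p l else 0

private noncomputable def Mx {n : ℕ} (S : Finset (Fin n)) (c : Fin n → Fin n → ℝ) :
    Matrix (Fin n) (Fin n) ℝ :=
  Matrix.of fun i j => (if i = j then 1 else 0) + if i ∈ S ∧ j ∈ Sᶜ then c j i else 0

private theorem Mx_det {n : ℕ} (S : Finset (Fin n)) (c : Fin n → Fin n → ℝ) :
    (Mx S c).det = 1 := by
  rw [Matrix.twoBlockTriangular_det (Mx S c) (fun i => i ∈ S)]
  · have h1 : Matrix.toSquareBlockProp (Mx S c) (fun i => i ∈ S) = 1 := by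
      ext i j
      rw [Matrix.toSquareBlockProp_def]
      simp only [Mx, Matrix.of_apply, Matrix.one_apply, Finset.mem_compl]
      have hj := j.2
      simp only [hj, not_true, and_false, if_false, add_zero]
      by_cases h : i = j
      · simp [h]
      · have h' : (i : Fin n) ≠ j := fun h' => h (Subtype.ext h')
        simp [h, h']
    have h2 : Matrix.toSquareBlockProp (Mx S c) (fun i => ¬ i ∈ S) = 1 := by
      ext i j
      rw [Matrix.toSquareBlockProp_def]
      simp only [Mx, Matrix.of_apply, Matrix.one_apply, Finset.mem_compl]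
      have hi := i.2
      simp only [hi, false_and, if_false, add_zero]
      by_cases h : i = j
      · simp [h]
      · have h' : (i : Fin n) ≠ j := fun h' => h (Subtype.ext h')
        simp [h, h']
    rw [h1, h2]; simp
  · intro i hi j hj
    simp only [Mx, Matrix.of_apply]
    have h : i ≠ j := fun h => hi (h ▸ hj)
    simp [h, hi]

private theorem shear_eq {n : ℕ} (S : Finset (Fin n)) (c : Fin n → Fin n → ℝ) :
    shear S c = Matrix.toLin' (Mx S c) := by
  funext p i
  simp only [Matrix.toLin'_apply, Matrix.mulVec, dotProduct, Mx, Matrix.of_apply, shear, add_mul,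
    Finset.sum_add_distrib, ite_mul, one_mul, zero_mul, Finset.sum_ite_eq, Finset.mem_univ,
    if_true]
  congr 1
  by_cases hi : i ∈ S
  · simp only [hi, if_true, true_and]
    rw [← Finset.sum_filter]
    refine Finset.sum_congr ?_ fun _ _ => rfl
    ext l; simp
  · simp [hi]

private theorem shear_mp {n : ℕ} (S : Finset (Fin n)) (c : Fin n → Fin n → ℝ) :
    MeasurePreserving (shear S c) volume volume := by
  rw [shear_eq]
  refine ⟨(LinearMap.continuous_of_finiteDimensional _).measurable, ?_⟩
  have h := Real.map_matrix_volume_pi_eq_smul_volume_pi (M := Mx S c) (by rw [Mx_det]; norm_num)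
  rw [h, Mx_det]
  simp

private theorem flip_mp {n : ℕ} (s : Finset (Fin n)) :
    MeasurePreserving (flip s) (volume : Measure (Fin n → ℝ)) volume := by
  have h := volume_preserving_pi (α' := fun _ : Fin n => ℝ) (β' := fun _ : Fin n => ℝ)
    (f := fun j => if j ∈ s then (fun x : ℝ => -x) else (fun x : ℝ => x)) (by
      intro j
      by_cases hj : j ∈ s
      · simp only [hj, if_true]
        exact Measure.measurePreserving_neg volume
      · simp only [hj, if_false]
        exact MeasurePreserving.id volume)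
  have e : flip s = fun (a : Fin n → ℝ) i => (if i ∈ s then (fun x : ℝ => -x) else
      (fun x : ℝ => x)) (a i) := by
    funext a i
    by_cases hi : i ∈ s <;> simp [flip, hi]
  rw [e]; exact h

private theorem shear_shear {n : ℕ} (S : Finset (Fin n)) (c : Fin n → Fin n → ℝ)
    (q : Fin n → ℝ) : shear S c (shear S (fun l s => - c l s) q) = q := by
  funext i
  by_cases hi : i ∈ S
  · have h : ∑ l ∈ Sᶜ, c l i * shear S (fun l s => - c l s) q l = ∑ l ∈ Sᶜ, c l i * q l := by
      refine Finset.sum_congr rfl fun l hl => ?_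
      have : l ∉ S := by simpa using hl
      simp [shear, this]
    have h2 : shear S (fun l s => - c l s) q i = q i - ∑ l ∈ Sᶜ, c l i * q l := by
      simp only [shear, hi, if_true, neg_mul, Finset.sum_neg_distrib]; ring
    calc shear S c (shear S (fun l s => - c l s) q) i
        = shear S (fun l s => - c l s) q i
            + ∑ l ∈ Sᶜ, c l i * shear S (fun l s => - c l s) q l := by
          simp only [shear, hi, if_true]
      _ = q i := by rw [h, h2]; ring
  · simp [shear, hi]

private theorem flip_flip {n : ℕ} (s : Finset (Fin n)) (q : Fin n → ℝ) :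
    flip s (flip s q) = q := by
  funext i
  by_cases hi : i ∈ s <;> simp [flip, hi]

section

variable {n : ℕ} (v : Fin n → E) (B : Fin n → (E →L[ℝ] E)) (w : E → ENNReal)
  (S : Finset (Fin n)) (c : Fin n → Fin n → ℝ)

private noncomputable def ff (p : Fin n → ℝ) : ENNReal :=
  w (∑ j, p j • v j) * ENNReal.ofReal |(∑ j, p j • B j).det|

private noncomputable def MM (l : Fin n) : E →L[ℝ] E := B l - ∑ s ∈ S, c l s • B s

private noncomputable def HH (q : Fin n → ℝ) : ENNReal :=
  w (∑ s ∈ S, q s • v s) *
    ENNReal.ofReal |((∑ s ∈ S, q s • B s) + ∑ l ∈ Sᶜ, q l • MM B S c l).det|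

private theorem sum_split {V : Type*} [AddCommMonoid V] (f : Fin n → V) :
    ∑ j, f j = ∑ s ∈ S, f s + ∑ l ∈ Sᶜ, f l := (Finset.sum_add_sum_compl S f).symm

private theorem shear_mem {p : Fin n → ℝ} {s : Fin n} (hs : s ∈ S) :
    shear S c p s = p s + ∑ l ∈ Sᶜ, c l s * p l := by simp [shear, hs]

private theorem shear_not_mem {p : Fin n → ℝ} {s : Fin n} (hs : s ∉ S) :
    shear S c p s = p s := by simp [shear, hs]

private theorem ff_eq (hS : ∀ l, v l = ∑ s ∈ S, c l s • v s) (p : Fin n → ℝ) :
    ff v B w p = HH v B w S c (shear S c p) := by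
  have key : ∀ {V : Type} [AddCommGroup V] [Module ℝ V] (f : Fin n → V),
      ∑ s ∈ S, (shear S c p) s • f s = ∑ s ∈ S, p s • f s
        + ∑ l ∈ Sᶜ, p l • ∑ s ∈ S, c l s • f s := by
    intro V _ _ f
    have : ∀ s ∈ S, (shear S c p) s • f s = p s • f s + ∑ l ∈ Sᶜ, (p l * c l s) • f s := by
      intro s hs
      rw [shear_mem S c hs, add_smul, Finset.sum_smul]
      congr 1
      exact Finset.sum_congr rfl fun l _ => by rw [mul_comm]
    rw [Finset.sum_congr rfl this, Finset.sum_add_distrib, Finset.sum_comm]
    congr 1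
    refine Finset.sum_congr rfl fun l _ => ?_
    rw [Finset.smul_sum]
    exact Finset.sum_congr rfl fun s _ => by rw [mul_smul]
  have h1 : ∑ j, p j • v j = ∑ s ∈ S, (shear S c p) s • v s := by
    rw [key v, sum_split S]
    congr 1
    exact Finset.sum_congr rfl fun l _ => by rw [← hS l]
  have h2 : ∑ j, p j • B j = (∑ s ∈ S, (shear S c p) s • B s)
      + ∑ l ∈ Sᶜ, (shear S c p) l • MM B S c l := by
    rw [key B, sum_split S, add_assoc, ← Finset.sum_add_distrib]
    congr 1
    refine Finset.sum_congr rfl fun l hl => ?_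
    have : l ∉ S := by simpa using hl
    rw [shear_not_mem S c this, MM, smul_sub]
    abel
  rw [ff, HH, h1, h2]

private theorem HH_eq (hS : ∀ l, v l = ∑ s ∈ S, c l s • v s) (q : Fin n → ℝ) :
    HH v B w S c q = ff v B w (shear S (fun l s => - c l s) q) := by
  rw [ff_eq v B w S c hS, shear_shear]

private theorem HH_le (q : Fin n → ℝ) :
    HH v B w S c q ≤ ((small n).card : ENNReal) * ((2 ^ n : ENNReal)⁻¹ *
      ∑ s : Finset (Fin n), HH v B w S c (flip (s \ S) q)) := by
  have hd := det_le (∑ s ∈ S, q s • B s) (fun l => if l ∈ S then 0 else MM B S c l) q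
  have e1 : ∀ r : Fin n → ℝ, ∑ j, r j • (if j ∈ S then (0 : E →L[ℝ] E) else MM B S c j)
      = ∑ l ∈ Sᶜ, r l • MM B S c l := by
    intro r
    have h0 : ∀ s ∈ S, r s • (if s ∈ S then (0 : E →L[ℝ] E) else MM B S c s) = 0 := by
      intro s hs
      rw [if_pos hs]
      exact smul_zero (A := E →L[ℝ] E) (r s)
    rw [sum_split S]
    rw [Finset.sum_eq_zero h0, zero_add]
    refine Finset.sum_congr rfl fun l hl => ?_
    have : l ∉ S := by simpa using hl
    rw [if_neg this]
  have e2 : ∀ s : Finset (Fin n), HH v B w S c (flip (s \ S) q) =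
      w (∑ s ∈ S, q s • v s) * ENNReal.ofReal |((∑ s ∈ S, q s • B s)
        + ∑ l ∈ Sᶜ, (flip s q) l • MM B S c l).det| := by
    intro s
    have a1 : ∀ i ∈ S, flip (s \ S) q i = q i := by
      intro i hi; simp [flip, hi]
    have a2 : ∀ i ∈ Sᶜ, flip (s \ S) q i = flip s q i := by
      intro i hi
      have : i ∉ S := by simpa using hi
      simp [flip, this]
    rw [HH]
    rw [Finset.sum_congr rfl (fun i hi => by rw [a1 i hi] :
      ∀ i ∈ S, (flip (s \ S) q i) • v i = q i • v i)]
    rw [Finset.sum_congr rfl (fun i hi => by rw [a1 i hi] :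
      ∀ i ∈ S, (flip (s \ S) q i) • B i = q i • B i)]
    rw [Finset.sum_congr rfl (fun i hi => by rw [a2 i hi] :
      ∀ i ∈ Sᶜ, (flip (s \ S) q i) • MM B S c i = flip s q i • MM B S c i)]
  simp only [e1] at hd
  simp only [e2]
  rw [← Finset.mul_sum]
  rw [HH]
  have h3 : ENNReal.ofReal |((∑ s ∈ S, q s • B s) + ∑ l ∈ Sᶜ, q l • MM B S c l).det| ≤
      ((small n).card : ENNReal) * ((2 ^ n : ENNReal)⁻¹ * ∑ s : Finset (Fin n),
        ENNReal.ofReal |((∑ s ∈ S, q s • B s)
        + ∑ l ∈ Sᶜ, (flip s q) l • MM B S c l).det|) := by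
    refine (ENNReal.ofReal_le_ofReal hd).trans (le_of_eq ?_)
    rw [ENNReal.ofReal_mul (by positivity), ENNReal.ofReal_natCast,
      ENNReal.ofReal_mul (by positivity), ENNReal.ofReal_inv_of_pos (by positivity),
      ENNReal.ofReal_pow (by norm_num), ENNReal.ofReal_ofNat,
      ENNReal.ofReal_sum_of_nonneg (fun _ _ => abs_nonneg _)]
  calc w (∑ s ∈ S, q s • v s) *
        ENNReal.ofReal |((∑ s ∈ S, q s • B s) + ∑ l ∈ Sᶜ, q l • MM B S c l).det|
      ≤ w (∑ s ∈ S, q s • v s) * (((small n).card : ENNReal) * ((2 ^ n : ENNReal)⁻¹ *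
        ∑ s : Finset (Fin n), ENNReal.ofReal |((∑ s ∈ S, q s • B s)
        + ∑ l ∈ Sᶜ, (flip s q) l • MM B S c l).det|)) := by gcongr
    _ = _ := by ring

end

private theorem meas_sum_v {n : ℕ} (v : Fin n → E) :
    Measurable fun p : Fin n → ℝ => ∑ j, p j • v j := by
  have : Continuous fun p : Fin n → ℝ => ∑ j, p j • v j := by fun_prop
  exact this.measurable

private theorem ff_meas {n : ℕ} (v : Fin n → E) (B : Fin n → (E →L[ℝ] E)) (w : E → ENNReal)
    (hw : Measurable w) : Measurable (ff v B w) := by
  unfold ff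
  refine (hw.comp (meas_sum_v v)).mul ?_
  have h1 : Continuous fun p : Fin n → ℝ => ∑ j, p j • B j := by fun_prop
  have h2 : Continuous fun p : Fin n → ℝ => (∑ j, p j • B j).det :=
    ContinuousLinearMap.continuous_det.comp h1
  exact ENNReal.measurable_ofReal.comp h2.abs.measurable

private theorem HH_meas {n : ℕ} (v : Fin n → E) (B : Fin n → (E →L[ℝ] E)) (w : E → ENNReal)
    (hw : Measurable w) (S : Finset (Fin n)) (c : Fin n → Fin n → ℝ) :
    Measurable (HH v B w S c) := by
  unfold HH
  have h0 : Continuous fun p : Fin n → ℝ => ∑ j ∈ S, p j • v j := by fun_prop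
  refine (hw.comp h0.measurable).mul ?_
  have h1 : Continuous fun p : Fin n → ℝ => (∑ s ∈ S, p s • B s)
      + ∑ l ∈ Sᶜ, p l • MM B S c l := by fun_prop
  have h2 := ContinuousLinearMap.continuous_det.comp h1
  exact ENNReal.measurable_ofReal.comp h2.abs.measurable

theorem comp_aux {n : ℕ} (σ : ℝ) (hσ : 0 < σ) (hσ1 : σ ≤ 1)
    (v : Fin n → E) (B : Fin n → (E →L[ℝ] E)) (w : E → ENNReal) (hw : Measurable w)
    (S : Finset (Fin n)) (c : Fin n → Fin n → ℝ) (hc : ∀ l s, |c l s| ≤ 1)
    (hS : ∀ l, v l = ∑ s ∈ S, c l s • v s) :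
    ∫⁻ p in bx n σ, w (∑ j, p j • v j) * ENNReal.ofReal |(∑ j, p j • B j).det| ≤
      ((small n).card : ENNReal) * ((2 ^ n : ENNReal)⁻¹ *
        ∫⁻ p in qx n σ S, ∑ s : Finset (Fin n),
          w (∑ j, (flip s p) j • v j) * ENNReal.ofReal |(∑ j, (flip s p) j • B j).det|) := by
  classical
  set K : Set (Fin n → ℝ) := Set.pi Set.univ fun j =>
    if j ∈ S then Set.Icc (-(2 * n : ℝ)) (2 * n) else Set.Icc (1 - σ) (1 + σ) with hK
  have hKm : MeasurableSet K := by
    refine MeasurableSet.univ_pi fun j => ?_
    by_cases hj : j ∈ S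
    · simp only [hj, if_true]; exact measurableSet_Icc
    · simp only [hj, if_false]; exact measurableSet_Icc
  have hqm : MeasurableSet (qx n σ S) := by
    refine MeasurableSet.univ_pi fun j => ?_
    by_cases hj : j ∈ S
    · simp only [hj, if_true]; exact measurableSet_Icc
    · simp only [hj, if_false]; exact measurableSet_Icc
  have hbm : MeasurableSet (bx n σ) := MeasurableSet.univ_pi fun j => measurableSet_Icc
  have hfm := ff_meas v B w hw
  have hHm := HH_meas v B w hw S c
  -- sums over the complement of S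
  have hsum : ∀ (p : Fin n → ℝ) (s : Fin n) (d : Fin n → Fin n → ℝ), (∀ l s, |d l s| ≤ 1) →
      (∀ l ∉ S, |p l| ≤ 2) → |∑ l ∈ Sᶜ, d l s * p l| ≤ 2 * (Sᶜ.card : ℝ) := by
    intro p s d hd hp
    refine (Finset.abs_sum_le_sum_abs _ _).trans ?_
    have : ∀ l ∈ Sᶜ, |d l s * p l| ≤ 2 := by
      intro l hl
      have hl' : l ∉ S := by simpa using hl
      rw [abs_mul]
      have := hd l s
      have := hp l hl'
      nlinarith [abs_nonneg (d l s), abs_nonneg (p l)]
    refine (Finset.sum_le_card_nsmul _ _ _ this).trans (le_of_eq ?_)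
    rw [nsmul_eq_mul]; ring
  have hcard : ∀ s ∈ S, (Sᶜ.card : ℝ) + 1 ≤ n := by
    intro s hs
    have h1 : Sᶜ.card + S.card = n := by
      have := Finset.card_compl_add_card S
      simpa using this
    have h2 : 1 ≤ S.card := Finset.card_pos.mpr ⟨s, hs⟩
    have h3 : Sᶜ.card + 1 ≤ n := by omega
    exact_mod_cast h3
  -- step 1
  have hTK : ∀ p ∈ bx n σ, shear S c p ∈ K := by
    intro p hp
    have hp' : ∀ j, p j ∈ Set.Icc (1 - σ) (1 + σ) := fun j => hp j (Set.mem_univ j)
    have hp2 : ∀ j, |p j| ≤ 2 := by
      intro j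
      have := hp' j
      rw [abs_le]; constructor <;> linarith [this.1, this.2]
    intro j _
    by_cases hj : j ∈ S
    · simp only [hj, if_true]
      rw [shear_mem S c hj, Set.mem_Icc, ← abs_le]
      refine (abs_add_le _ _).trans ?_
      have h1 := hsum p j c hc (fun l _ => hp2 l)
      have h2 := hp2 j
      have h3 := hcard j hj
      linarith
    · simp only [hj, if_false]
      rw [shear_not_mem S c hj]
      exact hp' j
  have step1 : ∫⁻ p in bx n σ, ff v B w p ≤ ∫⁻ q in K, HH v B w S c q := by
    rw [← lintegral_indicator hbm, ← lintegral_indicator hKm]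
    have hm : Measurable (K.indicator (HH v B w S c)) := hHm.indicator hKm
    rw [← (shear_mp S c).lintegral_comp hm]
    refine lintegral_mono fun p => ?_
    by_cases hp : p ∈ bx n σ
    · rw [Set.indicator_of_mem hp, Set.indicator_of_mem (hTK p hp), ff_eq v B w S c hS]
    · rw [Set.indicator_of_notMem hp]; exact bot_le
  -- step 2
  have step2 : ∫⁻ q in K, HH v B w S c q ≤ ((small n).card : ENNReal) * ((2 ^ n : ENNReal)⁻¹ *
      ∑ s : Finset (Fin n), ∫⁻ q in K, HH v B w S c (flip (s \ S) q)) := by
    have hm : ∀ s : Finset (Fin n), Measurable fun q => HH v B w S c (flip (s \ S) q) :=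
      fun s => hHm.comp (flip_mp (s \ S)).measurable
    rw [← lintegral_finsetSum _ (fun s _ => hm s), ← lintegral_const_mul _ (by fun_prop),
      ← lintegral_const_mul _ (by fun_prop)]
    exact lintegral_mono fun q => HH_le v B w S c q
  -- step 3
  have step3 : ∀ s : Finset (Fin n), ∫⁻ q in K, HH v B w S c (flip (s \ S) q) ≤
      ∫⁻ p in qx n σ S, ff v B w (flip s p) := by
    intro s
    rw [← lintegral_indicator hqm, ← lintegral_indicator hKm]
    have hg : Measurable ((qx n σ S).indicator fun p => ff v B w (flip s p)) :=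
      (hfm.comp (flip_mp s).measurable).indicator hqm
    have hphi : MeasurePreserving (fun q => flip s (shear S (fun l s => - c l s)
        (flip (s \ S) q))) (volume : Measure (Fin n → ℝ)) volume :=
      (flip_mp s).comp ((shear_mp S _).comp (flip_mp (s \ S)))
    rw [← hphi.lintegral_comp hg]
    refine lintegral_mono fun q => ?_
    by_cases hq : q ∈ K
    · have hmem : flip s (shear S (fun l s => - c l s) (flip (s \ S) q)) ∈ qx n σ S := by
        have hq' : ∀ j, q j ∈ (if j ∈ S then Set.Icc (-(2 * n : ℝ)) (2 * n) else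
          Set.Icc (1 - σ) (1 + σ)) := fun j => hq j (Set.mem_univ j)
        intro j _
        by_cases hj : j ∈ S
        · simp only [hj, if_true]
          have h1 := hq' j
          simp only [hj, if_true] at h1
          have h2 : |flip (s \ S) q j| ≤ 2 * n := by
            have : flip (s \ S) q j = q j := by simp [flip, hj]
            rw [this, abs_le]; exact h1
          have h3 := hsum (flip (s \ S) q) j (fun l s => - c l s)
            (fun l s => by rw [abs_neg]; exact hc l s) (by
              intro l hl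
              have h4 := hq' l
              simp only [hl, if_false] at h4
              have h5 : |flip (s \ S) q l| = |q l| := by
                by_cases hls : l ∈ s \ S <;> simp only [flip, hls, if_true, if_false, abs_neg]
              rw [h5, abs_le]
              constructor <;> linarith [h4.1, h4.2])
          have h6 := hcard j hj
          have h7 : |shear S (fun l s => - c l s) (flip (s \ S) q) j| ≤ 4 * n := by
            rw [shear_mem S _ hj]
            refine (abs_add_le _ _).trans ?_
            linarith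
          have h8 : |flip s (shear S (fun l s => - c l s) (flip (s \ S) q)) j| ≤ 4 * n := by
            have : |flip s (shear S (fun l s => - c l s) (flip (s \ S) q)) j|
                = |shear S (fun l s => - c l s) (flip (s \ S) q) j| := by
              by_cases hjs : j ∈ s
              · simp only [flip, hjs, if_true, abs_neg]
              · simp only [flip, hjs, if_false]
            rw [this]; exact h7
          exact Set.mem_Icc.mpr (abs_le.mp h8)
        · simp only [hj, if_false]
          have h1 := hq' j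
          simp only [hj, if_false] at h1
          have : flip s (shear S (fun l s => - c l s) (flip (s \ S) q)) j = q j := by
            by_cases hjs : j ∈ s
            · simp [flip, shear, hj, hjs]
            · simp [flip, shear, hj, hjs]
          rw [this]; exact h1
      rw [Set.indicator_of_mem hq, Set.indicator_of_mem hmem, flip_flip,
        HH_eq v B w S c hS]
    · rw [Set.indicator_of_notMem hq]; exact bot_le
  have h4 : ∫⁻ p in qx n σ S, ∑ s : Finset (Fin n), ff v B w (flip s p) =
      ∑ s : Finset (Fin n), ∫⁻ p in qx n σ S, ff v B w (flip s p) :=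
    lintegral_finsetSum _ (fun s _ => hfm.comp (flip_mp s).measurable)
  change ∫⁻ p in bx n σ, ff v B w p ≤ ((small n).card : ENNReal) * ((2 ^ n : ENNReal)⁻¹ *
        ∫⁻ p in qx n σ S, ∑ s : Finset (Fin n), ff v B w (flip s p))
  rw [h4]
  refine (step1.trans step2).trans ?_
  exact mul_le_mul_right (mul_le_mul_right (Finset.sum_le_sum fun s _ => step3 s) _) _

end ST992
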