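import Pool.Agent.Work.MP_992d6e_an.ST.Defs
import Pool.Agent.Work.MP_992d6e_an.SM.Der

/-!
MODULE Count (M): a finite set of nondegenerate equilibria is counted by `GG` for small `η`.

Let `f = F q a` (strict derivative `DF q a x` at `x ∈ off a`, `SM992.hasStrictFDerivAt_F` in SM/Der;
an injective linear map of `E` is a continuous linear equivalence). By `Set.Finite.t2_separation`
and the inverse function theorem choose pairwise disjoint open `V_x ∋ x`, `x ∈ Z`, contained in `off a`,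
on which `f` is injective; `f '' V_x` is a neighbourhood of `f x = 0`
(`HasStrictFDerivAt.map_nhds_eq_of_surj` or `map_nhds_eq_of_equiv`), so it contains `ball 0 η` for
small `η > 0`. Then
`GG η q a ≥ Σ_x ∫⁻ y in V_x ∩ f⁻¹' ball 0 η, |det DF| = Σ_x vol (f '' (V_x ∩ f⁻¹' ball)) = card Z * vol ball`
(`lintegral_abs_det_fderiv_eq_addHaar_image`; `V_x ∩ f⁻¹' ball` is open because `f` is continuous on
the open set `off a`).
-/

set_option autoImplicit false

namespace ST992

open MeasureTheory Filter Topology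
open SM992 (E F DF g Dg IsEq)

private theorem loc (f : E → E) (f' : E →L[ℝ] E) (x : E)
    (hf : HasStrictFDerivAt f f' x) (hinj : Function.Injective f') :
    (∃ V : Set E, IsOpen V ∧ x ∈ V ∧ Set.InjOn f V) ∧ map f (𝓝 x) = 𝓝 (f x) := by
  have hi : Function.Injective (f' : E →ₗ[ℝ] E) := hinj
  let e : E ≃L[ℝ] E := (LinearEquiv.ofInjectiveEndo (f' : E →ₗ[ℝ] E) hi).toContinuousLinearEquiv
  have he : (e : E →L[ℝ] E) = f' := by
    ext1 v
    rfl
  have h : HasStrictFDerivAt f (e : E →L[ℝ] E) x := by rw [he]; exact hf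
  exact ⟨⟨(h.toOpenPartialHomeomorph f).source, (h.toOpenPartialHomeomorph f).open_source,
    h.mem_toOpenPartialHomeomorph_source, (h.toOpenPartialHomeomorph f).injOn⟩,
    h.map_nhds_eq_of_equiv⟩

private theorem isOpen_off {n : ℕ} (a : Fin n → E) : IsOpen (off a) := by
  have h : off a = ⋂ l, {a l}ᶜ := by
    ext x
    simp [off]
  rw [h]
  exact isOpen_iInter_of_finite fun l => isOpen_compl_singleton

theorem card_mul_le {n : ℕ} (q : Fin n → ℝ) (a : Fin n → E) (Z : Finset E)
    (hZ : ∀ x ∈ Z, IsEq q a x ∧ Function.Injective (DF q a x)) :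
    ∀ᶠ η : ℝ in 𝓝[>] 0, (Z.card : ENNReal) * volume (Metric.ball (0 : E) η) ≤ GG η q a := by
  classical
  have hs : ∀ x ∈ off a, HasStrictFDerivAt (F q a) (DF q a x) x :=
    fun x hx => SM992.hasStrictFDerivAt_F q a hx
  have hcont : ContinuousOn (F q a) (off a) :=
    fun x hx => (hs x hx).continuousAt.continuousWithinAt
  have hoff := isOpen_off a
  have hZoff : ∀ x ∈ Z, x ∈ off a := fun x hx => (hZ x hx).1.1
  have h1 : ∀ x : E, ∃ V : Set E, x ∈ Z → IsOpen V ∧ x ∈ V ∧ Set.InjOn (F q a) V := by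
    intro x
    by_cases hx : x ∈ Z
    · obtain ⟨V, hV⟩ := (loc (F q a) (DF q a x) x (hs x (hZoff x hx)) (hZ x hx).2).1
      exact ⟨V, fun _ => hV⟩
    · exact ⟨∅, fun h => absurd h hx⟩
  choose V hV using h1
  obtain ⟨U, hU, hUd⟩ := Z.finite_toSet.t2_separation
  let W : E → Set E := fun x => V x ∩ U x ∩ off a
  have hWo : ∀ x ∈ Z, IsOpen (W x) := fun x hx => ((hV x hx).1.inter (hU x).2).inter hoff
  have hWx : ∀ x ∈ Z, x ∈ W x := fun x hx => ⟨⟨(hV x hx).2.1, (hU x).1⟩, hZoff x hx⟩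
  have hWi : ∀ x ∈ Z, Set.InjOn (F q a) (W x) :=
    fun x hx => ((hV x hx).2.2).mono (fun y hy => hy.1.1)
  have hWa : ∀ x, W x ⊆ off a := fun x y hy => hy.2
  have hWU : ∀ x, W x ⊆ U x := fun x y hy => hy.1.2
  have hball : ∀ x ∈ Z, ∀ᶠ η : ℝ in 𝓝[>] 0, Metric.ball (0 : E) η ⊆ F q a '' W x := by
    intro x hx
    have h2 : F q a '' W x ∈ 𝓝 (0 : E) := by
      have h3 := (loc (F q a) (DF q a x) x (hs x (hZoff x hx)) (hZ x hx).2).2
      rw [(hZ x hx).1.2] at h3
      rw [← h3]
      exact image_mem_map ((hWo x hx).mem_nhds (hWx x hx))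
    obtain ⟨ε, hε, hb⟩ := Metric.mem_nhds_iff.1 h2
    filter_upwards [Ioo_mem_nhdsGT hε] with η hη
    exact (Metric.ball_subset_ball hη.2.le).trans hb
  have hall : ∀ᶠ η : ℝ in 𝓝[>] 0, ∀ x ∈ Z, Metric.ball (0 : E) η ⊆ F q a '' W x :=
    (Filter.eventually_all_finset Z).2 hball
  filter_upwards [hall] with η hη
  let T : E → Set E := fun x => W x ∩ F q a ⁻¹' Metric.ball (0 : E) η
  have hTo : ∀ x ∈ Z, IsOpen (T x) := fun x hx =>
    (hcont.mono (hWa x)).isOpen_inter_preimage (hWo x hx) Metric.isOpen_ball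
  have hTd : (Z : Set E).PairwiseDisjoint T := by
    intro x hx y hy hxy
    exact (hUd hx hy hxy).mono ((Set.inter_subset_left).trans (hWU x))
      ((Set.inter_subset_left).trans (hWU y))
  have hTint : ∀ x ∈ Z, ∫⁻ y in T x, hh η q a y = volume (Metric.ball (0 : E) η) := by
    intro x hx
    have h4 : ∫⁻ y in T x, hh η q a y = ∫⁻ y in T x, ENNReal.ofReal |(DF q a y).det| := by
      apply setLIntegral_congr_fun (hTo x hx).measurableSet
      intro y hy
      have hyb : F q a y ∈ Metric.ball (0 : E) η := hy.2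
      simp only [hh]
      rw [Set.indicator_of_mem hyb]
      simp
    rw [h4, lintegral_abs_det_fderiv_eq_addHaar_image volume (hTo x hx).measurableSet
      (fun y hy => ((hs y (hWa x hy.1)).hasFDerivAt).hasFDerivWithinAt)
      ((hWi x hx).mono Set.inter_subset_left)]
    congr 1
    rw [Set.image_inter_preimage]
    exact Set.inter_eq_right.2 (hη x hx)
  calc (Z.card : ENNReal) * volume (Metric.ball (0 : E) η)
      = ∑ x ∈ Z, ∫⁻ y in T x, hh η q a y := by
        rw [Finset.sum_congr rfl hTint, Finset.sum_const, nsmul_eq_mul]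
    _ = ∫⁻ y in ⋃ x ∈ Z, T x, hh η q a y :=
        (lintegral_biUnion_finset hTd (fun x hx => (hTo x hx).measurableSet) _).symm
    _ ≤ ∫⁻ y in off a, hh η q a y := by
        apply lintegral_mono_set
        intro y hy
        obtain ⟨x, hy⟩ := Set.mem_iUnion.1 hy
        obtain ⟨hx, hy⟩ := Set.mem_iUnion.1 hy
        exact hWa x hy.1
    _ = GG η q a := rfl

end ST992
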