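import Pool.Agent.Work.MP_992d6e_an.ST.Defs

/-!
MODULE Spanner (S-M): barycentric spanner.

Let `W = span (range v)`, `k = finrank W ≤ 3`, `b` a basis of `W` indexed by `Fin k`. Among the maps
`s : Fin k → Fin n` choose one with `|b.det (v ∘ s)|` maximal (finite type); the maximum is positive
(a spanning set contains a basis). So `v ∘ s` is a basis of `W`, `s` is injective, and by Cramer
(`Module.Basis.det_smul_mk_coord_eq_det_update` or multilinearity) the coordinate `i` of `v l` is
`b.det (update (v ∘ s) i (v l)) / b.det (v ∘ s)`, of modulus at most `1` by maximality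
(`update (v ∘ s) i (v l) = v ∘ (update s i l)`). `S = image s`.
-/

set_option autoImplicit false

namespace ST992

open SM992 (E)

/-- Spanner for a spanning family. -/
private theorem spanner_aux {n : ℕ} {W : Type*} [AddCommGroup W] [Module ℝ W]
    [FiniteDimensional ℝ W] (u : Fin n → W) (hu : Submodule.span ℝ (Set.range u) = ⊤) :
    ∃ (s : Fin (Module.finrank ℝ W) → Fin n) (c : Fin n → Fin (Module.finrank ℝ W) → ℝ),
      Function.Injective s ∧ (∀ l i, |c l i| ≤ 1) ∧ ∀ l, u l = ∑ i, c l i • u (s i) := by
  classical
  set k := Module.finrank ℝ W with hk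
  let b : Module.Basis (Fin k) ℝ W := Module.finBasis ℝ W
  -- a family of indices with nonzero determinant
  have hex : ∃ s : Fin k → Fin n, b.det (u ∘ s) ≠ 0 := by
    obtain ⟨t, hts, htspan, htli⟩ := exists_linearIndependent ℝ (Set.range u)
    have htspan' : Submodule.span ℝ t = ⊤ := by rw [htspan, hu]
    have htop : ⊤ ≤ Submodule.span ℝ (Set.range (Subtype.val : t → W)) := by
      rw [Subtype.range_coe, htspan']
    let B : Module.Basis t ℝ W := Module.Basis.mk htli htop
    have : Finite t := Module.Finite.finite_basis B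
    have : Fintype t := Fintype.ofFinite t
    have hcard : Fintype.card t = k := by
      rw [hk, Module.finrank_eq_card_basis B]
    let e : Fin k ≃ t := (Fintype.equivFinOfCardEq hcard).symm
    have hch : ∀ i : Fin k, ∃ l : Fin n, u l = (e i : W) := fun i => hts (e i).2
    choose s hs using hch
    refine ⟨s, ?_⟩
    have hus : u ∘ s = (B.reindex e.symm : Fin k → W) := by
      funext i
      simp [hs, B]
    have : IsUnit (b.det (u ∘ s)) := by
      rw [hus]
      exact b.isUnit_det (B.reindex e.symm)
    exact this.ne_zero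
  obtain ⟨s1, hs1⟩ := hex
  have : Nonempty (Fin k → Fin n) := ⟨s1⟩
  obtain ⟨s, hs⟩ := Finite.exists_max (fun s : Fin k → Fin n => |b.det (u ∘ s)|)
  have hs0 : b.det (u ∘ s) ≠ 0 := by
    have h1 : 0 < |b.det (u ∘ s1)| := abs_pos.mpr hs1
    exact abs_pos.mp (h1.trans_le (hs s1))
  have hbasis := (Module.Basis.is_basis_iff_det b (v := u ∘ s)).mpr (isUnit_iff_ne_zero.mpr hs0)
  obtain ⟨hli, hsp⟩ := hbasis
  let B : Module.Basis (Fin k) ℝ W := Module.Basis.mk hli (le_of_eq hsp.symm)
  have hinj : Function.Injective s := by
    have := hli.injective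
    exact Function.Injective.of_comp this
  refine ⟨s, fun l i => B.coord i (u l), hinj, ?_, ?_⟩
  · intro l i
    have h := congrArg (fun f : W →ₗ[ℝ] ℝ => f (u l))
      (b.det_smul_mk_coord_eq_det_update hli (le_of_eq hsp.symm) i)
    simp only [LinearMap.smul_apply, smul_eq_mul, MultilinearMap.toLinearMap_apply] at h
    have h2 : b.det (Function.update (u ∘ s) i (u l)) = b.det (u ∘ Function.update s i l) := by
      congr 1
      funext j
      by_cases hj : j = i
      · subst hj; simp
      · simp [Function.update_of_ne hj]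
    have h3 : |b.det (u ∘ s)| * |B.coord i (u l)| ≤ |b.det (u ∘ s)| * 1 := by
      rw [← abs_mul, mul_one]
      have : b.det (u ∘ s) * B.coord i (u l) = b.det (u ∘ Function.update s i l) := by
        rw [← h2]; exact h
      rw [this]
      exact hs _
    exact le_of_mul_le_mul_left h3 (abs_pos.mpr hs0)
  · intro l
    have h := B.sum_repr (u l)
    rw [← h]
    refine Finset.sum_congr rfl fun i _ => ?_
    simp [B, Module.Basis.coord_apply]

theorem exists_spanner {n : ℕ} (v : Fin n → E) :
    ∃ (S : Finset (Fin n)) (c : Fin n → Fin n → ℝ), S.card ≤ 3 ∧ (∀ l s, |c l s| ≤ 1) ∧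
      ∀ l, v l = ∑ s ∈ S, c l s • v s := by
  classical
  let W : Submodule ℝ E := Submodule.span ℝ (Set.range v)
  let u : Fin n → W := fun l => ⟨v l, Submodule.subset_span (Set.mem_range_self l)⟩
  have hu : Submodule.span ℝ (Set.range u) = ⊤ := by
    have h := Submodule.span_span_coe_preimage (R := ℝ) (s := Set.range v)
    convert h using 2
    ext x
    constructor
    · rintro ⟨l, rfl⟩
      exact ⟨l, rfl⟩
    · rintro ⟨l, hl⟩
      exact ⟨l, Subtype.ext hl⟩
  obtain ⟨s, c, hinj, hc, hrep⟩ := spanner_aux u hu
  have hk : Module.finrank ℝ W ≤ 3 := by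
    have := Submodule.finrank_le W
    simpa using this
  refine ⟨Finset.univ.image s, fun l j => if h : ∃ i, s i = j then c l h.choose else 0, ?_, ?_, ?_⟩
  · refine (Finset.card_image_le).trans ?_
    simpa using hk
  · intro l j
    by_cases h : ∃ i, s i = j
    · simp only [h, dif_pos]
      exact hc _ _
    · simp [h]
  · intro l
    rw [Finset.sum_image (fun a _ b _ hab => hinj hab)]
    have h1 := congrArg (fun w : W => (w : E)) (hrep l)
    simp only [u, Submodule.coe_sum, Submodule.coe_smul] at h1
    rw [h1]
    refine Finset.sum_congr rfl fun i _ => ?_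
    have h : ∃ i', s i' = s i := ⟨i, rfl⟩
    have h2 : h.choose = i := hinj h.choose_spec
    show c l i • v (s i) = (if h : ∃ i', s i' = s i then c l h.choose else 0) • v (s i)
    rw [dif_pos h, h2]

end ST992
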