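import Pool.Agent.Work.MP_992d6e_an.ST.Area
import Pool.Agent.Work.MP_992d6e_an.ST.Count
import Pool.Agent.Work.MP_992d6e_an.ST.CompA
import Pool.Agent.Work.MP_992d6e_an.ST.Spanner

/-!
MODULE Asm (helper64): assembly of the mean bound.
-/

set_option autoImplicit false

namespace ST992

open MeasureTheory Filter Topology
open SM992 (E F DF g Dg IsEq)

/-- The nondegenerate equilibria. -/
def Nd {n : ℕ} (q : Fin n → ℝ) (a : Fin n → E) : Set E :=
  {x | IsEq q a x ∧ Function.Injective (DF q a x)}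

private theorem meas_g : Measurable (g : E → E) := by
  unfold SM992.g
  fun_prop

private theorem meas_Dg : Measurable (Dg : E → E →L[ℝ] E) := by
  unfold SM992.Dg
  have h1 : Measurable (fun u : E => (innerSL ℝ u).smulRight u) := by
    have : Continuous (fun u : E => (innerSL ℝ u).smulRight u) := by
      have h2 : Continuous (fun u : E => (innerSL ℝ u : E →L[ℝ] ℝ)) := (innerSL ℝ).continuous
      exact (ContinuousLinearMap.smulRightL ℝ E E).continuous₂.comp (h2.prodMk continuous_id)
    exact this.measurable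
  have h3 : Measurable (fun u : E => (‖u‖ ^ 3)⁻¹) := by fun_prop
  have h4 : Measurable (fun u : E => 3 * (‖u‖ ^ 5)⁻¹) := by fun_prop
  exact (h3.smul_const _).sub (h4.smul h1)

variable {n : ℕ}

private theorem meas_F (a : Fin n → E) (μ : Fin n → ℝ) :
    Measurable (fun z : (Fin n → ℝ) × E => F (sc μ z.1) a z.2) := by
  unfold SM992.F sc
  refine Finset.measurable_fun_sum _ (fun j _ => ?_)
  have h1 : Measurable (fun z : (Fin n → ℝ) × E => μ j * z.1 j) := by fun_prop
  have h2 : Measurable (fun z : (Fin n → ℝ) × E => g (z.2 - a j)) :=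
    meas_g.comp (by fun_prop)
  exact h1.smul h2

private theorem meas_DF (a : Fin n → E) (μ : Fin n → ℝ) :
    Measurable (fun z : (Fin n → ℝ) × E => DF (sc μ z.1) a z.2) := by
  unfold SM992.DF sc
  refine Finset.measurable_fun_sum _ (fun j _ => ?_)
  have h1 : Measurable (fun z : (Fin n → ℝ) × E => μ j * z.1 j) := by fun_prop
  have h2 : Measurable (fun z : (Fin n → ℝ) × E => Dg (z.2 - a j)) :=
    meas_Dg.comp (by fun_prop)
  exact h1.smul h2

private theorem meas_hh (a : Fin n → E) (μ : Fin n → ℝ) (η : ℝ) :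
    Measurable (fun z : (Fin n → ℝ) × E => hh η (sc μ z.1) a z.2) := by
  unfold hh
  have h1 : Measurable ((Metric.ball (0 : E) η).indicator (1 : E → ENNReal)) :=
    measurable_one.indicator Metric.isOpen_ball.measurableSet
  have h2 : Measurable (fun L : E →L[ℝ] E => ENNReal.ofReal |L.det|) :=
    ENNReal.measurable_ofReal.comp ((ContinuousLinearMap.continuous_det).abs.measurable)
  exact (h1.comp (meas_F a μ)).mul (h2.comp (meas_DF a μ))

private theorem meas_off (a : Fin n → E) : MeasurableSet (off a) := by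
  have : off a = ⋂ l, {x | x ≠ a l} := by
    ext x
    simp [off]
  rw [this]
  exact MeasurableSet.iInter fun l => (isOpen_ne).measurableSet

private theorem flip_sc (s : Finset (Fin n)) (μ p : Fin n → ℝ) :
    sc μ (flip s p) = flip s (sc μ p) := by
  funext j
  simp only [sc, flip]
  split_ifs <;> ring

private theorem meas_flip (s : Finset (Fin n)) : Measurable (flip s : (Fin n → ℝ) → _) := by
  rw [measurable_pi_iff]
  intro j
  unfold flip
  by_cases h : j ∈ s
  · simp only [h, if_true]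
    fun_prop
  · simp only [h, if_false]
    fun_prop

private theorem hh_eq (a : Fin n → E) (μ p : Fin n → ℝ) (η : ℝ) (x : E) :
    hh η (sc μ p) a x = (Metric.ball (0 : E) η).indicator 1 (∑ j, p j • (μ j • g (x - a j))) *
      ENNReal.ofReal |(∑ j, p j • (μ j • Dg (x - a j))).det| := by
  have h1 : F (sc μ p) a x = ∑ j, p j • (μ j • g (x - a j)) := by
    unfold SM992.F sc
    refine Finset.sum_congr rfl fun j _ => ?_
    rw [smul_smul, mul_comm]
  have h2 : DF (sc μ p) a x = ∑ j, p j • (μ j • Dg (x - a j)) := by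
    unfold SM992.DF sc
    refine Finset.sum_congr rfl fun j _ => ?_
    rw [smul_smul, mul_comm]
  rw [hh, h1, h2]

private theorem vol_qx (hn : 1 ≤ n) (σ : ℝ) (hσ : 0 < σ) (hσ1 : σ ≤ 1) (S : Finset (Fin n))
    (hS : S.card ≤ 3) :
    volume (qx n σ S) ≤ ENNReal.ofReal ((4 * n / σ) ^ 3) * volume (bx n σ) := by
  have hn' : (1 : ℝ) ≤ n := by exact_mod_cast hn
  have h1 : volume (bx n σ) = ENNReal.ofReal ((2 * σ) ^ n) := by
    rw [bx, volume_pi_pi]
    simp only [Real.volume_Icc]
    rw [Finset.prod_const, Finset.card_univ, Fintype.card_fin, ← ENNReal.ofReal_pow (by linarith)]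
    congr 2
    ring
  have h2 : volume (qx n σ S) = ENNReal.ofReal ((8 * n) ^ S.card * (2 * σ) ^ (n - S.card)) := by
    rw [qx, volume_pi_pi]
    have h3 : ∀ j : Fin n, volume (if j ∈ S then Set.Icc (-(4 * n : ℝ)) (4 * n)
        else Set.Icc (1 - σ) (1 + σ)) = if j ∈ S then ENNReal.ofReal (8 * n)
        else ENNReal.ofReal (2 * σ) := by
      intro j
      split_ifs
      · rw [Real.volume_Icc]; congr 1; ring
      · rw [Real.volume_Icc]; congr 1; ring
    have h3' : ENNReal.ofReal ((8 * n) ^ S.card * (2 * σ) ^ (n - S.card)) =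
        ENNReal.ofReal (8 * n) ^ S.card * ENNReal.ofReal (2 * σ) ^ (n - S.card) := by
      rw [ENNReal.ofReal_mul (by positivity), ENNReal.ofReal_pow (by positivity),
        ENNReal.ofReal_pow (by positivity)]
    rw [h3', Finset.prod_congr rfl fun j _ => h3 j, Finset.prod_ite, Finset.prod_const,
      Finset.prod_const]
    have h4 : (Finset.univ.filter fun j => j ∈ S) = S := by ext; simp
    have h5 : (Finset.univ.filter fun j => j ∉ S).card = n - S.card := by
      have : (Finset.univ.filter fun j => j ∉ S) = Sᶜ := by ext; simp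
      rw [this, Finset.card_compl, Fintype.card_fin]
    rw [h4, h5]
  have hle : S.card ≤ n := by simpa using S.card_le_univ
  rw [h1, h2, ← ENNReal.ofReal_mul (by positivity)]
  apply ENNReal.ofReal_le_ofReal
  have h6 : (8 * n : ℝ) ^ S.card * (2 * σ) ^ (n - S.card) =
      (4 * n / σ) ^ S.card * (2 * σ) ^ n := by
    have : (2 * σ) ^ n = (2 * σ) ^ S.card * (2 * σ) ^ (n - S.card) := by
      rw [← pow_add]; congr 1; omega
    rw [this, ← mul_assoc, ← mul_pow]
    congr 2
    field_simp
    ring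
  rw [h6]
  have h7 : 1 ≤ 4 * n / σ := by
    rw [le_div_iff₀ hσ]
    nlinarith
  have h8 : (4 * n / σ) ^ S.card ≤ (4 * n / σ) ^ 3 := pow_le_pow_right₀ h7 hS
  exact mul_le_mul_of_nonneg_right h8 (by positivity)

private theorem swap_sum {κ : Type} (I : Finset κ) (f : κ → (Fin n → ℝ) → E → ENNReal)
    (hf : ∀ k, Measurable (fun z : (Fin n → ℝ) × E => f k z.1 z.2)) (A : Set (Fin n → ℝ))
    (B : Set E) :
    ∫⁻ x in B, ∫⁻ p in A, ∑ k ∈ I, f k p x = ∫⁻ p in A, ∑ k ∈ I, ∫⁻ x in B, f k p x := by
  have hm : Measurable (fun z : (Fin n → ℝ) × E => ∑ k ∈ I, f k z.1 z.2) :=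
    Finset.measurable_fun_sum _ fun k _ => hf k
  have hsw : AEMeasurable (Function.uncurry fun (x : E) (p : Fin n → ℝ) => ∑ k ∈ I, f k p x)
      ((volume.restrict B).prod (volume.restrict A)) :=
    (hm.comp measurable_swap).aemeasurable
  rw [lintegral_lintegral_swap hsw]
  refine lintegral_congr fun p => ?_
  exact lintegral_finsetSum I fun k _ => (hf k).comp measurable_prodMk_left

private theorem meas_inner {κ : Type} (I : Finset κ) (f : κ → (Fin n → ℝ) → E → ENNReal)
    (hf : ∀ k, Measurable (fun z : (Fin n → ℝ) × E => f k z.1 z.2)) (A : Set (Fin n → ℝ)) :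
    Measurable (fun x : E => ∫⁻ p in A, ∑ k ∈ I, f k p x) := by
  have hm : Measurable (fun z : E × (Fin n → ℝ) => ∑ k ∈ I, f k z.2 z.1) :=
    Finset.measurable_fun_sum _ fun k _ => (hf k).comp measurable_swap
  exact hm.lintegral_prod_right'

private theorem pull {κ : Type} (I : Finset κ) (c d : ENNReal) (B : Set E)
    (f : κ → E → ENNReal) (hf : ∀ k ∈ I, Measurable (f k)) :
    ∫⁻ x in B, c * (d * ∑ k ∈ I, f k x) = c * (d * ∑ k ∈ I, ∫⁻ x in B, f k x) := by
  rw [lintegral_const_mul, lintegral_const_mul, lintegral_finsetSum]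
  · exact hf
  · exact Finset.measurable_fun_sum _ fun k hk => hf k hk
  · exact (Finset.measurable_fun_sum _ fun k hk => hf k hk).const_mul _

private theorem mean_le (hn : 1 ≤ n) (a : Fin n → E) (μ : Fin n → ℝ) (σ : ℝ) (hσ : 0 < σ)
    (hσ1 : σ ≤ 1) (η : ℝ) :
    ∫⁻ p in bx n σ, GG η (sc μ p) a ≤
      ENNReal.ofReal (6912 * n ^ 12 / σ ^ 3) * volume (bx n σ) *
        volume (Metric.ball (0 : E) η) := by
  classical
  have hmeas := meas_hh a μ η
  have hw : Measurable ((Metric.ball (0 : E) η).indicator (1 : E → ENNReal)) :=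
    measurable_one.indicator Metric.isOpen_ball.measurableSet
  -- swap
  have h1 : ∫⁻ p in bx n σ, GG η (sc μ p) a =
      ∫⁻ x in off a, ∫⁻ p in bx n σ, hh η (sc μ p) a x := by
    unfold GG
    exact lintegral_lintegral_swap hmeas.aemeasurable
  -- comparison at each point
  have h2 : ∀ x : E, ∫⁻ p in bx n σ, hh η (sc μ p) a x ≤
      ((small n).card : ENNReal) * ((2 ^ n : ENNReal)⁻¹ * ∑ S ∈ small n,
        ∫⁻ p in qx n σ S, ∑ s : Finset (Fin n), hh η (flip s (sc μ p)) a x) := by
    intro x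
    obtain ⟨S, c, hS1, hc, hS2⟩ := exists_spanner (fun j => μ j • g (x - a j))
    have h3 := comp_aux σ hσ hσ1 (fun j => μ j • g (x - a j)) (fun j => μ j • Dg (x - a j))
      ((Metric.ball (0 : E) η).indicator 1) hw S c hc hS2
    simp only [← hh_eq] at h3
    refine h3.trans ?_
    gcongr
    have h4 : S ∈ small n := by
      rw [small, Finset.mem_filter]
      exact ⟨Finset.mem_univ _, hS1⟩
    have h5 := Finset.single_le_sum (f := fun S => ∫⁻ p in qx n σ S,
      ∑ s : Finset (Fin n), hh η (flip s (sc μ p)) a x) (fun _ _ => bot_le) h4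
    refine le_trans (le_of_eq ?_) h5
    refine lintegral_congr fun p => Finset.sum_congr rfl fun s _ => ?_
    rw [flip_sc]
  -- integrate
  have hmeas2 : ∀ s : Finset (Fin n), Measurable
      (fun z : (Fin n → ℝ) × E => hh η (flip s (sc μ z.1)) a z.2) := by
    intro s
    have : (fun z : (Fin n → ℝ) × E => hh η (flip s (sc μ z.1)) a z.2) =
        (fun z : (Fin n → ℝ) × E => hh η (sc μ z.1) a z.2) ∘
          (fun z : (Fin n → ℝ) × E => (flip s z.1, z.2)) := by
      funext z
      simp only [Function.comp]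
      rw [flip_sc]
    rw [this]
    exact hmeas.comp (((meas_flip s).comp measurable_fst).prodMk measurable_snd)
  have h3 : ∀ S : Finset (Fin n), ∫⁻ x in off a, ∫⁻ p in qx n σ S,
      ∑ s : Finset (Fin n), hh η (flip s (sc μ p)) a x =
      ∫⁻ p in qx n σ S, ∑ s : Finset (Fin n), GG η (flip s (sc μ p)) a := fun S =>
    swap_sum Finset.univ (fun s p x => hh η (flip s (sc μ p)) a x) hmeas2 (qx n σ S) (off a)
  have h4 : ∀ S ∈ small n, ∫⁻ p in qx n σ S, ∑ s : Finset (Fin n), GG η (flip s (sc μ p)) a ≤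
      (((2 ^ n * (3 * n) ^ 3 : ℕ) : ENNReal) * volume (Metric.ball (0 : E) η)) *
        (ENNReal.ofReal ((4 * n / σ) ^ 3) * volume (bx n σ)) := by
    intro S hS
    calc ∫⁻ p in qx n σ S, ∑ s : Finset (Fin n), GG η (flip s (sc μ p)) a
        ≤ ∫⁻ _ in qx n σ S, (((2 ^ n * (3 * n) ^ 3 : ℕ) : ENNReal) *
          volume (Metric.ball (0 : E) η)) := lintegral_mono fun p => sum_GG_le hn _ a η
      _ = (((2 ^ n * (3 * n) ^ 3 : ℕ) : ENNReal) * volume (Metric.ball (0 : E) η)) *
          volume (qx n σ S) := by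
          rw [lintegral_const, Measure.restrict_apply_univ]
      _ ≤ _ := by
          gcongr
          exact vol_qx hn σ hσ hσ1 S (Finset.mem_filter.mp hS).2
  have hc1 : ((small n).card : ENNReal) ≤ ((2 * n ^ 3 : ℕ) : ENNReal) := by
    exact_mod_cast small_card hn
  rw [h1]
  calc ∫⁻ x in off a, ∫⁻ p in bx n σ, hh η (sc μ p) a x
      ≤ ∫⁻ x in off a, ((small n).card : ENNReal) * ((2 ^ n : ENNReal)⁻¹ * ∑ S ∈ small n,
        ∫⁻ p in qx n σ S, ∑ s : Finset (Fin n), hh η (flip s (sc μ p)) a x) :=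
        lintegral_mono fun x => h2 x
    _ = ((small n).card : ENNReal) * ((2 ^ n : ENNReal)⁻¹ * ∑ S ∈ small n,
        ∫⁻ p in qx n σ S, ∑ s : Finset (Fin n), GG η (flip s (sc μ p)) a) := by
        rw [pull (small n) _ _ (off a) (fun S x => ∫⁻ p in qx n σ S,
          ∑ s : Finset (Fin n), hh η (flip s (sc μ p)) a x) fun S _ =>
            meas_inner Finset.univ (fun s p x => hh η (flip s (sc μ p)) a x) hmeas2 (qx n σ S)]
        rw [Finset.sum_congr rfl fun S _ => h3 S]
    _ ≤ ((2 * n ^ 3 : ℕ) : ENNReal) * ((2 ^ n : ENNReal)⁻¹ * (((2 * n ^ 3 : ℕ) : ENNReal) *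
        ((((2 ^ n * (3 * n) ^ 3 : ℕ) : ENNReal) * volume (Metric.ball (0 : E) η)) *
        (ENNReal.ofReal ((4 * n / σ) ^ 3) * volume (bx n σ))))) := by
        gcongr
        refine (Finset.sum_le_card_nsmul _ _ _ h4).trans ?_
        rw [nsmul_eq_mul]
        gcongr
    _ = ENNReal.ofReal (6912 * n ^ 12 / σ ^ 3) * volume (bx n σ) *
        volume (Metric.ball (0 : E) η) := by
        have hne : (2 ^ n : ENNReal) ≠ 0 := by positivity
        have hnt : (2 ^ n : ENNReal) ≠ ⊤ := by finiteness
        have e1 : ((2 ^ n * (3 * n) ^ 3 : ℕ) : ENNReal) =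
            (2 ^ n : ENNReal) * (((3 * n) ^ 3 : ℕ) : ENNReal) := by push_cast; ring
        have e2 : ENNReal.ofReal (6912 * n ^ 12 / σ ^ 3) =
            ((2 * n ^ 3 : ℕ) : ENNReal) * ((2 * n ^ 3 : ℕ) : ENNReal) *
              (((3 * n) ^ 3 : ℕ) : ENNReal) * ENNReal.ofReal ((4 * n / σ) ^ 3) := by
          rw [← ENNReal.ofReal_natCast, ← ENNReal.ofReal_natCast,
            ← ENNReal.ofReal_mul (by positivity), ← ENNReal.ofReal_mul (by positivity),
            ← ENNReal.ofReal_mul (by positivity)]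
          congr 1
          push_cast
          field_simp
          ring
        rw [e1, e2]
        have e3 : (2 ^ n : ENNReal)⁻¹ * (2 ^ n : ENNReal) = 1 := ENNReal.inv_mul_cancel hne hnt
        calc _ = ((2 ^ n : ENNReal)⁻¹ * (2 ^ n : ENNReal)) *
              (((2 * n ^ 3 : ℕ) : ENNReal) * ((2 * n ^ 3 : ℕ) : ENNReal) *
              (((3 * n) ^ 3 : ℕ) : ENNReal) * ENNReal.ofReal ((4 * n / σ) ^ 3) *
              volume (bx n σ) * volume (Metric.ball (0 : E) η)) := by ring
          _ = _ := by rw [e3, one_mul]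

/-- A measurable majorant of the number of nondegenerate equilibria, with its mean over the
boxes. -/
theorem majorant {n : ℕ} (hn : 1 ≤ n) (a : Fin n → E) :
    ∃ G : (Fin n → ℝ) → ENNReal, Measurable G ∧ (∀ q, ((Nd q a).encard : ENNReal) ≤ G q) ∧
      ∀ (μ : Fin n → ℝ) (σ : ℝ), 0 < σ → σ ≤ 1 →
        ∫⁻ p in bx n σ, G (sc μ p) ≤
          ENNReal.ofReal (6912 * n ^ 12 / σ ^ 3) * volume (bx n σ) := by
  classical
  -- the radii
  let η : ℕ → ℝ := fun k => 1 / ((k : ℝ) + 1)
  have hη : ∀ k, 0 < η k := fun k => by positivity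
  have hηlim : Tendsto η atTop (𝓝[>] 0) := by
    rw [tendsto_nhdsWithin_iff]
    exact ⟨tendsto_one_div_add_atTop_nhds_zero_nat, Eventually.of_forall fun k => hη k⟩
  let b : ℕ → ENNReal := fun k => volume (Metric.ball (0 : E) (η k))
  have hb0 : ∀ k, b k ≠ 0 := fun k => (Metric.measure_ball_pos volume (0 : E) (hη k)).ne'
  have hbt : ∀ k, b k ≠ ⊤ := fun k => measure_ball_lt_top.ne
  let G : ℕ → (Fin n → ℝ) → ENNReal := fun k q => GG (η k) q a * (b k)⁻¹
  have hsc1 : ∀ q : Fin n → ℝ, sc (fun _ => 1) q = q := fun q => by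
    funext j
    simp [sc]
  have hGGm : ∀ k, Measurable (fun q : Fin n → ℝ => GG (η k) q a) := by
    intro k
    have h1 : Measurable (fun p : Fin n → ℝ => GG (η k) (sc (fun _ => 1) p) a) := by
      unfold GG
      exact Measurable.lintegral_prod_right' (meas_hh a (fun _ => 1) (η k))
    simpa only [hsc1] using h1
  have hGm : ∀ k, Measurable (G k) := fun k => (hGGm k).mul_const _
  have hscm : ∀ μ : Fin n → ℝ, Measurable (sc μ : (Fin n → ℝ) → _) := by
    intro μ
    rw [measurable_pi_iff]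
    intro j
    unfold sc
    fun_prop
  have hmean : ∀ (μ : Fin n → ℝ) (σ : ℝ), 0 < σ → σ ≤ 1 → ∀ k, ∫⁻ p in bx n σ, G k (sc μ p) ≤
      ENNReal.ofReal (6912 * n ^ 12 / σ ^ 3) * volume (bx n σ) := by
    intro μ σ hσ hσ1 k
    have h1 : Measurable (fun p : Fin n → ℝ => GG (η k) (sc μ p) a) := (hGGm k).comp (hscm μ)
    calc ∫⁻ p in bx n σ, G k (sc μ p) = (∫⁻ p in bx n σ, GG (η k) (sc μ p) a) * (b k)⁻¹ :=
          lintegral_mul_const _ h1
      _ ≤ (ENNReal.ofReal (6912 * n ^ 12 / σ ^ 3) * volume (bx n σ) * b k) * (b k)⁻¹ := by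
          gcongr
          exact mean_le hn a μ σ hσ hσ1 (η k)
      _ = _ := by
          rw [mul_assoc, ENNReal.mul_inv_cancel (hb0 k) (hbt k), mul_one]
  refine ⟨fun q => liminf (fun k => G k q) atTop, Measurable.liminf hGm, ?_, ?_⟩
  · intro q
    -- every natural number below the cardinal is below the lower limit
    have key : ∀ T : ℕ, (T : ℕ∞) ≤ (Nd q a).encard →
        (T : ENNReal) ≤ liminf (fun k => G k q) atTop := by
      intro T hT
      obtain ⟨t, ht1, ht2⟩ := Set.exists_subset_encard_eq hT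
      have htf : t.Finite := Set.finite_of_encard_eq_coe ht2
      have hcard : htf.toFinset.card = T := by
        have h1 := htf.encard_eq_coe_toFinset_card
        rw [ht2] at h1
        exact_mod_cast h1.symm
      have h1 := card_mul_le q a htf.toFinset (fun x hx => ht1 (htf.mem_toFinset.mp hx))
      have h2 := hηlim.eventually h1
      have h3 : ∀ᶠ k in atTop, (T : ENNReal) ≤ G k q := by
        filter_upwards [h2] with k hk
        rw [hcard] at hk
        calc (T : ENNReal) = (T * b k) * (b k)⁻¹ := by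
              rw [mul_assoc, ENNReal.mul_inv_cancel (hb0 k) (hbt k), mul_one]
          _ ≤ G k q := by
              simp only [G]
              gcongr
      exact le_liminf_of_le (by isBoundedDefault) h3
    rcases eq_or_ne (Nd q a).encard ⊤ with h | h
    · rw [h, ENat.toENNReal_top, top_le_iff]
      refine ENNReal.eq_top_of_forall_nnreal_le fun r => ?_
      obtain ⟨N, hN⟩ := exists_nat_ge r
      have h2 := key N (by rw [h]; exact le_top)
      refine le_trans ?_ h2
      exact_mod_cast hN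
    · obtain ⟨N, hN⟩ := ENat.ne_top_iff_exists.mp h
      have h2 := key N hN.le
      rw [← hN]
      simpa using h2
  · intro μ σ hσ hσ1
    have h1 : ∀ k, Measurable (fun p : Fin n → ℝ => G k (sc μ p)) := fun k =>
      (hGm k).comp (hscm μ)
    refine (lintegral_liminf_le h1).trans ?_
    exact liminf_le_of_frequently_le' (Frequently.of_forall fun k => hmean μ σ hσ hσ1 k)

end ST992
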