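import Mathlib

/-!
A Bezout inequality for non-degenerate real zeros: a system of `#ι` real polynomials in `#ι`
variables of total degrees at most `d i` has at most `∏ d i` zeros at which its derivative is
injective.
-/

set_option autoImplicit false

noncomputable section

namespace Pool.Agent.Work.MP_992d6e_an.ST

open MvPolynomial Module Filter Topology

variable {ι : Type} [Fintype ι] [DecidableEq ι]

/-- The operator `X^β ↦ X^(β - d i e i) * f i` (zero on reduced monomials). -/
private def shiftOp (f : ι → MvPolynomial ι ℝ) (d : ι → ℕ) :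
    MvPolynomial ι ℝ →ₗ[ℝ] MvPolynomial ι ℝ := by
  classical
  exact (basisMonomials ι ℝ).constr ℝ (fun β : ι →₀ ℕ =>
    if h : ∃ i, d i ≤ β i then
      monomial (β - Finsupp.single h.choose (d h.choose)) 1 * f h.choose
    else 0)

private lemma shiftOp_of (f : ι → MvPolynomial ι ℝ) (d : ι → ℕ) (β : ι →₀ ℕ)
    (h : ∃ i, d i ≤ β i) :
    ∃ i, d i ≤ β i ∧ shiftOp f d (monomial β 1) =
      monomial (β - Finsupp.single i (d i)) 1 * f i := by
  classical
  refine ⟨h.choose, h.choose_spec, ?_⟩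
  have h1 : (monomial β (1 : ℝ) : MvPolynomial ι ℝ) = basisMonomials ι ℝ β := by
    rw [coe_basisMonomials]
  rw [h1, shiftOp, Basis.constr_basis, dif_pos h]

private lemma shiftOp_not (f : ι → MvPolynomial ι ℝ) (d : ι → ℕ) (β : ι →₀ ℕ)
    (h : ¬ ∃ i, d i ≤ β i) :
    shiftOp f d (monomial β 1) = 0 := by
  classical
  have h1 : (monomial β (1 : ℝ) : MvPolynomial ι ℝ) = basisMonomials ι ℝ β := by
    rw [coe_basisMonomials]
  rw [h1, shiftOp, Basis.constr_basis, dif_neg h]

private lemma monomial_degree_le {D : ℕ} (β : ι →₀ ℕ) (hβ : β.degree ≤ D) :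
    (monomial β (1 : ℝ)) ∈ restrictTotalDegree ι ℝ D := by
  rw [mem_restrictTotalDegree]
  rw [totalDegree_monomial _ one_ne_zero]
  simpa [Finsupp.degree, Finsupp.sum] using hβ

private lemma mem_span (D : ℕ) : restrictTotalDegree ι ℝ D =
    Submodule.span ℝ ((fun β : ι →₀ ℕ => (monomial β (1 : ℝ) : MvPolynomial ι ℝ)) ''
      {β | β.degree ≤ D}) := by
  apply le_antisymm
  · intro p hp
    rw [mem_restrictTotalDegree] at hp
    rw [p.as_sum]
    refine Submodule.sum_mem _ (fun β hβ => ?_)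
    have h1 : (monomial β (coeff β p) : MvPolynomial ι ℝ) = coeff β p • monomial β (1 : ℝ) := by
      rw [smul_monomial]; simp
    rw [h1]
    refine Submodule.smul_mem _ _ (Submodule.subset_span ⟨β, ?_, rfl⟩)
    have h2 := le_totalDegree hβ
    simp only [Set.mem_ofPred_eq]
    refine le_trans ?_ hp
    simpa [Finsupp.degree, Finsupp.sum] using h2
  · rw [Submodule.span_le]
    rintro _ ⟨β, hβ, rfl⟩
    exact monomial_degree_le β hβ

private lemma shiftOp_mem (f : ι → MvPolynomial ι ℝ) (d : ι → ℕ)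
    (hd : ∀ i, (f i).totalDegree ≤ d i) (D : ℕ) (p : MvPolynomial ι ℝ)
    (hp : p ∈ restrictTotalDegree ι ℝ D) : shiftOp f d p ∈ restrictTotalDegree ι ℝ D := by
  rw [mem_span] at hp
  induction hp using Submodule.span_induction with
  | mem x hx =>
    obtain ⟨β, hβ, rfl⟩ := hx
    simp only [Set.mem_ofPred_eq] at hβ
    by_cases h : ∃ i, d i ≤ β i
    · obtain ⟨i, hi, he⟩ := shiftOp_of f d β h
      dsimp only
      rw [he, mem_restrictTotalDegree]
      refine (totalDegree_mul _ _).trans ?_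
      rw [totalDegree_monomial _ one_ne_zero]
      have h1 : (β - Finsupp.single i (d i)) + Finsupp.single i (d i) = β := by
        ext j
        by_cases hj : j = i
        · subst hj; simp [hi]
        · simp [Ne.symm hj]
      have h2 : (β - Finsupp.single i (d i)).degree + d i = β.degree := by
        conv_rhs => rw [← h1]
        simp
      have h3 : ((β - Finsupp.single i (d i)).sum fun _ e => e) =
          (β - Finsupp.single i (d i)).degree := by
        simp [Finsupp.degree, Finsupp.sum]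
      rw [h3]
      have := hd i
      omega
    · dsimp only
      rw [shiftOp_not f d β h]
      exact Submodule.zero_mem _
  | zero => simp
  | add x y _ _ hx hy => rw [map_add]; exact Submodule.add_mem _ hx hy
  | smul c x _ hx => rw [map_smul]; exact Submodule.smul_mem _ _ hx

/-- The operator on polynomials of total degree at most `D`. -/
private def shiftR (f : ι → MvPolynomial ι ℝ) (d : ι → ℕ)
    (hd : ∀ i, (f i).totalDegree ≤ d i) (D : ℕ) :
    Module.End ℝ (restrictTotalDegree ι ℝ D) :=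
  (shiftOp f d).restrict (fun p hp => shiftOp_mem f d hd D p hp)

/-- Evaluation at the points of a finite set. -/
private def evY (Y : Finset (ι → ℝ)) : MvPolynomial ι ℝ →ₗ[ℝ] (Y → ℝ) :=
  LinearMap.pi (fun y => (MvPolynomial.aeval (y : ι → ℝ)).toLinearMap)

private lemma evY_apply (Y : Finset (ι → ℝ)) (p : MvPolynomial ι ℝ) (y : Y) :
    evY Y p y = MvPolynomial.eval (y : ι → ℝ) p := by
  simp [evY, MvPolynomial.aeval_eq_eval]

/-- Interpolation: polynomials of degree `≤ D` separate at most `D + 1` points. -/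
private lemma evY_surj (Y : Finset (ι → ℝ)) (D : ℕ) (hY : Y.card ≤ D + 1) :
    ((restrictTotalDegree ι ℝ D).map (evY Y)) = ⊤ := by
  classical
  rw [eq_top_iff]
  intro v _
  -- Lagrange polynomials
  have hex : ∀ y z : ι → ℝ, ∃ l : MvPolynomial ι ℝ, l.totalDegree ≤ 1 ∧
      MvPolynomial.eval z l = 0 ∧ (y ≠ z → MvPolynomial.eval y l = 1) := by
    intro y z
    by_cases h : y = z
    · exact ⟨0, by simp, by simp, fun h' => absurd h h'⟩
    · obtain ⟨i, hi⟩ := Function.ne_iff.mp h
      refine ⟨C (y i - z i)⁻¹ * (X i - C (z i)), ?_, by simp, fun _ => ?_⟩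
      · refine (totalDegree_mul _ _).trans ?_
        rw [totalDegree_C, zero_add]
        refine (totalDegree_sub _ _).trans ?_
        simp [totalDegree_X]
      · have : y i - z i ≠ 0 := sub_ne_zero.mpr hi
        simp [this]
  choose l hl1 hl2 hl3 using hex
  let L : Y → MvPolynomial ι ℝ := fun y => ∏ z ∈ Y.erase y, l y z
  have hL1 : ∀ y : Y, (L y).totalDegree ≤ D := by
    intro y
    refine (totalDegree_finsetProd _ _).trans ?_
    refine (Finset.sum_le_card_nsmul _ _ 1 (fun z _ => hl1 _ _)).trans ?_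
    rw [Finset.card_erase_of_mem y.2]
    simp
    omega
  have hL2 : ∀ y z : Y, MvPolynomial.eval (z : ι → ℝ) (L y) = if y = z then 1 else 0 := by
    intro y z
    simp only [L]
    rw [map_prod]
    split_ifs with h
    · subst h
      refine Finset.prod_eq_one (fun w hw => ?_)
      exact hl3 _ _ (Finset.ne_of_mem_erase hw).symm
    · refine Finset.prod_eq_zero (i := (z : ι → ℝ)) ?_ (hl2 _ _)
      rw [Finset.mem_erase]
      exact ⟨fun h' => h (Subtype.ext h'.symm), z.2⟩
  refine ⟨∑ y : Y, v y • L y, ?_, ?_⟩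
  · refine Submodule.sum_mem _ (fun y _ => Submodule.smul_mem _ _ ?_)
    rw [mem_restrictTotalDegree]
    exact hL1 y
  · ext z
    rw [map_sum]
    simp only [map_smul, Finset.sum_apply, Pi.smul_apply, evY_apply, smul_eq_mul, hL2]
    simp

/-- The reduced exponents. -/
private def redExp (d : ι → ℕ) : Finset (ι →₀ ℕ) := by
  classical
  exact (Finset.univ : Finset ((i : ι) → Fin (d i))).image
    (fun b => Finsupp.equivFunOnFinite.symm (fun i => (b i : ℕ)))

private lemma redExp_card (d : ι → ℕ) : (redExp d).card ≤ ∏ i, d i := by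
  classical
  refine Finset.card_image_le.trans ?_
  rw [Finset.card_univ, Fintype.card_pi]
  simp

private lemma mem_redExp (d : ι → ℕ) (β : ι →₀ ℕ) (h : ¬ ∃ i, d i ≤ β i) : β ∈ redExp d := by
  classical
  push Not at h
  rw [redExp, Finset.mem_image]
  refine ⟨fun i => ⟨β i, h i⟩, Finset.mem_univ _, ?_⟩
  ext i
  simp

/-- The algebraic part: common zeros of the perturbed system. -/
private lemma card_le_of_not_eigen (f : ι → MvPolynomial ι ℝ) (d : ι → ℕ)
    (hd : ∀ i, (f i).totalDegree ≤ d i) (D : ℕ) (s : ℝ)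
    (hs : ¬ (shiftR f d hd D).HasEigenvalue (-s)) (Y : Finset (ι → ℝ)) (hY : Y.card ≤ D + 1)
    (h0 : ∀ y ∈ Y, ∀ i, MvPolynomial.eval y (f i) + s * y i ^ d i = 0) :
    Y.card ≤ ∏ i, d i := by
  classical
  set W := restrictTotalDegree ι ℝ D
  set N := shiftR f d hd D
  -- `N + s` is surjective
  have hinj : Function.Injective (N + s • (1 : Module.End ℝ W)) := by
    rw [injective_iff_map_eq_zero]
    intro w hw
    by_contra hne
    apply hs
    apply Module.End.hasEigenvalue_of_hasEigenvector (x := w)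
    refine ⟨?_, hne⟩
    rw [Module.End.mem_eigenspace_iff]
    simp only [LinearMap.add_apply, LinearMap.smul_apply, Module.End.one_apply] at hw
    rw [neg_smul]
    exact eq_neg_of_add_eq_zero_left hw
  have hsurj : Function.Surjective (N + s • (1 : Module.End ℝ W)) :=
    LinearMap.surjective_of_injective hinj
  -- the range of evaluation is spanned by the reduced monomials
  set R : Submodule ℝ (Y → ℝ) := Submodule.span ℝ
    (((redExp d).image (fun β => evY Y (monomial β (1 : ℝ)))) : Finset (Y → ℝ))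
  have hkey : ∀ p : MvPolynomial ι ℝ, p ∈ W → evY Y (shiftOp f d p + s • p) ∈ R := by
    intro p hp
    rw [show W = _ from mem_span D] at hp
    induction hp using Submodule.span_induction with
    | mem x hx =>
      obtain ⟨β, hβ, rfl⟩ := hx
      dsimp only
      by_cases h : ∃ i, d i ≤ β i
      · obtain ⟨i, hi, he⟩ := shiftOp_of f d β h
        have h1 : (monomial β (1 : ℝ) : MvPolynomial ι ℝ) =
            monomial (β - Finsupp.single i (d i)) 1 * X i ^ d i := by
          rw [X_pow_eq_monomial, monomial_mul, one_mul]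
          have h3 : β - Finsupp.single i (d i) + Finsupp.single i (d i) = β := by
            ext j
            by_cases hj : j = i
            · subst hj; simp [hi]
            · simp [Ne.symm hj]
          rw [h3]
        have h2 : evY Y (shiftOp f d (monomial β 1) + s • monomial β (1 : ℝ)) = 0 := by
          ext y
          rw [evY_apply, he]
          conv_lhs => rw [h1]
          rw [map_add, MvPolynomial.smul_eval, map_mul, map_mul, map_pow, eval_X]
          have := h0 y y.2 i
          simp only [Pi.zero_apply]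
          linear_combination (MvPolynomial.eval (y : ι → ℝ)
            (monomial (β - Finsupp.single i (d i)) (1 : ℝ))) * this
        rw [h2]
        exact Submodule.zero_mem _
      · rw [shiftOp_not f d β h, zero_add, map_smul]
        refine Submodule.smul_mem _ _ (Submodule.subset_span ?_)
        rw [Finset.coe_image]
        exact ⟨β, mem_redExp d β h, rfl⟩
    | zero => simp
    | add x y _ _ hx hy =>
      have : shiftOp f d (x + y) + s • (x + y) =
          (shiftOp f d x + s • x) + (shiftOp f d y + s • y) := by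
        rw [map_add, smul_add]; abel
      rw [this, map_add]
      exact Submodule.add_mem _ hx hy
    | smul c x _ hx =>
      have : shiftOp f d (c • x) + s • (c • x) = c • (shiftOp f d x + s • x) := by
        rw [map_smul, smul_add, smul_comm]
      rw [this, map_smul]
      exact Submodule.smul_mem _ _ hx
  have htop : R = ⊤ := by
    rw [eq_top_iff, ← evY_surj Y D hY]
    rintro _ ⟨p, hp, rfl⟩
    obtain ⟨u, hu⟩ := hsurj ⟨p, hp⟩
    have h1 : p = shiftOp f d u.1 + s • u.1 := by
      have := congrArg Subtype.val hu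
      simpa [N, shiftR] using this.symm
    rw [h1]
    exact hkey u.1 u.2
  have h1 : finrank ℝ R ≤ ((redExp d).image (fun β => evY Y (monomial β (1 : ℝ)))).card :=
    finrank_span_finset_le_card _
  rw [htop, finrank_top, finrank_fintype_fun_eq_card, Fintype.card_coe] at h1
  exact h1.trans (Finset.card_image_le.trans (redExp_card d))

/-- The analytic part: non-degenerate zeros persist. -/
private lemma persist (F : (ι → ℝ) → (ι → ℝ)) (d : ι → ℕ) (z : ι → ℝ) (h0 : F z = 0)
    (L : (ι → ℝ) →L[ℝ] (ι → ℝ)) (hL : Function.Injective L) (hF : HasStrictFDerivAt F L z)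
    (U : Set (ι → ℝ)) (hU : U ∈ 𝓝 z) :
    ∀ᶠ s : ℝ in 𝓝 0, ∃ y ∈ U, ∀ i, F y i + s * y i ^ d i = 0 := by
  classical
  let Ψ : (ι → ℝ) × ℝ → (ι → ℝ) × ℝ := fun p => (fun i => F p.1 i + p.2 * p.1 i ^ d i, p.2)
  have hpow : ContDiff ℝ 1 (fun p : (ι → ℝ) × ℝ => (fun i => p.2 * p.1 i ^ d i : ι → ℝ)) := by
    rw [contDiff_pi]
    intro i
    fun_prop
  obtain ⟨G, hG⟩ : ∃ G, HasStrictFDerivAt
      (fun p : (ι → ℝ) × ℝ => (fun i => p.2 * p.1 i ^ d i : ι → ℝ)) G (z, 0) :=
    ⟨_, hpow.contDiffAt.hasStrictFDerivAt (by norm_num)⟩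
  have hG' : ∀ v : ι → ℝ, G (v, 0) = 0 := by
    intro v
    -- derivative along the curve (z + t v, 0)
    have hc : HasDerivAt (fun t : ℝ => ((z + t • v, (0 : ℝ)) : (ι → ℝ) × ℝ)) (v, 0) 0 := by
      refine HasDerivAt.prodMk ?_ (hasDerivAt_const _ _)
      have := ((hasDerivAt_id (0 : ℝ)).smul_const v).const_add z
      simpa using this
    have h2 := HasFDerivAt.comp_hasDerivAt_of_eq (0 : ℝ) hG.hasFDerivAt hc (by simp)
    have h3 : ((fun p : (ι → ℝ) × ℝ => (fun i => p.2 * p.1 i ^ d i : ι → ℝ)) ∘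
        fun t : ℝ => ((z + t • v, (0 : ℝ)) : (ι → ℝ) × ℝ)) = fun _ => (0 : ι → ℝ) := by
      funext t
      funext i
      simp
    rw [h3] at h2
    exact h2.unique (hasDerivAt_const _ _)
  have hΨ : HasStrictFDerivAt Ψ
      (((L.comp (ContinuousLinearMap.fst ℝ (ι → ℝ) ℝ)) + G).prod
        (ContinuousLinearMap.snd ℝ (ι → ℝ) ℝ)) (z, 0) := by
    have h1 : HasStrictFDerivAt (fun p : (ι → ℝ) × ℝ => F p.1)
        (L.comp (ContinuousLinearMap.fst ℝ (ι → ℝ) ℝ)) (z, 0) :=
      HasStrictFDerivAt.comp (z, (0 : ℝ)) (g := F) hF hasStrictFDerivAt_fst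
    exact (h1.add hG).prodMk hasStrictFDerivAt_snd
  have hLs : Function.Surjective L := by
    have : Function.Surjective (L : (ι → ℝ) →ₗ[ℝ] (ι → ℝ)) :=
      LinearMap.surjective_of_injective hL
    exact this
  have hr : ((((L.comp (ContinuousLinearMap.fst ℝ (ι → ℝ) ℝ)) + G).prod
        (ContinuousLinearMap.snd ℝ (ι → ℝ) ℝ) :
          (ι → ℝ) × ℝ →L[ℝ] (ι → ℝ) × ℝ) : (ι → ℝ) × ℝ →ₗ[ℝ] (ι → ℝ) × ℝ).range = ⊤ := by
    rw [LinearMap.range_eq_top]
    rintro ⟨u, t⟩
    obtain ⟨v, hv⟩ := hLs (u - G (0, t))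
    refine ⟨(v, t), ?_⟩
    have h1 : G (v, t) = G (0, t) := by
      have : ((v, t) : (ι → ℝ) × ℝ) = (v, 0) + (0, t) := by simp
      rw [this, map_add, hG', zero_add]
    simp [hv, h1]
  have hmap := hΨ.map_nhds_eq_of_surj hr
  have hΨ0 : Ψ (z, 0) = (0, 0) := by
    simp only [Ψ, h0]
    ext i <;> simp
  rw [hΨ0] at hmap
  have hUn : (U ×ˢ (Set.univ : Set ℝ)) ∈ 𝓝 ((z, (0 : ℝ)) : (ι → ℝ) × ℝ) := by
    rw [nhds_prod_eq]
    exact prod_mem_prod hU univ_mem
  have him : Ψ '' (U ×ˢ (Set.univ : Set ℝ)) ∈ 𝓝 ((0, 0) : (ι → ℝ) × ℝ) := by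
    rw [← hmap]
    exact image_mem_map hUn
  have hcont : Tendsto (fun s : ℝ => ((0, s) : (ι → ℝ) × ℝ)) (𝓝 0) (𝓝 (0, 0)) := by
    have : Continuous (fun s : ℝ => ((0, s) : (ι → ℝ) × ℝ)) := by fun_prop
    exact this.tendsto 0
  filter_upwards [hcont him] with s hs
  obtain ⟨⟨y, s'⟩, ⟨hy, _⟩, he⟩ := hs
  simp only [Ψ, Prod.mk.injEq] at he
  obtain ⟨he1, he2⟩ := he
  subst he2
  exact ⟨y, hy, fun i => congrFun he1 i⟩

/-- **Bezout inequality** for non-degenerate real zeros. -/
theorem card_nondeg_zeros_le (f : ι → MvPolynomial ι ℝ) (d : ι → ℕ)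
    (hd : ∀ i, (f i).totalDegree ≤ d i) (Z : Finset (ι → ℝ))
    (h0 : ∀ z ∈ Z, ∀ i, MvPolynomial.eval z (f i) = 0)
    (hn : ∀ z ∈ Z, ∃ L : (ι → ℝ) →L[ℝ] (ι → ℝ), Function.Injective L ∧
      HasStrictFDerivAt (fun y : ι → ℝ => fun i => MvPolynomial.eval y (f i)) L z) :
    Z.card ≤ ∏ i, d i := by
  classical
  obtain ⟨U, hU1, hU2⟩ := Z.finite_toSet.t2_separation
  have hev : ∀ᶠ s : ℝ in 𝓝 0, ∀ z ∈ Z, ∃ y ∈ U z,
      ∀ i, MvPolynomial.eval y (f i) + s * y i ^ d i = 0 := by
    rw [Filter.eventually_all_finset]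
    intro z hz
    obtain ⟨L, hL, hF⟩ := hn z hz
    exact persist (fun y i => MvPolynomial.eval y (f i)) d z (funext fun i => h0 z hz i) L hL hF
      (U z) ((hU1 z).2.mem_nhds (hU1 z).1)
  have hfin : {s : ℝ | (shiftR f d hd Z.card).HasEigenvalue (-s)}.Finite := by
    have h1 := Module.End.finite_hasEigenvalue (shiftR f d hd Z.card)
    have h2 : {s : ℝ | (shiftR f d hd Z.card).HasEigenvalue (-s)} =
        (fun s : ℝ => -s) ⁻¹' {μ | (shiftR f d hd Z.card).HasEigenvalue μ} := rfl
    rw [h2]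
    exact h1.preimage (neg_injective.injOn)
  -- choose a good small parameter
  obtain ⟨s, hs1, hs2⟩ : ∃ s : ℝ, (∀ z ∈ Z, ∃ y ∈ U z,
      ∀ i, MvPolynomial.eval y (f i) + s * y i ^ d i = 0) ∧
      ¬ (shiftR f d hd Z.card).HasEigenvalue (-s) := by
    by_contra hcon
    push Not at hcon
    have hsub : {s : ℝ | ∀ z ∈ Z, ∃ y ∈ U z,
        ∀ i, MvPolynomial.eval y (f i) + s * y i ^ d i = 0} ⊆
        {s : ℝ | (shiftR f d hd Z.card).HasEigenvalue (-s)} := fun s hs => hcon s hs
    have hmem : {s : ℝ | ∀ z ∈ Z, ∃ y ∈ U z,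
        ∀ i, MvPolynomial.eval y (f i) + s * y i ^ d i = 0} ∈ 𝓝 (0 : ℝ) := hev
    exact (infinite_of_mem_nhds (0 : ℝ) hmem) (hfin.subset hsub)
  choose! g hg1 hg2 using hs1
  have hinj : Set.InjOn g Z := by
    intro z hz w hw hzw
    by_contra hne
    have := hU2 hz hw hne
    exact Set.disjoint_left.mp this (hg1 z hz) (hzw ▸ hg1 w hw)
  have hcard : (Z.image g).card = Z.card := Finset.card_image_of_injOn hinj
  rw [← hcard]
  refine card_le_of_not_eigen f d hd Z.card s hs2 (Z.image g) (by omega) ?_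
  intro y hy i
  obtain ⟨z, hz, rfl⟩ := Finset.mem_image.mp hy
  exact hg2 z hz i

end Pool.Agent.Work.MP_992d6e_an.ST
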