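import Pool.Agent.Work.MP_992d6e_an.ST.Defs

/-!
MODULE Four (M): a cubic polynomial in signs is controlled by its mean (Walsh expansion).

(1) `small_card`: `#{A ⊆ Fin n : |A| ≤ 3} = 1 + n + C(n,2) + C(n,3) ≤ 2 n^3` for `n ≥ 1`.
(2) `det_le`: write `χ_A(s) = (-1)^|A ∩ s|`. `φ(s) = det (B0 + Σ_j (flip s p)_j B_j)` is a combination
of products `ε_a ε_b ε_c`, `a b c : Option (Fin n)`, `ε_none = 1`, `ε_j = -1` iff `j ∈ s` (the determinant of a
3 x 3 matrix is trilinear in its rows: expand with `MultilinearMap.map_sum` or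
by hand from `Matrix.det_fin_three` in an orthonormal basis), each of these products is a character `χ_A`
with `|A| ≤ 3`. Since `2^(-n) Σ_s χ_A(s) χ_B(s) = [A = B]`, for such `φ`
`φ(∅) = 2^(-n) Σ_s φ(s) K(s)`, `K = Σ_{|A| ≤ 3} χ_A`, and `|K| ≤ #small n`.
-/

set_option autoImplicit false

namespace ST992

open SM992 (E)

theorem small_card {n : ℕ} (hn : 1 ≤ n) : (small n).card ≤ 2 * n ^ 3 := by
  classical
  have h1 : small n ⊆ insert ∅ ((Finset.univ : Finset (Fin n × Fin n × Fin n)).image
      fun t => {t.1, t.2.1, t.2.2}) := by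
    intro A hA
    have hA' : A.card ≤ 3 := (Finset.mem_filter.1 hA).2
    rw [Finset.mem_insert, Finset.mem_image]
    interval_cases h : A.card
    · left
      exact Finset.card_eq_zero.1 h
    · right
      obtain ⟨x, rfl⟩ := Finset.card_eq_one.1 h
      exact ⟨(x, x, x), Finset.mem_univ _, by simp⟩
    · right
      obtain ⟨x, y, -, rfl⟩ := Finset.card_eq_two.1 h
      exact ⟨(x, x, y), Finset.mem_univ _, by simp⟩
    · right
      obtain ⟨x, y, z, -, -, -, rfl⟩ := Finset.card_eq_three.1 h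
      exact ⟨(x, y, z), Finset.mem_univ _, rfl⟩
  have h2 := (Finset.card_le_card h1).trans ((Finset.card_insert_le _ _).trans
    (Nat.add_le_add_right Finset.card_image_le 1))
  rw [Finset.card_univ, Fintype.card_prod, Fintype.card_prod, Fintype.card_fin] at h2
  have h3 : 1 ≤ n ^ 3 := Nat.one_le_pow _ _ hn
  have h4 : n * (n * n) = n ^ 3 := by ring
  omega

/-- characters -/
private def foc {n : ℕ} (A s : Finset (Fin n)) : ℝ := ∏ j ∈ s, if j ∈ A then -1 else 1

private theorem foc_mul {n : ℕ} (A B : Finset (Fin n)) : foc A * foc B = foc (symmDiff A B) := by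
  funext s
  show foc A s * foc B s = foc (symmDiff A B) s
  unfold foc
  rw [← Finset.prod_mul_distrib]
  refine Finset.prod_congr rfl fun j _ => ?_
  by_cases h1 : j ∈ A <;> by_cases h2 : j ∈ B <;> simp [Finset.mem_symmDiff, h1, h2]

private theorem foc_sum {n : ℕ} (C : Finset (Fin n)) :
    ∑ s : Finset (Fin n), foc C s = if C = ∅ then 2 ^ n else 0 := by
  have h1 : ∑ s : Finset (Fin n), foc C s =
      ∏ j : Fin n, (1 + (if j ∈ C then (-1 : ℝ) else 1)) := by
    rw [Finset.prod_one_add, Finset.powerset_univ]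
    rfl
  rw [h1]
  split_ifs with h
  · subst h
    simp
    norm_num
  · obtain ⟨j, hj⟩ := Finset.nonempty_iff_ne_empty.2 h
    refine Finset.prod_eq_zero (Finset.mem_univ j) ?_
    rw [if_pos hj]
    norm_num

private theorem foc_abs {n : ℕ} (A s : Finset (Fin n)) : |foc A s| = 1 := by
  unfold foc
  rw [Finset.abs_prod]
  refine Finset.prod_eq_one fun j _ => ?_
  split_ifs <;> norm_num

private theorem foc_empty {n : ℕ} (A : Finset (Fin n)) : foc A ∅ = 1 := by
  unfold foc
  simp

private def foS (n d : ℕ) : Submodule ℝ (Finset (Fin n) → ℝ) :=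
  Submodule.span ℝ (foc '' {A | A.card ≤ d})

private theorem foS_mul {n d e : ℕ} {f g : Finset (Fin n) → ℝ} (hf : f ∈ foS n d)
    (hg : g ∈ foS n e) : f * g ∈ foS n (d + e) := by
  have h1 : foS n d * foS n e ≤ foS n (d + e) := by
    unfold foS
    rw [Submodule.span_mul_span, Submodule.span_le]
    rintro _ ⟨_, ⟨A, hA, rfl⟩, _, ⟨B, hB, rfl⟩, rfl⟩
    refine Submodule.subset_span ⟨symmDiff A B, ?_, (foc_mul A B).symm⟩
    have h2 : (symmDiff A B).card ≤ (A ∪ B).card := Finset.card_le_card fun x hx => by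
      rw [Finset.mem_symmDiff] at hx
      rw [Finset.mem_union]
      tauto
    have h3 := Finset.card_union_le A B
    have hA' : A.card ≤ d := hA
    have hB' : B.card ≤ e := hB
    show (symmDiff A B).card ≤ d + e
    omega
  exact h1 (Submodule.mul_mem_mul hf hg)

private theorem foS_key {n : ℕ} {f : Finset (Fin n) → ℝ} (hf : f ∈ foS n 3) :
    f ∅ = (2 ^ n : ℝ)⁻¹ * ∑ s, f s * ∑ A ∈ small n, foc A s := by
  classical
  unfold foS at hf
  induction hf using Submodule.span_induction with
  | mem x hx =>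
    obtain ⟨B, hB, rfl⟩ := hx
    have hB' : B ∈ small n := Finset.mem_filter.2 ⟨Finset.mem_univ _, hB⟩
    have h1 : ∑ s, foc B s * ∑ A ∈ small n, foc A s = 2 ^ n := by
      simp only [Finset.mul_sum]
      rw [Finset.sum_comm]
      have h2 : ∀ A ∈ small n, ∑ s, foc B s * foc A s = if A = B then (2 : ℝ) ^ n else 0 := by
        intro A _
        have h3 : ∀ s, foc B s * foc A s = foc (symmDiff B A) s := fun s =>
          congrFun (foc_mul B A) s
        simp only [h3]
        rw [foc_sum]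
        have h4 : symmDiff B A = ∅ ↔ A = B := by
          rw [← Finset.bot_eq_empty, symmDiff_eq_bot]
          exact eq_comm
        simp only [h4]
      rw [Finset.sum_congr rfl h2, Finset.sum_ite_eq' (small n) B, if_pos hB']
    rw [h1, foc_empty]
    have : (2 : ℝ) ^ n ≠ 0 := by positivity
    rw [inv_mul_cancel₀ this]
  | zero => simp
  | add x y _ _ hx hy =>
    simp only [Pi.add_apply, add_mul, Finset.sum_add_distrib, mul_add]
    rw [hx, hy]
  | smul c x _ hx =>
    simp only [Pi.smul_apply, smul_eq_mul, mul_assoc]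
    rw [hx, ← Finset.mul_sum]
    ring

private theorem foS_one {n : ℕ} (c : ℝ) : (fun _ => c : Finset (Fin n) → ℝ) ∈ foS n 1 := by
  have h1 : (fun _ => c : Finset (Fin n) → ℝ) = c • foc ∅ := by
    funext s
    simp [foc]
  rw [h1]
  exact Submodule.smul_mem _ _ (Submodule.subset_span ⟨∅, by simp, rfl⟩)

private theorem foS_flip {n : ℕ} (p : Fin n → ℝ) (j : Fin n) :
    (fun s => flip s p j) ∈ foS n 1 := by
  have h1 : (fun s => flip s p j) = p j • foc {j} := by
    funext s
    show flip s p j = p j * foc {j} s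
    unfold foc flip
    by_cases h : j ∈ s
    · rw [if_pos h]
      have h2 : ∏ i ∈ s, (if i ∈ ({j} : Finset (Fin n)) then (-1 : ℝ) else 1) = -1 := by
        rw [Finset.prod_eq_single j]
        · simp
        · intro b _ hb
          simp [hb]
        · intro hj
          exact absurd h hj
      rw [h2]
      ring
    · rw [if_neg h]
      have h2 : ∏ i ∈ s, (if i ∈ ({j} : Finset (Fin n)) then (-1 : ℝ) else 1) = 1 := by
        refine Finset.prod_eq_one fun i hi => ?_
        have : i ≠ j := fun hij => h (hij ▸ hi)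
        simp [this]
      rw [h2]
      ring
  rw [h1]
  exact Submodule.smul_mem _ _ (Submodule.subset_span ⟨{j}, by simp, rfl⟩)

theorem det_le {n : ℕ} (B0 : E →L[ℝ] E) (B : Fin n → (E →L[ℝ] E)) (p : Fin n → ℝ) :
    |(B0 + ∑ j, p j • B j).det| ≤
      ((small n).card : ℝ) * ((2 ^ n : ℝ)⁻¹ *
        ∑ s : Finset (Fin n), |(B0 + ∑ j, (flip s p) j • B j).det|) := by
  classical
  set φ : Finset (Fin n) → ℝ := fun s => (B0 + ∑ j, (flip s p) j • B j).det with hφ
  have hp : flip ∅ p = p := by
    funext j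
    simp [flip]
  have h0 : (B0 + ∑ j, p j • B j).det = φ ∅ := by
    rw [hφ]
    simp only [hp]
  set b := (EuclideanSpace.basisFun (Fin 3) ℝ).toBasis with hb
  have hent : ∀ k l : Fin 3, (fun s => (LinearMap.toMatrix b b
      (B0 + ∑ j, (flip s p) j • B j : E →L[ℝ] E).toLinearMap) k l) ∈ foS n 1 := by
    intro k l
    have h1 : (fun s => (LinearMap.toMatrix b b
        (B0 + ∑ j, (flip s p) j • B j : E →L[ℝ] E).toLinearMap) k l) =
        (fun _ => LinearMap.toMatrix b b B0.toLinearMap k l) +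
          ∑ j, LinearMap.toMatrix b b (B j).toLinearMap k l • (fun s => flip s p j) := by
      funext s
      simp only [Pi.add_apply, Finset.sum_apply, Pi.smul_apply, smul_eq_mul]
      have h2 : (B0 + ∑ j, (flip s p) j • B j : E →L[ℝ] E).toLinearMap =
          B0.toLinearMap + ∑ j, (flip s p) j • (B j).toLinearMap := by
        ext v
        simp
      rw [h2, map_add, map_sum]
      simp only [map_smul, Matrix.add_apply, Matrix.sum_apply, Matrix.smul_apply, smul_eq_mul]
      congr 1
      exact Finset.sum_congr rfl fun j _ => mul_comm _ _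
    rw [h1]
    exact Submodule.add_mem _ (foS_one _) (Submodule.sum_mem _ fun j _ =>
      Submodule.smul_mem _ _ (foS_flip p j))
  have hmem : φ ∈ foS n 3 := by
    have h1 : φ = fun s => ((LinearMap.toMatrix b b
        (B0 + ∑ j, (flip s p) j • B j : E →L[ℝ] E).toLinearMap)).det := by
      funext s
      rw [hφ]
      show LinearMap.det _ = _
      rw [LinearMap.det_toMatrix]
    rw [h1]
    simp only [Matrix.det_fin_three]
    have h3 : ∀ k1 l1 k2 l2 k3 l3 : Fin 3, (fun s => (LinearMap.toMatrix b b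
      (B0 + ∑ j, (flip s p) j • B j : E →L[ℝ] E).toLinearMap) k1 l1 * (LinearMap.toMatrix b b
      (B0 + ∑ j, (flip s p) j • B j : E →L[ℝ] E).toLinearMap) k2 l2 * (LinearMap.toMatrix b b
      (B0 + ∑ j, (flip s p) j • B j : E →L[ℝ] E).toLinearMap) k3 l3) ∈ foS n 3 :=
      fun k1 l1 k2 l2 k3 l3 => foS_mul (d := 2) (e := 1)
        (foS_mul (d := 1) (e := 1) (hent k1 l1) (hent k2 l2)) (hent k3 l3)
    exact Submodule.sub_mem _ (Submodule.add_mem _ (Submodule.add_mem _ (Submodule.sub_mem _
      (Submodule.sub_mem _ (h3 _ _ _ _ _ _) (h3 _ _ _ _ _ _)) (h3 _ _ _ _ _ _))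
      (h3 _ _ _ _ _ _)) (h3 _ _ _ _ _ _)) (h3 _ _ _ _ _ _)
  rw [h0, foS_key hmem, abs_mul, abs_of_nonneg (by positivity : (0 : ℝ) ≤ (2 ^ n : ℝ)⁻¹)]
  have hK : ∀ s : Finset (Fin n), |∑ A ∈ small n, foc A s| ≤ ((small n).card : ℝ) := by
    intro s
    refine (Finset.abs_sum_le_sum_abs _ _).trans (le_of_eq ?_)
    rw [Finset.sum_congr rfl fun A _ => foc_abs A s]
    simp
  have h5 : |∑ s, φ s * ∑ A ∈ small n, foc A s| ≤ ((small n).card : ℝ) * ∑ s, |φ s| := by
    refine (Finset.abs_sum_le_sum_abs _ _).trans ?_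
    rw [Finset.mul_sum]
    refine Finset.sum_le_sum fun s _ => ?_
    rw [abs_mul, mul_comm]
    exact mul_le_mul_of_nonneg_right (hK s) (abs_nonneg _)
  calc (2 ^ n : ℝ)⁻¹ * |∑ s, φ s * ∑ A ∈ small n, foc A s|
      ≤ (2 ^ n : ℝ)⁻¹ * (((small n).card : ℝ) * ∑ s, |φ s|) :=
        mul_le_mul_of_nonneg_left h5 (by positivity)
    _ = ((small n).card : ℝ) * ((2 ^ n : ℝ)⁻¹ * ∑ s, |φ s|) := by ring

end ST992
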