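import Pool.Agent.Work.MP_992d6e_an.ST.Defs
import Pool.Agent.Work.MP_992d6e_an.ST.Bezout
import Pool.Agent.Work.MP_992d6e_an.SM.Der

/-!
MODULE Sheets (M): Bezout over all sign patterns, with a uniform external field `e`.

Apply `card_nondeg_zeros_le` (proved in ST/Bezout) with `ι = Fin 3 ⊕ Fin n` to
`f (inl k) = Σ_j C (q j) (X (inl k) - C (a j k)) Π_{i ≠ j} X (inr i)^3 - C (e k) Π_i X (inr i)^3`
(total degree `≤ 3 n`), `f (inr j) = X (inr j)^2 - Σ_k (X (inl k) - C (a j k))^2` (degree `≤ 2`), and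
to the finite set of the points `(x, ε_j |x - a_j|)`, `(s, x) ∈ Z`, `ε_j = -1` iff `j ∈ s` (this map is
injective because `|x - a_j| > 0`); `∏ d = (3n)^3 2^n`.
Zero: `f (inl k) = (Π r_i^3) (F (flip s q) a x k - e k)` where `r_i = ε_i |x - a_i|`, since
`q_j r_j^(-3) = (flip s q)_j |x - a_j|^(-3)`.
Injectivity of the derivative `L` at the point: if `L (ξ, ρ) = 0` then the `inr j` components give
`r_j ρ_j = (x - a_j)·ξ`, so `(ξ, ρ)` is the velocity at `0` of `t ↦ (x + tξ, ε_j |x + tξ - a_j|)`; along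
this curve `f (inl k)` is `(Π r_i(t)^3) (F (flip s q) a (x + tξ) k - e k)`, with derivative
`(Π r_i^3) (DF (flip s q) a x ξ) k` at `0` (the second factor vanishes at `0`). So `DF ξ = 0`, `ξ = 0`,
`ρ = 0`. (`SM992.hasStrictFDerivAt_F` in SM/Der.) Polynomial maps are smooth:
`MvPolynomial.contDiff_eval`-type lemma or induction; `ContDiffAt.hasStrictFDerivAt`.
The Sums over signs without external field were done in Work/MP_992d6e_an/SA (helper30); you may
look there for the derivative computations (SA/Anal).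
-/

set_option autoImplicit false

namespace ST992

open SM992 (E F DF g Dg IsEq)
open MvPolynomial

/-- the polynomial system -/
private noncomputable def shf {n : ℕ} (q : Fin n → ℝ) (a : Fin n → E) (e : E) :
    Fin 3 ⊕ Fin n → MvPolynomial (Fin 3 ⊕ Fin n) ℝ
  | Sum.inl k => (∑ j, C (q j) * (X (Sum.inl k) - C (a j k)) *
      ∏ i ∈ Finset.univ.erase j, (X (Sum.inr i)) ^ 3) - C (e k) * ∏ i, (X (Sum.inr i)) ^ 3
  | Sum.inr j => (X (Sum.inr j)) ^ 2 - ∑ k : Fin 3, (X (Sum.inl k) - C (a j k)) ^ 2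

/-- the same system as functions -/
private noncomputable def shF {n : ℕ} (q : Fin n → ℝ) (a : Fin n → E) (e : E)
    (y : Fin 3 ⊕ Fin n → ℝ) : Fin 3 ⊕ Fin n → ℝ
  | Sum.inl k => (∑ j, q j * (y (Sum.inl k) - a j k) *
      ∏ i ∈ Finset.univ.erase j, (y (Sum.inr i)) ^ 3) - e k * ∏ i, (y (Sum.inr i)) ^ 3
  | Sum.inr j => (y (Sum.inr j)) ^ 2 - ∑ k : Fin 3, (y (Sum.inl k) - a j k) ^ 2

private def shd {n : ℕ} : Fin 3 ⊕ Fin n → ℕ
  | Sum.inl _ => 3 * n
  | Sum.inr _ => 2

private theorem sh_eval {n : ℕ} (q : Fin n → ℝ) (a : Fin n → E) (e : E)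
    (y : Fin 3 ⊕ Fin n → ℝ) (i : Fin 3 ⊕ Fin n) :
    MvPolynomial.eval y (shf q a e i) = shF q a e y i := by
  rcases i with k | j
  · simp [shf, shF]
  · simp [shf, shF]

private theorem sh_lin {n : ℕ} (i : Fin 3 ⊕ Fin n) (c : ℝ) :
    (X i - C c : MvPolynomial (Fin 3 ⊕ Fin n) ℝ).totalDegree ≤ 1 := by
  refine (totalDegree_sub _ _).trans ?_
  simp [totalDegree_X]

private theorem sh_prod {n : ℕ} (s : Finset (Fin n)) :
    (∏ i ∈ s, (X (Sum.inr i) : MvPolynomial (Fin 3 ⊕ Fin n) ℝ) ^ 3).totalDegree ≤ 3 * s.card := by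
  refine (totalDegree_finsetProd _ _).trans ?_
  refine (Finset.sum_le_card_nsmul _ _ 3 fun i _ => ?_).trans ?_
  · rw [totalDegree_X_pow]
  · rw [smul_eq_mul, mul_comm]

private theorem sh_deg {n : ℕ} (hn : 1 ≤ n) (q : Fin n → ℝ) (a : Fin n → E) (e : E)
    (i : Fin 3 ⊕ Fin n) : (shf q a e i).totalDegree ≤ shd i := by
  rcases i with k | j
  · show ((∑ j, C (q j) * (X (Sum.inl k) - C (a j k)) *
      ∏ i ∈ Finset.univ.erase j, (X (Sum.inr i)) ^ 3) -
        C (e k) * ∏ i, (X (Sum.inr i)) ^ 3 : MvPolynomial (Fin 3 ⊕ Fin n) ℝ).totalDegree ≤ 3 * n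
    refine (totalDegree_sub _ _).trans (max_le ?_ ?_)
    · refine (totalDegree_finsetSum _ _).trans (Finset.sup_le fun j _ => ?_)
      refine (totalDegree_mul _ _).trans ?_
      have h1 := totalDegree_mul (C (q j)) (X (Sum.inl k) - C (a j k) :
        MvPolynomial (Fin 3 ⊕ Fin n) ℝ)
      have h2 := sh_lin (n := n) (Sum.inl k) (a j k)
      have h3 := sh_prod (Finset.univ.erase j)
      rw [Finset.card_erase_of_mem (Finset.mem_univ _), Finset.card_univ, Fintype.card_fin] at h3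
      rw [totalDegree_C] at h1
      omega
    · refine (totalDegree_mul _ _).trans ?_
      have h3 := sh_prod (Finset.univ : Finset (Fin n))
      rw [Finset.card_univ, Fintype.card_fin] at h3
      rw [totalDegree_C]
      omega
  · show ((X (Sum.inr j)) ^ 2 - ∑ k : Fin 3, (X (Sum.inl k) - C (a j k)) ^ 2 :
      MvPolynomial (Fin 3 ⊕ Fin n) ℝ).totalDegree ≤ 2
    refine (totalDegree_sub _ _).trans (max_le ?_ ?_)
    · rw [totalDegree_X_pow]
    · refine (totalDegree_finsetSum _ _).trans (Finset.sup_le fun k _ => ?_)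
      refine (totalDegree_pow _ _).trans ?_
      have h2 := sh_lin (n := n) (Sum.inl k) (a j k)
      omega

private theorem sh_diff {n : ℕ} (q : Fin n → ℝ) (a : Fin n → E) (e : E) :
    ContDiff ℝ 1 (shF q a e) := by
  have hc : ∀ i : Fin 3 ⊕ Fin n, ContDiff ℝ 1 (fun y : Fin 3 ⊕ Fin n → ℝ => y i) :=
    fun i => contDiff_apply ℝ ℝ i
  rw [contDiff_pi]
  rintro (k | j)
  · show ContDiff ℝ 1 (fun y : Fin 3 ⊕ Fin n → ℝ => (∑ j, q j * (y (Sum.inl k) - a j k) *
      ∏ i ∈ Finset.univ.erase j, (y (Sum.inr i)) ^ 3) - e k * ∏ i, (y (Sum.inr i)) ^ 3)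
    refine ContDiff.sub (ContDiff.sum fun j _ => ?_) (contDiff_const.mul ?_)
    · exact (contDiff_const.mul ((hc _).sub contDiff_const)).mul
        (contDiff_prod fun i _ => (hc _).pow 3)
    · exact contDiff_prod fun i _ => (hc _).pow 3
  · show ContDiff ℝ 1 (fun y : Fin 3 ⊕ Fin n → ℝ =>
      (y (Sum.inr j)) ^ 2 - ∑ k : Fin 3, (y (Sum.inl k) - a j k) ^ 2)
    exact ((hc _).pow 2).sub (ContDiff.sum fun k _ => ((hc _).sub contDiff_const).pow 2)

/-- signs -/
private def shs {n : ℕ} (s : Finset (Fin n)) (j : Fin n) : ℝ := if j ∈ s then -1 else 1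

private theorem shs_sq {n : ℕ} (s : Finset (Fin n)) (j : Fin n) : shs s j * shs s j = 1 := by
  unfold shs
  split_ifs <;> norm_num

private theorem shs_flip {n : ℕ} (s : Finset (Fin n)) (q : Fin n → ℝ) (j : Fin n) :
    flip s q j = shs s j * q j := by
  unfold shs flip
  split_ifs <;> ring

/-- the point over `x` on the sheet `s` -/
private noncomputable def shP {n : ℕ} (a : Fin n → E) (s : Finset (Fin n)) (x : E) :
    Fin 3 ⊕ Fin n → ℝ
  | Sum.inl k => x k
  | Sum.inr j => shs s j * ‖x - a j‖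

private theorem sh_F_apply {n : ℕ} (q : Fin n → ℝ) (a : Fin n → E) (x : E) (k : Fin 3) :
    F q a x k = ∑ j, q j * (‖x - a j‖ ^ 3)⁻¹ * (x k - a j k) := by
  unfold SM992.F SM992.g
  simp [mul_assoc]

private theorem sh_comp {n : ℕ} (q : Fin n → ℝ) (a : Fin n → E) (e : E) (s : Finset (Fin n))
    {y : E} (hy : y ∈ off a) (k : Fin 3) :
    shF q a e (shP a s y) (Sum.inl k) =
      (∏ i, (shs s i * ‖y - a i‖) ^ 3) * (F (flip s q) a y k - e k) := by
  rw [sh_F_apply]
  show (∑ j, q j * (y k - a j k) *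
      ∏ i ∈ Finset.univ.erase j, (shs s i * ‖y - a i‖) ^ 3) -
        e k * ∏ i, (shs s i * ‖y - a i‖) ^ 3 = _
  rw [mul_sub, Finset.mul_sum, mul_comm (e k)]
  congr 1
  refine Finset.sum_congr rfl fun j _ => ?_
  rw [← Finset.mul_prod_erase Finset.univ _ (Finset.mem_univ j), shs_flip]
  have h0 : ‖y - a j‖ ≠ 0 := norm_ne_zero_iff.2 (sub_ne_zero.2 (hy j))
  have h1 : (shs s j * ‖y - a j‖) ^ 3 * (shs s j * q j * (‖y - a j‖ ^ 3)⁻¹) = q j := by
    have h2 := shs_sq s j
    have h3 : (shs s j * ‖y - a j‖) ^ 3 * (shs s j * q j * (‖y - a j‖ ^ 3)⁻¹) =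
        (shs s j * shs s j) * (shs s j * shs s j) * q j * (‖y - a j‖ ^ 3 * (‖y - a j‖ ^ 3)⁻¹) := by
      ring
    rw [h3, h2, mul_inv_cancel₀ (pow_ne_zero 3 h0)]
    ring
  linear_combination (-(y k - a j k) * ∏ i ∈ Finset.univ.erase j, (shs s i * ‖y - a i‖) ^ 3) * h1

private theorem sh_norm {u : E} (hu : u ≠ 0) :
    HasStrictFDerivAt (fun y : E => ‖y‖) (‖u‖⁻¹ • innerSL ℝ u) u := by
  have h0 : 0 < ‖u‖ := norm_pos_iff.2 hu
  have h1 := (hasStrictFDerivAt_norm_sq u).sqrt (by positivity)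
  have h2 : (fun y : E => √(‖y‖ ^ 2)) = fun y => ‖y‖ := by
    funext y
    exact Real.sqrt_sq (norm_nonneg y)
  rw [h2, Real.sqrt_sq (norm_nonneg u)] at h1
  have h3 : (1 / (2 * ‖u‖)) • (2 • innerSL ℝ u) = ‖u‖⁻¹ • innerSL ℝ u := by
    rw [two_nsmul, ← two_smul ℝ, smul_smul]
    congr 1
    field_simp
  rw [h3] at h1
  exact h1

/-- components of the derivative of `shP` -/
private noncomputable def shPd {n : ℕ} (a : Fin n → E) (s : Finset (Fin n)) (x : E) :
    Fin 3 ⊕ Fin n → (E →L[ℝ] ℝ)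
  | Sum.inl k => EuclideanSpace.proj k
  | Sum.inr j => shs s j • (‖x - a j‖⁻¹ • innerSL ℝ (x - a j))

private theorem shP_deriv {n : ℕ} (a : Fin n → E) (s : Finset (Fin n)) {x : E} (hx : x ∈ off a) :
    HasFDerivAt (shP a s) (ContinuousLinearMap.pi (shPd a s x)) x := by
  rw [hasFDerivAt_pi]
  rintro (k | j)
  · exact (EuclideanSpace.proj k : E →L[ℝ] ℝ).hasFDerivAt
  · have h1 : HasStrictFDerivAt (fun y : E => y - a j) (ContinuousLinearMap.id ℝ E) x :=
      (hasStrictFDerivAt_id x).sub_const (a j)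
    have h2 : HasStrictFDerivAt (fun y : E => ‖y - a j‖)
        ((‖x - a j‖⁻¹ • innerSL ℝ (x - a j)).comp (ContinuousLinearMap.id ℝ E)) x :=
      HasStrictFDerivAt.comp (g := fun y : E => ‖y‖) x (sh_norm (sub_ne_zero.2 (hx j))) h1
    rw [ContinuousLinearMap.comp_id] at h2
    exact (h2.const_smul (shs s j)).hasFDerivAt

private theorem sh_off_open {n : ℕ} (a : Fin n → E) : IsOpen (off a) := by
  have h1 : off a = ⋂ l, {x | x ≠ a l} := by
    ext x
    simp [off]
  rw [h1]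
  exact isOpen_iInter_of_finite fun l => isOpen_ne

private theorem sh_inj {n : ℕ} (q : Fin n → ℝ) (a : Fin n → E) (e : E) (s : Finset (Fin n))
    {x : E} (hx : x ∈ off a) (hF : F (flip s q) a x = e)
    (hD : Function.Injective (DF (flip s q) a x))
    (L : (Fin 3 ⊕ Fin n → ℝ) →L[ℝ] (Fin 3 ⊕ Fin n → ℝ))
    (hL : HasFDerivAt (shF q a e) L (shP a s x)) : Function.Injective L := by
  rw [injective_iff_map_eq_zero]
  intro v hv
  have hLi : ∀ i, HasFDerivAt (fun y => shF q a e y i)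
      ((ContinuousLinearMap.proj i).comp L) (shP a s x) := by
    intro i
    exact (hasFDerivAt_pi'.1 hL) i
  -- the distances
  have hr : ∀ j, ‖x - a j‖ ≠ 0 := fun j => norm_ne_zero_iff.2 (sub_ne_zero.2 (hx j))
  have hs0 : ∀ j, shs s j ≠ 0 := by
    intro j h
    have := shs_sq s j
    rw [h] at this
    norm_num at this
  set ξ : E := WithLp.toLp 2 (fun k => v (Sum.inl k)) with hξ
  have hinner : ∀ j, inner ℝ (x - a j) ξ = ∑ k, (x k - a j k) * v (Sum.inl k) := by
    intro j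
    rw [hξ, PiLp.inner_apply]
    refine Finset.sum_congr rfl fun k _ => ?_
    simp [mul_comm]
  have h1 : ∀ j, (shs s j * ‖x - a j‖) * v (Sum.inr j) = inner ℝ (x - a j) ξ := by
    intro j
    have h2 : HasFDerivAt (fun y : Fin 3 ⊕ Fin n → ℝ => (y (Sum.inr j)) ^ 2 -
        ∑ k : Fin 3, (y (Sum.inl k) - a j k) ^ 2)
        ((2 * (shP a s x (Sum.inr j))) • (ContinuousLinearMap.proj (R := ℝ) (Sum.inr j)) -
          ∑ k : Fin 3, (2 * (shP a s x (Sum.inl k) - a j k)) •
            (ContinuousLinearMap.proj (R := ℝ) (φ := fun _ : Fin 3 ⊕ Fin n => ℝ) (Sum.inl k)))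
        (shP a s x) := by
      have hc : ∀ i : Fin 3 ⊕ Fin n, HasFDerivAt (fun y : Fin 3 ⊕ Fin n → ℝ => y i)
          (ContinuousLinearMap.proj (R := ℝ) (φ := fun _ : Fin 3 ⊕ Fin n => ℝ) i)
          (shP a s x) := fun i => hasFDerivAt_apply i _
      refine HasFDerivAt.sub ?_ (HasFDerivAt.fun_sum fun k _ => ?_)
      · have := (hc (Sum.inr j)).pow 2
        simpa using this
      · have := ((hc (Sum.inl k)).sub_const (a j k)).pow 2
        simpa using this
    have h3 := h2.unique (hLi (Sum.inr j))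
    have h4 := congrArg (fun T : (Fin 3 ⊕ Fin n → ℝ) →L[ℝ] ℝ => T v) h3
    simp only [ContinuousLinearMap.comp_apply, hv, map_zero] at h4
    rw [hinner]
    simp only [sub_apply, smul_apply, sum_apply,
      ContinuousLinearMap.proj_apply, smul_eq_mul, shP] at h4
    have h5 : ∑ k : Fin 3, 2 * (x k - a j k) * v (Sum.inl k) =
        2 * ∑ k : Fin 3, (x k - a j k) * v (Sum.inl k) := by
      rw [Finset.mul_sum]
      exact Finset.sum_congr rfl fun k _ => by ring
    rw [h5] at h4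
    linarith
  have hvψ : v = ContinuousLinearMap.pi (shPd a s x) ξ := by
    funext i
    rcases i with k | j
    · rfl
    · show v (Sum.inr j) = shs s j * (‖x - a j‖⁻¹ * inner ℝ (x - a j) ξ)
      rw [← h1 j]
      have h2 := shs_sq s j
      have h3 : shs s j * (‖x - a j‖⁻¹ * (shs s j * ‖x - a j‖ * v (Sum.inr j))) =
          (shs s j * shs s j) * (‖x - a j‖⁻¹ * ‖x - a j‖) * v (Sum.inr j) := by ring
      rw [h3, h2, inv_mul_cancel₀ (hr j)]
      ring
  have hcomp := hL.comp x (shP_deriv a s hx)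
  have hDF : ∀ k, (DF (flip s q) a x ξ) k = 0 := by
    intro k
    have hk1 : HasFDerivAt (fun y => shF q a e (shP a s y) (Sum.inl k))
        ((ContinuousLinearMap.proj (Sum.inl k)).comp
          (L.comp (ContinuousLinearMap.pi (shPd a s x)))) x :=
      (hasFDerivAt_pi'.1 hcomp) (Sum.inl k)
    have hFd := (SM992.hasStrictFDerivAt_F (flip s q) a hx).hasFDerivAt
    have hFk : HasFDerivAt (fun y => F (flip s q) a y k - e k)
        ((EuclideanSpace.proj k : E →L[ℝ] ℝ).comp (DF (flip s q) a x)) x :=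
      ((EuclideanSpace.proj k : E →L[ℝ] ℝ).hasFDerivAt.comp x hFd).sub_const (e k)
    obtain ⟨R, hR⟩ : ∃ R : E →L[ℝ] ℝ,
        HasFDerivAt (fun y : E => ∏ i, (shs s i * ‖y - a i‖) ^ 3) R x := by
      have hdiff : ContDiffAt ℝ 1 (fun y : E => ∏ i, (shs s i * ‖y - a i‖) ^ 3) x := by
        refine contDiffAt_prod fun i _ => ContDiffAt.pow (contDiffAt_const.mul ?_) 3
        exact ContDiffAt.norm ℝ (contDiffAt_id.sub contDiffAt_const) (sub_ne_zero.2 (hx i))
      exact ⟨_, (hdiff.differentiableAt (by norm_num)).hasFDerivAt⟩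
    have hk2 := hR.mul hFk
    have hev : (fun y => (∏ i, (shs s i * ‖y - a i‖) ^ 3) * (F (flip s q) a y k - e k)) =ᶠ[nhds x]
        fun y => shF q a e (shP a s y) (Sum.inl k) := by
      filter_upwards [(sh_off_open a).mem_nhds hx] with y hy
      exact (sh_comp q a e s hy k).symm
    have hk3 := (hk1.congr_of_eventuallyEq hev).unique hk2
    have hk4 := congrArg (fun T : E →L[ℝ] ℝ => T ξ) hk3
    simp only [ContinuousLinearMap.comp_apply, ← hvψ, hv, map_zero] at hk4
    rw [hF] at hk4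
    simp only [add_apply, smul_apply, sub_self, zero_smul, smul_eq_mul,
      ContinuousLinearMap.comp_apply, add_zero] at hk4
    have hP : (∏ i, (shs s i * ‖x - a i‖) ^ 3) ≠ 0 :=
      Finset.prod_ne_zero_iff.2 fun i _ => pow_ne_zero 3 (mul_ne_zero (hs0 i) (hr i))
    have := (mul_eq_zero.1 hk4.symm).resolve_left hP
    exact this
  have hξ0 : ξ = 0 := by
    have h5 : DF (flip s q) a x ξ = 0 := by
      ext k
      rw [hDF k]
      rfl
    exact hD (by rw [h5, map_zero])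
  rw [hvψ, hξ0, map_zero]

theorem sheets {n : ℕ} (hn : 1 ≤ n) (q : Fin n → ℝ) (a : Fin n → E) (e : E)
    (Z : Finset (Finset (Fin n) × E))
    (hZ : ∀ z ∈ Z, z.2 ∈ off a ∧ F (flip z.1 q) a z.2 = e ∧
      Function.Injective (DF (flip z.1 q) a z.2)) :
    Z.card ≤ 2 ^ n * (3 * n) ^ 3 := by
  classical
  have hinj : Set.InjOn (fun z : Finset (Fin n) × E => shP a z.1 z.2) Z := by
    rintro ⟨s, x⟩ hz ⟨t, y⟩ hw h
    have hxy : x = y := by
      ext k
      exact congrFun h (Sum.inl k)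
    subst hxy
    have hst : s = t := by
      ext j
      have h1 : shs s j * ‖x - a j‖ = shs t j * ‖x - a j‖ := congrFun h (Sum.inr j)
      have h2 : ‖x - a j‖ ≠ 0 := norm_ne_zero_iff.2 (sub_ne_zero.2 ((hZ _ hz).1 j))
      have h3 := mul_right_cancel₀ h2 h1
      unfold shs at h3
      by_cases hs : j ∈ s <;> by_cases ht : j ∈ t <;> simp [hs, ht] at h3 ⊢ <;> norm_num at h3
    rw [hst]
  rw [← Finset.card_image_of_injOn hinj]
  have key := Pool.Agent.Work.MP_992d6e_an.ST.card_nondeg_zeros_le (shf q a e) shd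
    (sh_deg hn q a e) (Z.image fun z : Finset (Fin n) × E => shP a z.1 z.2) ?_ ?_
  · refine key.trans (le_of_eq ?_)
    rw [Fintype.prod_sum_type]
    simp only [shd, Finset.prod_const, Finset.card_univ, Fintype.card_fin]
    ring
  · intro z hz i
    obtain ⟨⟨s, x⟩, hw, rfl⟩ := Finset.mem_image.1 hz
    obtain ⟨h1, h2, -⟩ := hZ _ hw
    rw [sh_eval]
    rcases i with k | j
    · show shF q a e (shP a s x) (Sum.inl k) = 0
      rw [sh_comp q a e s h1 k]
      have h3 : F (flip s q) a x = e := h2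
      rw [h3, sub_self, mul_zero]
    · show (shs s j * ‖x - a j‖) ^ 2 - ∑ k : Fin 3, (x k - a j k) ^ 2 = 0
      have h3 : ‖x - a j‖ ^ 2 = ∑ k : Fin 3, (x k - a j k) ^ 2 := by
        rw [EuclideanSpace.norm_sq_eq]
        refine Finset.sum_congr rfl fun k _ => ?_
        rw [Real.norm_eq_abs, sq_abs]
        rfl
      have h4 := shs_sq s j
      rw [← h3]
      linear_combination (‖x - a j‖ ^ 2) * h4
  · intro z hz
    obtain ⟨⟨s, x⟩, hw, rfl⟩ := Finset.mem_image.1 hz
    obtain ⟨h1, h2, h3⟩ := hZ _ hw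
    have h4 : (fun y : Fin 3 ⊕ Fin n → ℝ => fun i => MvPolynomial.eval y (shf q a e i)) =
        shF q a e := by
      funext y i
      exact sh_eval q a e y i
    rw [h4]
    have h5 := ((sh_diff q a e).contDiffAt (x := shP a s x)).hasStrictFDerivAt (by norm_num)
    exact ⟨_, sh_inj q a e s h1 h2 h3 _ h5.hasFDerivAt, h5⟩

end ST992
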